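import Pool.Agent.Gen.F5.X1C2D13m5.S000
import Pool.Agent.Gen.F5.X1C2D13m5.S001
import Pool.Agent.Gen.F5.X1C2D13m5.S002

set_option autoImplicit false
set_option maxRecDepth 100000

namespace Pool.Agent.Gen.F5.X1C2D13m5

open Pool.Agent.Helper72.F5

def n0 : Cl (O (nat_lit 5)) (R (nat_lit 104577))
    (p (nat_lit 0x200004) (nat_lit 0) (p (nat_lit 0x109) (nat_lit 1) (p (nat_lit 0x101) (nat_lit 0) (p (nat_lit 0x81) (nat_lit 1) (p (nat_lit 0xc1) (nat_lit 1) (p (nat_lit 0x119) (nat_lit 1) (p (nat_lit 0xd1) (nat_lit 0) (p (nat_lit 0x89) (nat_lit 0) (p (nat_lit 0x41) (nat_lit 0) (p (nat_lit 0x10a090b098a9a) (nat_lit 0) (p (nat_lit 0x9888a890a1a) (nat_lit 0) (p (nat_lit 0x109080a08879a) (nat_lit 0) (p (nat_lit 0x8878988071a) (nat_lit 0) (p (nat_lit 0x8000000000800080907888a) (nat_lit 0) (p (nat_lit 0x8000000000800078887060a) (nat_lit 0) (p (nat_lit 0x10608068782) (nat_lit 0) (p (nat_lit 0x587860702)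 (nat_lit 0) (p (nat_lit 0x10507058482) (nat_lit 0) (p (nat_lit 0x486850402) (nat_lit 0) (p (nat_lit 0x16000c) (nat_lit 0) (p (nat_lit 0x50612) (nat_lit 0) (p (nat_lit 0x38592) (nat_lit 0) (p (nat_lit 0x40492) (nat_lit 0) (p (nat_lit 0x28412) (nat_lit 0) (p (nat_lit 0x30292) (nat_lit 0) (p (nat_lit 0x18212) (nat_lit 0) (p (nat_lit 0x20092) (nat_lit 0) (p (nat_lit 0x8012) (nat_lit 0) pn)))))))))))))))))))))))))))) :=
  Cl.node (nat_lit 0x200014) (nat_lit 2) (by decide +kernel) (ClAll.succ (ClAll.succ ClAll.zero s16) s17)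

def n1 : Cl (O (nat_lit 5)) (R (nat_lit 104577))
    (p (nat_lit 0xb000c) (nat_lit 0) (p (nat_lit 0x200004) (nat_lit 1) (p (nat_lit 0xd1) (nat_lit 1) (p (nat_lit 0x109) (nat_lit 1) (p (nat_lit 0x101) (nat_lit 0) (p (nat_lit 0x119) (nat_lit 0) (p (nat_lit 0xc9) (nat_lit 0) (p (nat_lit 0x89) (nat_lit 1) (p (nat_lit 0x41) (nat_lit 0) (p (nat_lit 0x10a090b098a9a) (nat_lit 0) (p (nat_lit 0x9888a890a1a) (nat_lit 0) (p (nat_lit 0x109080a08879a) (nat_lit 0) (p (nat_lit 0x8878988071a) (nat_lit 0) (p (nat_lit 0x8000000000800080907888a) (nat_lit 0) (p (nat_lit 0x8000000000800078887060a) (nat_lit 0) (p (nat_lit 0x10608068782) (nat_lit 0) (p (nat_lit 0x587860702) (nat_lit 0) (p (nat_lit 0x10507058482) (nat_lit 0) (p (nat_lit 0x486850402) (nat_lit 0) (p (nat_lit 0x16000c) (nat_lit 0) (p (nat_lit 0x50612) (nat_lit 0) (p (nat_lit 0x38592) (nat_lit 0) (p (nat_lit 0x40492) (nat_lit 0) (p (nat_lit 0x28412)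 (nat_lit 0) (p (nat_lit 0x30292) (nat_lit 0) (p (nat_lit 0x18212) (nat_lit 0) (p (nat_lit 0x20092) (nat_lit 0) (p (nat_lit 0x8012) (nat_lit 0) pn)))))))))))))))))))))))))))) :=
  Cl.node (nat_lit 0x200014) (nat_lit 2) (by decide +kernel) (ClAll.succ (ClAll.succ ClAll.zero s40) s41)

def n2 : Cl (O (nat_lit 5)) (R (nat_lit 104577))
    (p (nat_lit 0xb000c) (nat_lit 0) (p (nat_lit 0x200004) (nat_lit 1) (p (nat_lit 0x89) (nat_lit 1) (p (nat_lit 0xc1) (nat_lit 1) (p (nat_lit 0x101) (nat_lit 1) (p (nat_lit 0x119) (nat_lit 0) (p (nat_lit 0xd1) (nat_lit 0) (p (nat_lit 0x81) (nat_lit 0) (p (nat_lit 0x41) (nat_lit 1) (p (nat_lit 0x10a090b098a9a) (nat_lit 0) (p (nat_lit 0x9888a890a1a) (nat_lit 0) (p (nat_lit 0x109080a08879a) (nat_lit 0) (p (nat_lit 0x8878988071a) (nat_lit 0) (p (nat_lit 0x8000000000800080907888a) (nat_lit 0) (p (nat_lit 0x8000000000800078887060a) (nat_lit 0) (p (nat_lit 0x10608068782)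 (nat_lit 0) (p (nat_lit 0x587860702) (nat_lit 0) (p (nat_lit 0x10507058482) (nat_lit 0) (p (nat_lit 0x486850402) (nat_lit 0) (p (nat_lit 0x16000c) (nat_lit 0) (p (nat_lit 0x50612) (nat_lit 0) (p (nat_lit 0x38592) (nat_lit 0) (p (nat_lit 0x40492) (nat_lit 0) (p (nat_lit 0x28412) (nat_lit 0) (p (nat_lit 0x30292) (nat_lit 0) (p (nat_lit 0x18212) (nat_lit 0) (p (nat_lit 0x20092) (nat_lit 0) (p (nat_lit 0x8012) (nat_lit 0) pn)))))))))))))))))))))))))))) :=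
  Cl.node (nat_lit 0x200014) (nat_lit 2) (by decide +kernel) (ClAll.succ (ClAll.succ ClAll.zero s74) s75)

def n3 : Cl (O (nat_lit 5)) (R (nat_lit 104577))
    (p (nat_lit 0xb000c) (nat_lit 0) (p (nat_lit 0x200004) (nat_lit 1) (p (nat_lit 0xc9) (nat_lit 0) (p (nat_lit 0x89) (nat_lit 1) (p (nat_lit 0x101) (nat_lit 1) (p (nat_lit 0x111) (nat_lit 0) (p (nat_lit 0xd1) (nat_lit 1) (p (nat_lit 0x81) (nat_lit 0) (p (nat_lit 0x41) (nat_lit 1) (p (nat_lit 0x10a090b098a9a) (nat_lit 0) (p (nat_lit 0x9888a890a1a) (nat_lit 0) (p (nat_lit 0x109080a08879a) (nat_lit 0) (p (nat_lit 0x8878988071a) (nat_lit 0) (p (nat_lit 0x8000000000800080907888a) (nat_lit 0) (p (nat_lit 0x8000000000800078887060a) (nat_lit 0) (p (nat_lit 0x10608068782) (nat_lit 0) (p (nat_lit 0x587860702) (nat_lit 0) (p (nat_lit 0x10507058482) (nat_lit 0) (p (nat_lit 0x486850402) (nat_lit 0) (p (nat_lit 0x16000c) (nat_lit 0) (p (nat_lit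 0x50612) (nat_lit 0) (p (nat_lit 0x38592) (nat_lit 0) (p (nat_lit 0x40492) (nat_lit 0) (p (nat_lit 0x28412) (nat_lit 0) (p (nat_lit 0x30292) (nat_lit 0) (p (nat_lit 0x18212) (nat_lit 0) (p (nat_lit 0x20092) (nat_lit 0) (p (nat_lit 0x8012) (nat_lit 0) pn)))))))))))))))))))))))))))) :=
  Cl.node (nat_lit 0x200014) (nat_lit 2) (by decide +kernel) (ClAll.succ (ClAll.succ ClAll.zero s95) s96)

def n4 : Cl (O (nat_lit 5)) (R (nat_lit 104577))
    (p (nat_lit 0xc9) (nat_lit 1) (p (nat_lit 0xc1) (nat_lit 0) (p (nat_lit 0x81) (nat_lit 1) (p (nat_lit 0x101) (nat_lit 1) (p (nat_lit 0x119) (nat_lit 0) (p (nat_lit 0xd1) (nat_lit 0) (p (nat_lit 0x89) (nat_lit 0) (p (nat_lit 0x41) (nat_lit 0) (p (nat_lit 0x10a090b098a9a) (nat_lit 0) (p (nat_lit 0x9888a890a1a) (nat_lit 0) (p (nat_lit 0x109080a08879a) (nat_lit 0) (p (nat_lit 0x8878988071a) (nat_lit 0) (p (nat_lit 0x8000000000800080907888a) (nat_lit 0)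 (p (nat_lit 0x8000000000800078887060a) (nat_lit 0) (p (nat_lit 0x10608068782) (nat_lit 0) (p (nat_lit 0x587860702) (nat_lit 0) (p (nat_lit 0x10507058482) (nat_lit 0) (p (nat_lit 0x486850402) (nat_lit 0) (p (nat_lit 0x16000c) (nat_lit 0) (p (nat_lit 0x50612) (nat_lit 0) (p (nat_lit 0x38592) (nat_lit 0) (p (nat_lit 0x40492) (nat_lit 0) (p (nat_lit 0x28412) (nat_lit 0) (p (nat_lit 0x30292) (nat_lit 0) (p (nat_lit 0x18212) (nat_lit 0) (p (nat_lit 0x20092) (nat_lit 0) (p (nat_lit 0x8012) (nat_lit 0) pn))))))))))))))))))))))))))) :=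
  Cl.node (nat_lit 0x200004) (nat_lit 2) (by decide +kernel) (ClAll.succ (ClAll.succ ClAll.zero s8) s9)

def n5 : Cl (O (nat_lit 5)) (R (nat_lit 104577))
    (p (nat_lit 0x109) (nat_lit 1) (p (nat_lit 0x101) (nat_lit 0) (p (nat_lit 0x81) (nat_lit 1) (p (nat_lit 0xc1) (nat_lit 1) (p (nat_lit 0x119) (nat_lit 1) (p (nat_lit 0xd1) (nat_lit 0) (p (nat_lit 0x89) (nat_lit 0) (p (nat_lit 0x41) (nat_lit 0) (p (nat_lit 0x10a090b098a9a) (nat_lit 0) (p (nat_lit 0x9888a890a1a) (nat_lit 0) (p (nat_lit 0x109080a08879a) (nat_lit 0) (p (nat_lit 0x8878988071a) (nat_lit 0) (p (nat_lit 0x8000000000800080907888a) (nat_lit 0) (p (nat_lit 0x8000000000800078887060a) (nat_lit 0) (p (nat_lit 0x10608068782) (nat_lit 0) (p (nat_lit 0x587860702) (nat_lit 0) (p (nat_lit 0x10507058482) (nat_lit 0) (p (nat_lit 0x486850402) (nat_lit 0) (p (nat_lit 0x16000c) (nat_lit 0) (p (nat_lit 0x50612) (nat_lit 0) (p (nat_lit 0x38592)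 (nat_lit 0) (p (nat_lit 0x40492) (nat_lit 0) (p (nat_lit 0x28412) (nat_lit 0) (p (nat_lit 0x30292) (nat_lit 0) (p (nat_lit 0x18212) (nat_lit 0) (p (nat_lit 0x20092) (nat_lit 0) (p (nat_lit 0x8012) (nat_lit 0) pn))))))))))))))))))))))))))) :=
  Cl.node (nat_lit 0x200004) (nat_lit 2) (by decide +kernel) (ClAll.succ (ClAll.succ ClAll.zero n0) s18)

def n6 : Cl (O (nat_lit 5)) (R (nat_lit 104577))
    (p (nat_lit 0xd1) (nat_lit 1) (p (nat_lit 0x111) (nat_lit 1) (p (nat_lit 0x109) (nat_lit 0) (p (nat_lit 0x101) (nat_lit 0) (p (nat_lit 0x119) (nat_lit 0) (p (nat_lit 0xc9) (nat_lit 0) (p (nat_lit 0x89) (nat_lit 1) (p (nat_lit 0x41) (nat_lit 0) (p (nat_lit 0x10a090b098a9a) (nat_lit 0) (p (nat_lit 0x9888a890a1a) (nat_lit 0) (p (nat_lit 0x109080a08879a) (nat_lit 0) (p (nat_lit 0x8878988071a) (nat_lit 0) (p (nat_lit 0x8000000000800080907888a) (nat_lit 0) (p (nat_lit 0x8000000000800078887060a) (nat_lit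 0) (p (nat_lit 0x10608068782) (nat_lit 0) (p (nat_lit 0x587860702) (nat_lit 0) (p (nat_lit 0x10507058482) (nat_lit 0) (p (nat_lit 0x486850402) (nat_lit 0) (p (nat_lit 0x16000c) (nat_lit 0) (p (nat_lit 0x50612) (nat_lit 0) (p (nat_lit 0x38592) (nat_lit 0) (p (nat_lit 0x40492) (nat_lit 0) (p (nat_lit 0x28412) (nat_lit 0) (p (nat_lit 0x30292) (nat_lit 0) (p (nat_lit 0x18212) (nat_lit 0) (p (nat_lit 0x20092) (nat_lit 0) (p (nat_lit 0x8012) (nat_lit 0) pn))))))))))))))))))))))))))) :=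
  Cl.node (nat_lit 0x200004) (nat_lit 2) (by decide +kernel) (ClAll.succ (ClAll.succ ClAll.zero s34) s35)

def n7 : Cl (O (nat_lit 5)) (R (nat_lit 104577))
    (p (nat_lit 0x200004) (nat_lit 0) (p (nat_lit 0xd1) (nat_lit 1) (p (nat_lit 0x109) (nat_lit 1) (p (nat_lit 0x101) (nat_lit 0) (p (nat_lit 0x119) (nat_lit 0) (p (nat_lit 0xc9) (nat_lit 0) (p (nat_lit 0x89) (nat_lit 1) (p (nat_lit 0x41) (nat_lit 0) (p (nat_lit 0x10a090b098a9a) (nat_lit 0) (p (nat_lit 0x9888a890a1a) (nat_lit 0) (p (nat_lit 0x109080a08879a) (nat_lit 0) (p (nat_lit 0x8878988071a) (nat_lit 0) (p (nat_lit 0x8000000000800080907888a) (nat_lit 0) (p (nat_lit 0x8000000000800078887060a) (nat_lit 0) (p (nat_lit 0x10608068782) (nat_lit 0) (p (nat_lit 0x587860702) (nat_lit 0) (p (nat_lit 0x10507058482) (nat_lit 0) (p (nat_lit 0x486850402) (nat_lit 0) (p (nat_lit 0x16000c) (nat_lit 0) (p (nat_lit 0x50612) (nat_lit 0) (p (nat_lit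 0x38592) (nat_lit 0) (p (nat_lit 0x40492) (nat_lit 0) (p (nat_lit 0x28412) (nat_lit 0) (p (nat_lit 0x30292) (nat_lit 0) (p (nat_lit 0x18212) (nat_lit 0) (p (nat_lit 0x20092) (nat_lit 0) (p (nat_lit 0x8012) (nat_lit 0) pn))))))))))))))))))))))))))) :=
  Cl.node (nat_lit 0x200014) (nat_lit 2) (by decide +kernel) (ClAll.succ (ClAll.succ ClAll.zero s38) s39)

def n8 : Cl (O (nat_lit 5)) (R (nat_lit 104577))
    (p (nat_lit 0x200004) (nat_lit 1) (p (nat_lit 0xd1) (nat_lit 1) (p (nat_lit 0x109) (nat_lit 1) (p (nat_lit 0x101) (nat_lit 0) (p (nat_lit 0x119) (nat_lit 0) (p (nat_lit 0xc9) (nat_lit 0) (p (nat_lit 0x89) (nat_lit 1) (p (nat_lit 0x41) (nat_lit 0) (p (nat_lit 0x10a090b098a9a) (nat_lit 0) (p (nat_lit 0x9888a890a1a) (nat_lit 0) (p (nat_lit 0x109080a08879a) (nat_lit 0) (p (nat_lit 0x8878988071a) (nat_lit 0) (p (nat_lit 0x8000000000800080907888a) (nat_lit 0) (p (nat_lit 0x8000000000800078887060a)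 (nat_lit 0) (p (nat_lit 0x10608068782) (nat_lit 0) (p (nat_lit 0x587860702) (nat_lit 0) (p (nat_lit 0x10507058482) (nat_lit 0) (p (nat_lit 0x486850402) (nat_lit 0) (p (nat_lit 0x16000c) (nat_lit 0) (p (nat_lit 0x50612) (nat_lit 0) (p (nat_lit 0x38592) (nat_lit 0) (p (nat_lit 0x40492) (nat_lit 0) (p (nat_lit 0x28412) (nat_lit 0) (p (nat_lit 0x30292) (nat_lit 0) (p (nat_lit 0x18212) (nat_lit 0) (p (nat_lit 0x20092) (nat_lit 0) (p (nat_lit 0x8012) (nat_lit 0) pn))))))))))))))))))))))))))) :=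
  Cl.node (nat_lit 0xb000c) (nat_lit 2) (by decide +kernel) (ClAll.succ (ClAll.succ ClAll.zero n1) s42)

def n9 : Cl (O (nat_lit 5)) (R (nat_lit 104577))
    (p (nat_lit 0x200004) (nat_lit 0) (p (nat_lit 0xd1) (nat_lit 0) (p (nat_lit 0xc1) (nat_lit 0) (p (nat_lit 0x101) (nat_lit 1) (p (nat_lit 0x119) (nat_lit 0) (p (nat_lit 0xc9) (nat_lit 0) (p (nat_lit 0x89) (nat_lit 1) (p (nat_lit 0x41) (nat_lit 0) (p (nat_lit 0x10a090b098a9a) (nat_lit 0) (p (nat_lit 0x9888a890a1a) (nat_lit 0) (p (nat_lit 0x109080a08879a) (nat_lit 0) (p (nat_lit 0x8878988071a) (nat_lit 0) (p (nat_lit 0x8000000000800080907888a) (nat_lit 0) (p (nat_lit 0x8000000000800078887060a) (nat_lit 0) (p (nat_lit 0x10608068782) (nat_lit 0) (p (nat_lit 0x587860702) (nat_lit 0) (p (nat_lit 0x10507058482) (nat_lit 0) (p (nat_lit 0x486850402) (nat_lit 0) (p (nat_lit 0x16000c) (nat_lit 0) (p (nat_lit 0x50612) (nat_lit 0) (p (nat_lit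 0x38592) (nat_lit 0) (p (nat_lit 0x40492) (nat_lit 0) (p (nat_lit 0x28412) (nat_lit 0) (p (nat_lit 0x30292) (nat_lit 0) (p (nat_lit 0x18212) (nat_lit 0) (p (nat_lit 0x20092) (nat_lit 0) (p (nat_lit 0x8012) (nat_lit 0) pn))))))))))))))))))))))))))) :=
  Cl.node (nat_lit 0x200014) (nat_lit 2) (by decide +kernel) (ClAll.succ (ClAll.succ ClAll.zero s43) s44)

def n10 : Cl (O (nat_lit 5)) (R (nat_lit 104577))
    (p (nat_lit 0x200004) (nat_lit 0) (p (nat_lit 0x111) (nat_lit 1) (p (nat_lit 0x101) (nat_lit 0) (p (nat_lit 0xc1) (nat_lit 1) (p (nat_lit 0x119) (nat_lit 1) (p (nat_lit 0xc9) (nat_lit 0) (p (nat_lit 0x89) (nat_lit 1) (p (nat_lit 0x41) (nat_lit 0) (p (nat_lit 0x10a090b098a9a) (nat_lit 0) (p (nat_lit 0x9888a890a1a) (nat_lit 0) (p (nat_lit 0x109080a08879a) (nat_lit 0) (p (nat_lit 0x8878988071a) (nat_lit 0) (p (nat_lit 0x8000000000800080907888a) (nat_lit 0) (p (nat_lit 0x8000000000800078887060a)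 (nat_lit 0) (p (nat_lit 0x10608068782) (nat_lit 0) (p (nat_lit 0x587860702) (nat_lit 0) (p (nat_lit 0x10507058482) (nat_lit 0) (p (nat_lit 0x486850402) (nat_lit 0) (p (nat_lit 0x16000c) (nat_lit 0) (p (nat_lit 0x50612) (nat_lit 0) (p (nat_lit 0x38592) (nat_lit 0) (p (nat_lit 0x40492) (nat_lit 0) (p (nat_lit 0x28412) (nat_lit 0) (p (nat_lit 0x30292) (nat_lit 0) (p (nat_lit 0x18212) (nat_lit 0) (p (nat_lit 0x20092) (nat_lit 0) (p (nat_lit 0x8012) (nat_lit 0) pn))))))))))))))))))))))))))) :=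
  Cl.node (nat_lit 0x200014) (nat_lit 2) (by decide +kernel) (ClAll.succ (ClAll.succ ClAll.zero s54) s55)

def n11 : Cl (O (nat_lit 5)) (R (nat_lit 104577))
    (p (nat_lit 0x200004) (nat_lit 0) (p (nat_lit 0x89) (nat_lit 1) (p (nat_lit 0xc1) (nat_lit 1) (p (nat_lit 0x101) (nat_lit 1) (p (nat_lit 0x119) (nat_lit 0) (p (nat_lit 0xd1) (nat_lit 0) (p (nat_lit 0x81) (nat_lit 0) (p (nat_lit 0x41) (nat_lit 1) (p (nat_lit 0x10a090b098a9a) (nat_lit 0) (p (nat_lit 0x9888a890a1a) (nat_lit 0) (p (nat_lit 0x109080a08879a) (nat_lit 0) (p (nat_lit 0x8878988071a) (nat_lit 0) (p (nat_lit 0x8000000000800080907888a) (nat_lit 0) (p (nat_lit 0x8000000000800078887060a) (nat_lit 0) (p (nat_lit 0x10608068782) (nat_lit 0) (p (nat_lit 0x587860702) (nat_lit 0) (p (nat_lit 0x10507058482) (nat_lit 0) (p (nat_lit 0x486850402) (nat_lit 0) (p (nat_lit 0x16000c) (nat_lit 0) (p (nat_lit 0x50612) (nat_lit 0) (p (nat_lit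 0x38592) (nat_lit 0) (p (nat_lit 0x40492) (nat_lit 0) (p (nat_lit 0x28412) (nat_lit 0) (p (nat_lit 0x30292) (nat_lit 0) (p (nat_lit 0x18212) (nat_lit 0) (p (nat_lit 0x20092) (nat_lit 0) (p (nat_lit 0x8012) (nat_lit 0) pn))))))))))))))))))))))))))) :=
  Cl.node (nat_lit 0x200014) (nat_lit 2) (by decide +kernel) (ClAll.succ (ClAll.succ ClAll.zero s72) s73)

def n12 : Cl (O (nat_lit 5)) (R (nat_lit 104577))
    (p (nat_lit 0x200004) (nat_lit 1) (p (nat_lit 0x89) (nat_lit 1) (p (nat_lit 0xc1) (nat_lit 1) (p (nat_lit 0x101) (nat_lit 1) (p (nat_lit 0x119) (nat_lit 0) (p (nat_lit 0xd1) (nat_lit 0) (p (nat_lit 0x81) (nat_lit 0) (p (nat_lit 0x41) (nat_lit 1) (p (nat_lit 0x10a090b098a9a) (nat_lit 0) (p (nat_lit 0x9888a890a1a) (nat_lit 0) (p (nat_lit 0x109080a08879a) (nat_lit 0) (p (nat_lit 0x8878988071a) (nat_lit 0) (p (nat_lit 0x8000000000800080907888a) (nat_lit 0) (p (nat_lit 0x8000000000800078887060a)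 (nat_lit 0) (p (nat_lit 0x10608068782) (nat_lit 0) (p (nat_lit 0x587860702) (nat_lit 0) (p (nat_lit 0x10507058482) (nat_lit 0) (p (nat_lit 0x486850402) (nat_lit 0) (p (nat_lit 0x16000c) (nat_lit 0) (p (nat_lit 0x50612) (nat_lit 0) (p (nat_lit 0x38592) (nat_lit 0) (p (nat_lit 0x40492) (nat_lit 0) (p (nat_lit 0x28412) (nat_lit 0) (p (nat_lit 0x30292) (nat_lit 0) (p (nat_lit 0x18212) (nat_lit 0) (p (nat_lit 0x20092) (nat_lit 0) (p (nat_lit 0x8012) (nat_lit 0) pn))))))))))))))))))))))))))) :=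
  Cl.node (nat_lit 0xb000c) (nat_lit 2) (by decide +kernel) (ClAll.succ (ClAll.succ ClAll.zero n2) s76)

def n13 : Cl (O (nat_lit 5)) (R (nat_lit 104577))
    (p (nat_lit 0x109) (nat_lit 1) (p (nat_lit 0x89) (nat_lit 1) (p (nat_lit 0xc9) (nat_lit 1) (p (nat_lit 0xc1) (nat_lit 0) (p (nat_lit 0x119) (nat_lit 1) (p (nat_lit 0xd1) (nat_lit 0) (p (nat_lit 0x81) (nat_lit 0) (p (nat_lit 0x41) (nat_lit 1) (p (nat_lit 0x10a090b098a9a) (nat_lit 0) (p (nat_lit 0x9888a890a1a) (nat_lit 0) (p (nat_lit 0x109080a08879a) (nat_lit 0) (p (nat_lit 0x8878988071a) (nat_lit 0) (p (nat_lit 0x8000000000800080907888a) (nat_lit 0) (p (nat_lit 0x8000000000800078887060a) (nat_lit 0) (p (nat_lit 0x10608068782) (nat_lit 0) (p (nat_lit 0x587860702) (nat_lit 0) (p (nat_lit 0x10507058482) (nat_lit 0) (p (nat_lit 0x486850402) (nat_lit 0) (p (nat_lit 0x16000c) (nat_lit 0) (p (nat_lit 0x50612) (nat_lit 0) (p (nat_lit 0x38592)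 (nat_lit 0) (p (nat_lit 0x40492) (nat_lit 0) (p (nat_lit 0x28412) (nat_lit 0) (p (nat_lit 0x30292) (nat_lit 0) (p (nat_lit 0x18212) (nat_lit 0) (p (nat_lit 0x20092) (nat_lit 0) (p (nat_lit 0x8012) (nat_lit 0) pn))))))))))))))))))))))))))) :=
  Cl.node (nat_lit 0x200004) (nat_lit 2) (by decide +kernel) (ClAll.succ (ClAll.succ ClAll.zero s80) s81)

def n14 : Cl (O (nat_lit 5)) (R (nat_lit 104577))
    (p (nat_lit 0x200004) (nat_lit 1) (p (nat_lit 0xc9) (nat_lit 0) (p (nat_lit 0x89) (nat_lit 1) (p (nat_lit 0x101) (nat_lit 1) (p (nat_lit 0x111) (nat_lit 0) (p (nat_lit 0xd1) (nat_lit 1) (p (nat_lit 0x81) (nat_lit 0) (p (nat_lit 0x41) (nat_lit 1) (p (nat_lit 0x10a090b098a9a) (nat_lit 0) (p (nat_lit 0x9888a890a1a) (nat_lit 0) (p (nat_lit 0x109080a08879a) (nat_lit 0) (p (nat_lit 0x8878988071a) (nat_lit 0) (p (nat_lit 0x8000000000800080907888a) (nat_lit 0) (p (nat_lit 0x8000000000800078887060a)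 (nat_lit 0) (p (nat_lit 0x10608068782) (nat_lit 0) (p (nat_lit 0x587860702) (nat_lit 0) (p (nat_lit 0x10507058482) (nat_lit 0) (p (nat_lit 0x486850402) (nat_lit 0) (p (nat_lit 0x16000c) (nat_lit 0) (p (nat_lit 0x50612) (nat_lit 0) (p (nat_lit 0x38592) (nat_lit 0) (p (nat_lit 0x40492) (nat_lit 0) (p (nat_lit 0x28412) (nat_lit 0) (p (nat_lit 0x30292) (nat_lit 0) (p (nat_lit 0x18212) (nat_lit 0) (p (nat_lit 0x20092) (nat_lit 0) (p (nat_lit 0x8012) (nat_lit 0) pn))))))))))))))))))))))))))) :=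
  Cl.node (nat_lit 0xb000c) (nat_lit 2) (by decide +kernel) (ClAll.succ (ClAll.succ ClAll.zero n3) s97)

def n15 : Cl (O (nat_lit 5)) (R (nat_lit 104577))
    (p (nat_lit 0xd1) (nat_lit 1) (p (nat_lit 0x111) (nat_lit 1) (p (nat_lit 0x109) (nat_lit 0) (p (nat_lit 0x101) (nat_lit 0) (p (nat_lit 0x119) (nat_lit 0) (p (nat_lit 0xc1) (nat_lit 0) (p (nat_lit 0x81) (nat_lit 1) (p (nat_lit 0x41) (nat_lit 1) (p (nat_lit 0x10a090b098a9a) (nat_lit 0) (p (nat_lit 0x9888a890a1a) (nat_lit 0) (p (nat_lit 0x109080a08879a) (nat_lit 0) (p (nat_lit 0x8878988071a) (nat_lit 0) (p (nat_lit 0x8000000000800080907888a) (nat_lit 0) (p (nat_lit 0x8000000000800078887060a) (nat_lit 0) (p (nat_lit 0x10608068782) (nat_lit 0) (p (nat_lit 0x587860702) (nat_lit 0) (p (nat_lit 0x10507058482) (nat_lit 0) (p (nat_lit 0x486850402) (nat_lit 0) (p (nat_lit 0x16000c) (nat_lit 0) (p (nat_lit 0x50612) (nat_lit 0) (p (nat_lit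 0x38592) (nat_lit 0) (p (nat_lit 0x40492) (nat_lit 0) (p (nat_lit 0x28412) (nat_lit 0) (p (nat_lit 0x30292) (nat_lit 0) (p (nat_lit 0x18212) (nat_lit 0) (p (nat_lit 0x20092) (nat_lit 0) (p (nat_lit 0x8012) (nat_lit 0) pn))))))))))))))))))))))))))) :=
  Cl.node (nat_lit 0x200004) (nat_lit 2) (by decide +kernel) (ClAll.succ (ClAll.succ ClAll.zero s106) s107)

def n16 : Cl (O (nat_lit 5)) (R (nat_lit 104577))
    (p (nat_lit 0xd1) (nat_lit 1) (p (nat_lit 0xc9) (nat_lit 0) (p (nat_lit 0x109) (nat_lit 1) (p (nat_lit 0x101) (nat_lit 0) (p (nat_lit 0x119) (nat_lit 0) (p (nat_lit 0xc1) (nat_lit 0) (p (nat_lit 0x81) (nat_lit 1) (p (nat_lit 0x41) (nat_lit 1) (p (nat_lit 0x10a090b098a9a) (nat_lit 0) (p (nat_lit 0x9888a890a1a) (nat_lit 0) (p (nat_lit 0x109080a08879a) (nat_lit 0) (p (nat_lit 0x8878988071a) (nat_lit 0) (p (nat_lit 0x8000000000800080907888a) (nat_lit 0) (p (nat_lit 0x8000000000800078887060a)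 (nat_lit 0) (p (nat_lit 0x10608068782) (nat_lit 0) (p (nat_lit 0x587860702) (nat_lit 0) (p (nat_lit 0x10507058482) (nat_lit 0) (p (nat_lit 0x486850402) (nat_lit 0) (p (nat_lit 0x16000c) (nat_lit 0) (p (nat_lit 0x50612) (nat_lit 0) (p (nat_lit 0x38592) (nat_lit 0) (p (nat_lit 0x40492) (nat_lit 0) (p (nat_lit 0x28412) (nat_lit 0) (p (nat_lit 0x30292) (nat_lit 0) (p (nat_lit 0x18212) (nat_lit 0) (p (nat_lit 0x20092) (nat_lit 0) (p (nat_lit 0x8012) (nat_lit 0) pn))))))))))))))))))))))))))) :=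
  Cl.node (nat_lit 0x200004) (nat_lit 2) (by decide +kernel) (ClAll.succ (ClAll.succ ClAll.zero s109) s110)

def n17 : Cl (O (nat_lit 5)) (R (nat_lit 104577))
    (p (nat_lit 0x200004) (nat_lit 0) (p (nat_lit 0xd1) (nat_lit 1) (p (nat_lit 0xc9) (nat_lit 0) (p (nat_lit 0x101) (nat_lit 1) (p (nat_lit 0x119) (nat_lit 0) (p (nat_lit 0xc1) (nat_lit 0) (p (nat_lit 0x81) (nat_lit 1) (p (nat_lit 0x41) (nat_lit 1) (p (nat_lit 0x10a090b098a9a) (nat_lit 0) (p (nat_lit 0x9888a890a1a) (nat_lit 0) (p (nat_lit 0x109080a08879a) (nat_lit 0) (p (nat_lit 0x8878988071a) (nat_lit 0) (p (nat_lit 0x8000000000800080907888a) (nat_lit 0) (p (nat_lit 0x8000000000800078887060a) (nat_lit 0) (p (nat_lit 0x10608068782) (nat_lit 0) (p (nat_lit 0x587860702) (nat_lit 0) (p (nat_lit 0x10507058482) (nat_lit 0) (p (nat_lit 0x486850402) (nat_lit 0) (p (nat_lit 0x16000c) (nat_lit 0) (p (nat_lit 0x50612) (nat_lit 0) (p (nat_lit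 0x38592) (nat_lit 0) (p (nat_lit 0x40492) (nat_lit 0) (p (nat_lit 0x28412) (nat_lit 0) (p (nat_lit 0x30292) (nat_lit 0) (p (nat_lit 0x18212) (nat_lit 0) (p (nat_lit 0x20092) (nat_lit 0) (p (nat_lit 0x8012) (nat_lit 0) pn))))))))))))))))))))))))))) :=
  Cl.node (nat_lit 0x200014) (nat_lit 2) (by decide +kernel) (ClAll.succ (ClAll.succ ClAll.zero s114) s115)

def n18 : Cl (O (nat_lit 5)) (R (nat_lit 104577))
    (p (nat_lit 0x200004) (nat_lit 0) (p (nat_lit 0x111) (nat_lit 1) (p (nat_lit 0x109) (nat_lit 0) (p (nat_lit 0xc9) (nat_lit 1) (p (nat_lit 0x119) (nat_lit 1) (p (nat_lit 0xc1) (nat_lit 0) (p (nat_lit 0x81) (nat_lit 1) (p (nat_lit 0x41) (nat_lit 1) (p (nat_lit 0x10a090b098a9a) (nat_lit 0) (p (nat_lit 0x9888a890a1a) (nat_lit 0) (p (nat_lit 0x109080a08879a) (nat_lit 0) (p (nat_lit 0x8878988071a) (nat_lit 0) (p (nat_lit 0x8000000000800080907888a) (nat_lit 0) (p (nat_lit 0x8000000000800078887060a)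 (nat_lit 0) (p (nat_lit 0x10608068782) (nat_lit 0) (p (nat_lit 0x587860702) (nat_lit 0) (p (nat_lit 0x10507058482) (nat_lit 0) (p (nat_lit 0x486850402) (nat_lit 0) (p (nat_lit 0x16000c) (nat_lit 0) (p (nat_lit 0x50612) (nat_lit 0) (p (nat_lit 0x38592) (nat_lit 0) (p (nat_lit 0x40492) (nat_lit 0) (p (nat_lit 0x28412) (nat_lit 0) (p (nat_lit 0x30292) (nat_lit 0) (p (nat_lit 0x18212) (nat_lit 0) (p (nat_lit 0x20092) (nat_lit 0) (p (nat_lit 0x8012) (nat_lit 0) pn))))))))))))))))))))))))))) :=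
  Cl.node (nat_lit 0x200014) (nat_lit 2) (by decide +kernel) (ClAll.succ (ClAll.succ ClAll.zero s125) s126)

def n19 : Cl (O (nat_lit 5)) (R (nat_lit 104577))
    (p (nat_lit 0xc9) (nat_lit 1) (p (nat_lit 0x109) (nat_lit 1) (p (nat_lit 0x101) (nat_lit 0) (p (nat_lit 0x119) (nat_lit 0) (p (nat_lit 0xd1) (nat_lit 0) (p (nat_lit 0x89) (nat_lit 0) (p (nat_lit 0x41) (nat_lit 0) (p (nat_lit 0x10a090b098a9a) (nat_lit 0) (p (nat_lit 0x9888a890a1a) (nat_lit 0) (p (nat_lit 0x109080a08879a) (nat_lit 0) (p (nat_lit 0x8878988071a) (nat_lit 0) (p (nat_lit 0x8000000000800080907888a) (nat_lit 0) (p (nat_lit 0x8000000000800078887060a) (nat_lit 0) (p (nat_lit 0x10608068782) (nat_lit 0) (p (nat_lit 0x587860702) (nat_lit 0) (p (nat_lit 0x10507058482) (nat_lit 0) (p (nat_lit 0x486850402) (nat_lit 0) (p (nat_lit 0x16000c) (nat_lit 0) (p (nat_lit 0x50612) (nat_lit 0) (p (nat_lit 0x38592) (nat_lit 0) (p (nat_lit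 0x40492) (nat_lit 0) (p (nat_lit 0x28412) (nat_lit 0) (p (nat_lit 0x30292) (nat_lit 0) (p (nat_lit 0x18212) (nat_lit 0) (p (nat_lit 0x20092) (nat_lit 0) (p (nat_lit 0x8012) (nat_lit 0) pn)))))))))))))))))))))))))) :=
  Cl.node (nat_lit 0x200004) (nat_lit 2) (by decide +kernel) (ClAll.succ (ClAll.succ ClAll.zero s2) s3)

def n20 : Cl (O (nat_lit 5)) (R (nat_lit 104577))
    (p (nat_lit 0xc9) (nat_lit 1) (p (nat_lit 0x81) (nat_lit 0) (p (nat_lit 0x101) (nat_lit 1) (p (nat_lit 0x119) (nat_lit 0) (p (nat_lit 0xd1) (nat_lit 0) (p (nat_lit 0x89) (nat_lit 0) (p (nat_lit 0x41) (nat_lit 0) (p (nat_lit 0x10a090b098a9a) (nat_lit 0) (p (nat_lit 0x9888a890a1a) (nat_lit 0) (p (nat_lit 0x109080a08879a) (nat_lit 0) (p (nat_lit 0x8878988071a) (nat_lit 0) (p (nat_lit 0x8000000000800080907888a) (nat_lit 0) (p (nat_lit 0x8000000000800078887060a) (nat_lit 0) (p (nat_lit 0x10608068782) (nat_lit 0) (p (nat_lit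 0x587860702) (nat_lit 0) (p (nat_lit 0x10507058482) (nat_lit 0) (p (nat_lit 0x486850402) (nat_lit 0) (p (nat_lit 0x16000c) (nat_lit 0) (p (nat_lit 0x50612) (nat_lit 0) (p (nat_lit 0x38592) (nat_lit 0) (p (nat_lit 0x40492) (nat_lit 0) (p (nat_lit 0x28412) (nat_lit 0) (p (nat_lit 0x30292) (nat_lit 0) (p (nat_lit 0x18212) (nat_lit 0) (p (nat_lit 0x20092) (nat_lit 0) (p (nat_lit 0x8012) (nat_lit 0) pn)))))))))))))))))))))))))) :=
  Cl.node (nat_lit 0x200004) (nat_lit 2) (by decide +kernel) (ClAll.succ (ClAll.succ ClAll.zero s5) s6)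

def n21 : Cl (O (nat_lit 5)) (R (nat_lit 104577))
    (p (nat_lit 0xc1) (nat_lit 0) (p (nat_lit 0x81) (nat_lit 1) (p (nat_lit 0x101) (nat_lit 1) (p (nat_lit 0x119) (nat_lit 0) (p (nat_lit 0xd1) (nat_lit 0) (p (nat_lit 0x89) (nat_lit 0) (p (nat_lit 0x41) (nat_lit 0) (p (nat_lit 0x10a090b098a9a) (nat_lit 0) (p (nat_lit 0x9888a890a1a) (nat_lit 0) (p (nat_lit 0x109080a08879a) (nat_lit 0) (p (nat_lit 0x8878988071a) (nat_lit 0) (p (nat_lit 0x8000000000800080907888a) (nat_lit 0) (p (nat_lit 0x8000000000800078887060a) (nat_lit 0) (p (nat_lit 0x10608068782) (nat_lit 0) (p (nat_lit 0x587860702) (nat_lit 0) (p (nat_lit 0x10507058482) (nat_lit 0) (p (nat_lit 0x486850402) (nat_lit 0) (p (nat_lit 0x16000c) (nat_lit 0) (p (nat_lit 0x50612) (nat_lit 0) (p (nat_lit 0x38592) (nat_lit 0) (p (nat_lit 0x40492) (nat_lit 0) (p (nat_lit 0x28412) (nat_lit 0) (p (nat_lit 0x30292) (nat_lit 0) (p (nat_lit 0x18212)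 (nat_lit 0) (p (nat_lit 0x20092) (nat_lit 0) (p (nat_lit 0x8012) (nat_lit 0) pn)))))))))))))))))))))))))) :=
  Cl.node (nat_lit 0xc9) (nat_lit 2) (by decide +kernel) (ClAll.succ (ClAll.succ ClAll.zero s7) n4)

def n22 : Cl (O (nat_lit 5)) (R (nat_lit 104577))
    (p (nat_lit 0x101) (nat_lit 0) (p (nat_lit 0x81) (nat_lit 1) (p (nat_lit 0xc1) (nat_lit 1) (p (nat_lit 0x119) (nat_lit 1) (p (nat_lit 0xd1) (nat_lit 0) (p (nat_lit 0x89) (nat_lit 0) (p (nat_lit 0x41) (nat_lit 0) (p (nat_lit 0x10a090b098a9a) (nat_lit 0) (p (nat_lit 0x9888a890a1a) (nat_lit 0) (p (nat_lit 0x109080a08879a) (nat_lit 0) (p (nat_lit 0x8878988071a) (nat_lit 0) (p (nat_lit 0x8000000000800080907888a) (nat_lit 0) (p (nat_lit 0x8000000000800078887060a) (nat_lit 0) (p (nat_lit 0x10608068782) (nat_lit 0) (p (nat_lit 0x587860702) (nat_lit 0) (p (nat_lit 0x10507058482) (nat_lit 0) (p (nat_lit 0x486850402) (nat_lit 0) (p (nat_lit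 0x16000c) (nat_lit 0) (p (nat_lit 0x50612) (nat_lit 0) (p (nat_lit 0x38592) (nat_lit 0) (p (nat_lit 0x40492) (nat_lit 0) (p (nat_lit 0x28412) (nat_lit 0) (p (nat_lit 0x30292) (nat_lit 0) (p (nat_lit 0x18212) (nat_lit 0) (p (nat_lit 0x20092) (nat_lit 0) (p (nat_lit 0x8012) (nat_lit 0) pn)))))))))))))))))))))))))) :=
  Cl.node (nat_lit 0x109) (nat_lit 2) (by decide +kernel) (ClAll.succ (ClAll.succ ClAll.zero s15) n5)

def n23 : Cl (O (nat_lit 5)) (R (nat_lit 104577))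
    (p (nat_lit 0xc1) (nat_lit 0) (p (nat_lit 0x81) (nat_lit 1) (p (nat_lit 0x101) (nat_lit 1) (p (nat_lit 0x111) (nat_lit 0) (p (nat_lit 0xd1) (nat_lit 1) (p (nat_lit 0x89) (nat_lit 0) (p (nat_lit 0x41) (nat_lit 0) (p (nat_lit 0x10a090b098a9a) (nat_lit 0) (p (nat_lit 0x9888a890a1a) (nat_lit 0) (p (nat_lit 0x109080a08879a) (nat_lit 0) (p (nat_lit 0x8878988071a) (nat_lit 0) (p (nat_lit 0x8000000000800080907888a) (nat_lit 0) (p (nat_lit 0x8000000000800078887060a) (nat_lit 0) (p (nat_lit 0x10608068782) (nat_lit 0) (p (nat_lit 0x587860702) (nat_lit 0) (p (nat_lit 0x10507058482) (nat_lit 0) (p (nat_lit 0x486850402) (nat_lit 0) (p (nat_lit 0x16000c) (nat_lit 0) (p (nat_lit 0x50612) (nat_lit 0) (p (nat_lit 0x38592) (nat_lit 0) (p (nat_lit 0x40492) (nat_lit 0) (p (nat_lit 0x28412) (nat_lit 0) (p (nat_lit 0x30292) (nat_lit 0) (p (nat_lit 0x18212) (nat_lit 0) (p (nat_lit 0x20092) (nat_lit 0) (p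 (nat_lit 0x8012) (nat_lit 0) pn)))))))))))))))))))))))))) :=
  Cl.node (nat_lit 0x200004) (nat_lit 2) (by decide +kernel) (ClAll.succ (ClAll.succ ClAll.zero s25) s26)

def n24 : Cl (O (nat_lit 5)) (R (nat_lit 104577))
    (p (nat_lit 0x111) (nat_lit 1) (p (nat_lit 0x109) (nat_lit 0) (p (nat_lit 0x101) (nat_lit 0) (p (nat_lit 0x119) (nat_lit 0) (p (nat_lit 0xc9) (nat_lit 0) (p (nat_lit 0x89) (nat_lit 1) (p (nat_lit 0x41) (nat_lit 0) (p (nat_lit 0x10a090b098a9a) (nat_lit 0) (p (nat_lit 0x9888a890a1a) (nat_lit 0) (p (nat_lit 0x109080a08879a) (nat_lit 0) (p (nat_lit 0x8878988071a) (nat_lit 0) (p (nat_lit 0x8000000000800080907888a) (nat_lit 0) (p (nat_lit 0x8000000000800078887060a) (nat_lit 0) (p (nat_lit 0x10608068782) (nat_lit 0) (p (nat_lit 0x587860702) (nat_lit 0) (p (nat_lit 0x10507058482) (nat_lit 0) (p (nat_lit 0x486850402) (nat_lit 0) (p (nat_lit 0x16000c) (nat_lit 0) (p (nat_lit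 0x50612) (nat_lit 0) (p (nat_lit 0x38592) (nat_lit 0) (p (nat_lit 0x40492) (nat_lit 0) (p (nat_lit 0x28412) (nat_lit 0) (p (nat_lit 0x30292) (nat_lit 0) (p (nat_lit 0x18212) (nat_lit 0) (p (nat_lit 0x20092) (nat_lit 0) (p (nat_lit 0x8012) (nat_lit 0) pn)))))))))))))))))))))))))) :=
  Cl.node (nat_lit 0xd1) (nat_lit 2) (by decide +kernel) (ClAll.succ (ClAll.succ ClAll.zero s33) n6)

def n25 : Cl (O (nat_lit 5)) (R (nat_lit 104577))
    (p (nat_lit 0xd1) (nat_lit 0) (p (nat_lit 0x109) (nat_lit 1) (p (nat_lit 0x101) (nat_lit 0) (p (nat_lit 0x119) (nat_lit 0) (p (nat_lit 0xc9) (nat_lit 0) (p (nat_lit 0x89) (nat_lit 1) (p (nat_lit 0x41) (nat_lit 0) (p (nat_lit 0x10a090b098a9a) (nat_lit 0) (p (nat_lit 0x9888a890a1a) (nat_lit 0) (p (nat_lit 0x109080a08879a) (nat_lit 0) (p (nat_lit 0x8878988071a) (nat_lit 0) (p (nat_lit 0x8000000000800080907888a) (nat_lit 0) (p (nat_lit 0x8000000000800078887060a)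 (nat_lit 0) (p (nat_lit 0x10608068782) (nat_lit 0) (p (nat_lit 0x587860702) (nat_lit 0) (p (nat_lit 0x10507058482) (nat_lit 0) (p (nat_lit 0x486850402) (nat_lit 0) (p (nat_lit 0x16000c) (nat_lit 0) (p (nat_lit 0x50612) (nat_lit 0) (p (nat_lit 0x38592) (nat_lit 0) (p (nat_lit 0x40492) (nat_lit 0) (p (nat_lit 0x28412) (nat_lit 0) (p (nat_lit 0x30292) (nat_lit 0) (p (nat_lit 0x18212) (nat_lit 0) (p (nat_lit 0x20092) (nat_lit 0) (p (nat_lit 0x8012) (nat_lit 0) pn)))))))))))))))))))))))))) :=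
  Cl.node (nat_lit 0x200004) (nat_lit 2) (by decide +kernel) (ClAll.succ (ClAll.succ ClAll.zero s36) s37)

def n26 : Cl (O (nat_lit 5)) (R (nat_lit 104577))
    (p (nat_lit 0xd1) (nat_lit 1) (p (nat_lit 0x109) (nat_lit 1) (p (nat_lit 0x101) (nat_lit 0) (p (nat_lit 0x119) (nat_lit 0) (p (nat_lit 0xc9) (nat_lit 0) (p (nat_lit 0x89) (nat_lit 1) (p (nat_lit 0x41) (nat_lit 0) (p (nat_lit 0x10a090b098a9a) (nat_lit 0) (p (nat_lit 0x9888a890a1a) (nat_lit 0) (p (nat_lit 0x109080a08879a) (nat_lit 0) (p (nat_lit 0x8878988071a) (nat_lit 0) (p (nat_lit 0x8000000000800080907888a) (nat_lit 0) (p (nat_lit 0x8000000000800078887060a) (nat_lit 0) (p (nat_lit 0x10608068782) (nat_lit 0) (p (nat_lit 0x587860702) (nat_lit 0) (p (nat_lit 0x10507058482) (nat_lit 0) (p (nat_lit 0x486850402) (nat_lit 0) (p (nat_lit 0x16000c) (nat_lit 0) (p (nat_lit 0x50612) (nat_lit 0) (p (nat_lit 0x38592) (nat_lit 0) (p (nat_lit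 0x40492) (nat_lit 0) (p (nat_lit 0x28412) (nat_lit 0) (p (nat_lit 0x30292) (nat_lit 0) (p (nat_lit 0x18212) (nat_lit 0) (p (nat_lit 0x20092) (nat_lit 0) (p (nat_lit 0x8012) (nat_lit 0) pn)))))))))))))))))))))))))) :=
  Cl.node (nat_lit 0x200004) (nat_lit 2) (by decide +kernel) (ClAll.succ (ClAll.succ ClAll.zero n7) n8)

def n27 : Cl (O (nat_lit 5)) (R (nat_lit 104577))
    (p (nat_lit 0xd1) (nat_lit 0) (p (nat_lit 0xc1) (nat_lit 0) (p (nat_lit 0x101) (nat_lit 1) (p (nat_lit 0x119) (nat_lit 0) (p (nat_lit 0xc9) (nat_lit 0) (p (nat_lit 0x89) (nat_lit 1) (p (nat_lit 0x41) (nat_lit 0) (p (nat_lit 0x10a090b098a9a) (nat_lit 0) (p (nat_lit 0x9888a890a1a) (nat_lit 0) (p (nat_lit 0x109080a08879a) (nat_lit 0) (p (nat_lit 0x8878988071a) (nat_lit 0) (p (nat_lit 0x8000000000800080907888a) (nat_lit 0) (p (nat_lit 0x8000000000800078887060a) (nat_lit 0) (p (nat_lit 0x10608068782) (nat_lit 0) (p (nat_lit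 0x587860702) (nat_lit 0) (p (nat_lit 0x10507058482) (nat_lit 0) (p (nat_lit 0x486850402) (nat_lit 0) (p (nat_lit 0x16000c) (nat_lit 0) (p (nat_lit 0x50612) (nat_lit 0) (p (nat_lit 0x38592) (nat_lit 0) (p (nat_lit 0x40492) (nat_lit 0) (p (nat_lit 0x28412) (nat_lit 0) (p (nat_lit 0x30292) (nat_lit 0) (p (nat_lit 0x18212) (nat_lit 0) (p (nat_lit 0x20092) (nat_lit 0) (p (nat_lit 0x8012) (nat_lit 0) pn)))))))))))))))))))))))))) :=
  Cl.node (nat_lit 0x200004) (nat_lit 2) (by decide +kernel) (ClAll.succ (ClAll.succ ClAll.zero n9) s45)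

def n28 : Cl (O (nat_lit 5)) (R (nat_lit 104577))
    (p (nat_lit 0xd1) (nat_lit 1) (p (nat_lit 0xc1) (nat_lit 0) (p (nat_lit 0x101) (nat_lit 1) (p (nat_lit 0x119) (nat_lit 0) (p (nat_lit 0xc9) (nat_lit 0) (p (nat_lit 0x89) (nat_lit 1) (p (nat_lit 0x41) (nat_lit 0) (p (nat_lit 0x10a090b098a9a) (nat_lit 0) (p (nat_lit 0x9888a890a1a) (nat_lit 0) (p (nat_lit 0x109080a08879a) (nat_lit 0) (p (nat_lit 0x8878988071a) (nat_lit 0) (p (nat_lit 0x8000000000800080907888a) (nat_lit 0) (p (nat_lit 0x8000000000800078887060a) (nat_lit 0) (p (nat_lit 0x10608068782) (nat_lit 0) (p (nat_lit 0x587860702) (nat_lit 0) (p (nat_lit 0x10507058482) (nat_lit 0) (p (nat_lit 0x486850402) (nat_lit 0) (p (nat_lit 0x16000c) (nat_lit 0) (p (nat_lit 0x50612) (nat_lit 0) (p (nat_lit 0x38592) (nat_lit 0) (p (nat_lit 0x40492) (nat_lit 0) (p (nat_lit 0x28412) (nat_lit 0) (p (nat_lit 0x30292) (nat_lit 0) (p (nat_lit 0x18212)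 (nat_lit 0) (p (nat_lit 0x20092) (nat_lit 0) (p (nat_lit 0x8012) (nat_lit 0) pn)))))))))))))))))))))))))) :=
  Cl.node (nat_lit 0x200004) (nat_lit 2) (by decide +kernel) (ClAll.succ (ClAll.succ ClAll.zero s46) s47)

def n29 : Cl (O (nat_lit 5)) (R (nat_lit 104577))
    (p (nat_lit 0x111) (nat_lit 1) (p (nat_lit 0xd1) (nat_lit 1) (p (nat_lit 0xc1) (nat_lit 0) (p (nat_lit 0x119) (nat_lit 1) (p (nat_lit 0xc9) (nat_lit 0) (p (nat_lit 0x89) (nat_lit 1) (p (nat_lit 0x41) (nat_lit 0) (p (nat_lit 0x10a090b098a9a) (nat_lit 0) (p (nat_lit 0x9888a890a1a) (nat_lit 0) (p (nat_lit 0x109080a08879a) (nat_lit 0) (p (nat_lit 0x8878988071a) (nat_lit 0) (p (nat_lit 0x8000000000800080907888a) (nat_lit 0) (p (nat_lit 0x8000000000800078887060a) (nat_lit 0) (p (nat_lit 0x10608068782) (nat_lit 0) (p (nat_lit 0x587860702) (nat_lit 0) (p (nat_lit 0x10507058482) (nat_lit 0) (p (nat_lit 0x486850402) (nat_lit 0)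 (p (nat_lit 0x16000c) (nat_lit 0) (p (nat_lit 0x50612) (nat_lit 0) (p (nat_lit 0x38592) (nat_lit 0) (p (nat_lit 0x40492) (nat_lit 0) (p (nat_lit 0x28412) (nat_lit 0) (p (nat_lit 0x30292) (nat_lit 0) (p (nat_lit 0x18212) (nat_lit 0) (p (nat_lit 0x20092) (nat_lit 0) (p (nat_lit 0x8012) (nat_lit 0) pn)))))))))))))))))))))))))) :=
  Cl.node (nat_lit 0x200004) (nat_lit 2) (by decide +kernel) (ClAll.succ (ClAll.succ ClAll.zero s51) s52)

def n30 : Cl (O (nat_lit 5)) (R (nat_lit 104577))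
    (p (nat_lit 0x111) (nat_lit 1) (p (nat_lit 0x101) (nat_lit 0) (p (nat_lit 0xc1) (nat_lit 1) (p (nat_lit 0x119) (nat_lit 1) (p (nat_lit 0xc9) (nat_lit 0) (p (nat_lit 0x89) (nat_lit 1) (p (nat_lit 0x41) (nat_lit 0) (p (nat_lit 0x10a090b098a9a) (nat_lit 0) (p (nat_lit 0x9888a890a1a) (nat_lit 0) (p (nat_lit 0x109080a08879a) (nat_lit 0) (p (nat_lit 0x8878988071a) (nat_lit 0) (p (nat_lit 0x8000000000800080907888a) (nat_lit 0) (p (nat_lit 0x8000000000800078887060a) (nat_lit 0) (p (nat_lit 0x10608068782) (nat_lit 0) (p (nat_lit 0x587860702) (nat_lit 0) (p (nat_lit 0x10507058482) (nat_lit 0) (p (nat_lit 0x486850402) (nat_lit 0) (p (nat_lit 0x16000c) (nat_lit 0) (p (nat_lit 0x50612) (nat_lit 0) (p (nat_lit 0x38592) (nat_lit 0) (p (nat_lit 0x40492) (nat_lit 0) (p (nat_lit 0x28412) (nat_lit 0) (p (nat_lit 0x30292) (nat_lit 0) (p (nat_lit 0x18212) (nat_lit 0) (p (nat_lit 0x20092) (nat_lit 0)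 (p (nat_lit 0x8012) (nat_lit 0) pn)))))))))))))))))))))))))) :=
  Cl.node (nat_lit 0x200004) (nat_lit 2) (by decide +kernel) (ClAll.succ (ClAll.succ ClAll.zero n10) s56)

def n31 : Cl (O (nat_lit 5)) (R (nat_lit 104577))
    (p (nat_lit 0x119) (nat_lit 1) (p (nat_lit 0x111) (nat_lit 0) (p (nat_lit 0x101) (nat_lit 0) (p (nat_lit 0x109) (nat_lit 0) (p (nat_lit 0xc9) (nat_lit 1) (p (nat_lit 0x89) (nat_lit 1) (p (nat_lit 0x41) (nat_lit 0) (p (nat_lit 0x10a090b098a9a) (nat_lit 0) (p (nat_lit 0x9888a890a1a) (nat_lit 0) (p (nat_lit 0x109080a08879a) (nat_lit 0) (p (nat_lit 0x8878988071a) (nat_lit 0) (p (nat_lit 0x8000000000800080907888a) (nat_lit 0) (p (nat_lit 0x8000000000800078887060a) (nat_lit 0) (p (nat_lit 0x10608068782) (nat_lit 0) (p (nat_lit 0x587860702) (nat_lit 0) (p (nat_lit 0x10507058482) (nat_lit 0) (p (nat_lit 0x486850402) (nat_lit 0) (p (nat_lit 0x16000c) (nat_lit 0) (p (nat_lit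 0x50612) (nat_lit 0) (p (nat_lit 0x38592) (nat_lit 0) (p (nat_lit 0x40492) (nat_lit 0) (p (nat_lit 0x28412) (nat_lit 0) (p (nat_lit 0x30292) (nat_lit 0) (p (nat_lit 0x18212) (nat_lit 0) (p (nat_lit 0x20092) (nat_lit 0) (p (nat_lit 0x8012) (nat_lit 0) pn)))))))))))))))))))))))))) :=
  Cl.node (nat_lit 0x200004) (nat_lit 2) (by decide +kernel) (ClAll.succ (ClAll.succ ClAll.zero s59) s60)

def n32 : Cl (O (nat_lit 5)) (R (nat_lit 104577))
    (p (nat_lit 0x89) (nat_lit 1) (p (nat_lit 0xc1) (nat_lit 0) (p (nat_lit 0x101) (nat_lit 1) (p (nat_lit 0x119) (nat_lit 0) (p (nat_lit 0xd1) (nat_lit 0) (p (nat_lit 0x81) (nat_lit 0) (p (nat_lit 0x41) (nat_lit 1) (p (nat_lit 0x10a090b098a9a) (nat_lit 0) (p (nat_lit 0x9888a890a1a) (nat_lit 0) (p (nat_lit 0x109080a08879a) (nat_lit 0) (p (nat_lit 0x8878988071a) (nat_lit 0) (p (nat_lit 0x8000000000800080907888a) (nat_lit 0) (p (nat_lit 0x8000000000800078887060a)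 (nat_lit 0) (p (nat_lit 0x10608068782) (nat_lit 0) (p (nat_lit 0x587860702) (nat_lit 0) (p (nat_lit 0x10507058482) (nat_lit 0) (p (nat_lit 0x486850402) (nat_lit 0) (p (nat_lit 0x16000c) (nat_lit 0) (p (nat_lit 0x50612) (nat_lit 0) (p (nat_lit 0x38592) (nat_lit 0) (p (nat_lit 0x40492) (nat_lit 0) (p (nat_lit 0x28412) (nat_lit 0) (p (nat_lit 0x30292) (nat_lit 0) (p (nat_lit 0x18212) (nat_lit 0) (p (nat_lit 0x20092) (nat_lit 0) (p (nat_lit 0x8012) (nat_lit 0) pn)))))))))))))))))))))))))) :=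
  Cl.node (nat_lit 0xc9) (nat_lit 2) (by decide +kernel) (ClAll.succ (ClAll.succ ClAll.zero s69) s70)

def n33 : Cl (O (nat_lit 5)) (R (nat_lit 104577))
    (p (nat_lit 0x89) (nat_lit 1) (p (nat_lit 0xc1) (nat_lit 1) (p (nat_lit 0x101) (nat_lit 1) (p (nat_lit 0x119) (nat_lit 0) (p (nat_lit 0xd1) (nat_lit 0) (p (nat_lit 0x81) (nat_lit 0) (p (nat_lit 0x41) (nat_lit 1) (p (nat_lit 0x10a090b098a9a) (nat_lit 0) (p (nat_lit 0x9888a890a1a) (nat_lit 0) (p (nat_lit 0x109080a08879a) (nat_lit 0) (p (nat_lit 0x8878988071a) (nat_lit 0) (p (nat_lit 0x8000000000800080907888a) (nat_lit 0) (p (nat_lit 0x8000000000800078887060a) (nat_lit 0) (p (nat_lit 0x10608068782) (nat_lit 0) (p (nat_lit 0x587860702) (nat_lit 0) (p (nat_lit 0x10507058482) (nat_lit 0) (p (nat_lit 0x486850402) (nat_lit 0) (p (nat_lit 0x16000c) (nat_lit 0) (p (nat_lit 0x50612) (nat_lit 0) (p (nat_lit 0x38592) (nat_lit 0) (p (nat_lit 0x40492)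 (nat_lit 0) (p (nat_lit 0x28412) (nat_lit 0) (p (nat_lit 0x30292) (nat_lit 0) (p (nat_lit 0x18212) (nat_lit 0) (p (nat_lit 0x20092) (nat_lit 0) (p (nat_lit 0x8012) (nat_lit 0) pn)))))))))))))))))))))))))) :=
  Cl.node (nat_lit 0x200004) (nat_lit 2) (by decide +kernel) (ClAll.succ (ClAll.succ ClAll.zero n11) n12)

def n34 : Cl (O (nat_lit 5)) (R (nat_lit 104577))
    (p (nat_lit 0x89) (nat_lit 1) (p (nat_lit 0xc9) (nat_lit 1) (p (nat_lit 0xc1) (nat_lit 0) (p (nat_lit 0x119) (nat_lit 1) (p (nat_lit 0xd1) (nat_lit 0) (p (nat_lit 0x81) (nat_lit 0) (p (nat_lit 0x41) (nat_lit 1) (p (nat_lit 0x10a090b098a9a) (nat_lit 0) (p (nat_lit 0x9888a890a1a) (nat_lit 0) (p (nat_lit 0x109080a08879a) (nat_lit 0) (p (nat_lit 0x8878988071a) (nat_lit 0) (p (nat_lit 0x8000000000800080907888a) (nat_lit 0) (p (nat_lit 0x8000000000800078887060a) (nat_lit 0) (p (nat_lit 0x10608068782) (nat_lit 0) (p (nat_lit 0x587860702)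 (nat_lit 0) (p (nat_lit 0x10507058482) (nat_lit 0) (p (nat_lit 0x486850402) (nat_lit 0) (p (nat_lit 0x16000c) (nat_lit 0) (p (nat_lit 0x50612) (nat_lit 0) (p (nat_lit 0x38592) (nat_lit 0) (p (nat_lit 0x40492) (nat_lit 0) (p (nat_lit 0x28412) (nat_lit 0) (p (nat_lit 0x30292) (nat_lit 0) (p (nat_lit 0x18212) (nat_lit 0) (p (nat_lit 0x20092) (nat_lit 0) (p (nat_lit 0x8012) (nat_lit 0) pn)))))))))))))))))))))))))) :=
  Cl.node (nat_lit 0x109) (nat_lit 2) (by decide +kernel) (ClAll.succ (ClAll.succ ClAll.zero s79) n13)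

def n35 : Cl (O (nat_lit 5)) (R (nat_lit 104577))
    (p (nat_lit 0x89) (nat_lit 1) (p (nat_lit 0x101) (nat_lit 0) (p (nat_lit 0xc1) (nat_lit 1) (p (nat_lit 0x119) (nat_lit 1) (p (nat_lit 0xd1) (nat_lit 0) (p (nat_lit 0x81) (nat_lit 0) (p (nat_lit 0x41) (nat_lit 1) (p (nat_lit 0x10a090b098a9a) (nat_lit 0) (p (nat_lit 0x9888a890a1a) (nat_lit 0) (p (nat_lit 0x109080a08879a) (nat_lit 0) (p (nat_lit 0x8878988071a) (nat_lit 0) (p (nat_lit 0x8000000000800080907888a) (nat_lit 0) (p (nat_lit 0x8000000000800078887060a) (nat_lit 0) (p (nat_lit 0x10608068782) (nat_lit 0) (p (nat_lit 0x587860702) (nat_lit 0) (p (nat_lit 0x10507058482) (nat_lit 0) (p (nat_lit 0x486850402) (nat_lit 0) (p (nat_lit 0x16000c) (nat_lit 0) (p (nat_lit 0x50612) (nat_lit 0) (p (nat_lit 0x38592) (nat_lit 0) (p (nat_lit 0x40492) (nat_lit 0) (p (nat_lit 0x28412) (nat_lit 0) (p (nat_lit 0x30292) (nat_lit 0) (p (nat_lit 0x18212)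 (nat_lit 0) (p (nat_lit 0x20092) (nat_lit 0) (p (nat_lit 0x8012) (nat_lit 0) pn)))))))))))))))))))))))))) :=
  Cl.node (nat_lit 0x109) (nat_lit 2) (by decide +kernel) (ClAll.succ (ClAll.succ ClAll.zero s83) s84)

def n36 : Cl (O (nat_lit 5)) (R (nat_lit 104577))
    (p (nat_lit 0x89) (nat_lit 1) (p (nat_lit 0x101) (nat_lit 1) (p (nat_lit 0xc1) (nat_lit 1) (p (nat_lit 0x119) (nat_lit 1) (p (nat_lit 0xd1) (nat_lit 0) (p (nat_lit 0x81) (nat_lit 0) (p (nat_lit 0x41) (nat_lit 1) (p (nat_lit 0x10a090b098a9a) (nat_lit 0) (p (nat_lit 0x9888a890a1a) (nat_lit 0) (p (nat_lit 0x109080a08879a) (nat_lit 0) (p (nat_lit 0x8878988071a) (nat_lit 0) (p (nat_lit 0x8000000000800080907888a) (nat_lit 0) (p (nat_lit 0x8000000000800078887060a) (nat_lit 0) (p (nat_lit 0x10608068782) (nat_lit 0) (p (nat_lit 0x587860702) (nat_lit 0) (p (nat_lit 0x10507058482) (nat_lit 0) (p (nat_lit 0x486850402) (nat_lit 0) (p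 (nat_lit 0x16000c) (nat_lit 0) (p (nat_lit 0x50612) (nat_lit 0) (p (nat_lit 0x38592) (nat_lit 0) (p (nat_lit 0x40492) (nat_lit 0) (p (nat_lit 0x28412) (nat_lit 0) (p (nat_lit 0x30292) (nat_lit 0) (p (nat_lit 0x18212) (nat_lit 0) (p (nat_lit 0x20092) (nat_lit 0) (p (nat_lit 0x8012) (nat_lit 0) pn)))))))))))))))))))))))))) :=
  Cl.node (nat_lit 0x200004) (nat_lit 2) (by decide +kernel) (ClAll.succ (ClAll.succ ClAll.zero s86) s87)

def n37 : Cl (O (nat_lit 5)) (R (nat_lit 104577))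
    (p (nat_lit 0x89) (nat_lit 1) (p (nat_lit 0x109) (nat_lit 1) (p (nat_lit 0x101) (nat_lit 0) (p (nat_lit 0x111) (nat_lit 0) (p (nat_lit 0xd1) (nat_lit 1) (p (nat_lit 0x81) (nat_lit 0) (p (nat_lit 0x41) (nat_lit 1) (p (nat_lit 0x10a090b098a9a) (nat_lit 0) (p (nat_lit 0x9888a890a1a) (nat_lit 0) (p (nat_lit 0x109080a08879a) (nat_lit 0) (p (nat_lit 0x8878988071a) (nat_lit 0) (p (nat_lit 0x8000000000800080907888a) (nat_lit 0) (p (nat_lit 0x8000000000800078887060a) (nat_lit 0) (p (nat_lit 0x10608068782) (nat_lit 0) (p (nat_lit 0x587860702) (nat_lit 0) (p (nat_lit 0x10507058482) (nat_lit 0) (p (nat_lit 0x486850402) (nat_lit 0) (p (nat_lit 0x16000c) (nat_lit 0) (p (nat_lit 0x50612) (nat_lit 0) (p (nat_lit 0x38592) (nat_lit 0) (p (nat_lit 0x40492) (nat_lit 0) (p (nat_lit 0x28412) (nat_lit 0) (p (nat_lit 0x30292) (nat_lit 0) (p (nat_lit 0x18212) (nat_lit 0) (p (nat_lit 0x20092) (nat_lit 0)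 (p (nat_lit 0x8012) (nat_lit 0) pn)))))))))))))))))))))))))) :=
  Cl.node (nat_lit 0xc9) (nat_lit 2) (by decide +kernel) (ClAll.succ (ClAll.succ ClAll.zero s90) s91)

def n38 : Cl (O (nat_lit 5)) (R (nat_lit 104577))
    (p (nat_lit 0xc9) (nat_lit 0) (p (nat_lit 0x89) (nat_lit 1) (p (nat_lit 0x101) (nat_lit 1) (p (nat_lit 0x111) (nat_lit 0) (p (nat_lit 0xd1) (nat_lit 1) (p (nat_lit 0x81) (nat_lit 0) (p (nat_lit 0x41) (nat_lit 1) (p (nat_lit 0x10a090b098a9a) (nat_lit 0) (p (nat_lit 0x9888a890a1a) (nat_lit 0) (p (nat_lit 0x109080a08879a) (nat_lit 0) (p (nat_lit 0x8878988071a) (nat_lit 0) (p (nat_lit 0x8000000000800080907888a) (nat_lit 0) (p (nat_lit 0x8000000000800078887060a) (nat_lit 0) (p (nat_lit 0x10608068782) (nat_lit 0) (p (nat_lit 0x587860702) (nat_lit 0) (p (nat_lit 0x10507058482) (nat_lit 0) (p (nat_lit 0x486850402) (nat_lit 0) (p (nat_lit 0x16000c) (nat_lit 0) (p (nat_lit 0x50612)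 (nat_lit 0) (p (nat_lit 0x38592) (nat_lit 0) (p (nat_lit 0x40492) (nat_lit 0) (p (nat_lit 0x28412) (nat_lit 0) (p (nat_lit 0x30292) (nat_lit 0) (p (nat_lit 0x18212) (nat_lit 0) (p (nat_lit 0x20092) (nat_lit 0) (p (nat_lit 0x8012) (nat_lit 0) pn)))))))))))))))))))))))))) :=
  Cl.node (nat_lit 0x200004) (nat_lit 2) (by decide +kernel) (ClAll.succ (ClAll.succ ClAll.zero s94) n14)

def n39 : Cl (O (nat_lit 5)) (R (nat_lit 104577))
    (p (nat_lit 0xc9) (nat_lit 1) (p (nat_lit 0x89) (nat_lit 1) (p (nat_lit 0x101) (nat_lit 1) (p (nat_lit 0x111) (nat_lit 0) (p (nat_lit 0xd1) (nat_lit 1) (p (nat_lit 0x81) (nat_lit 0) (p (nat_lit 0x41) (nat_lit 1) (p (nat_lit 0x10a090b098a9a) (nat_lit 0) (p (nat_lit 0x9888a890a1a) (nat_lit 0) (p (nat_lit 0x109080a08879a) (nat_lit 0) (p (nat_lit 0x8878988071a) (nat_lit 0) (p (nat_lit 0x8000000000800080907888a) (nat_lit 0) (p (nat_lit 0x8000000000800078887060a)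 (nat_lit 0) (p (nat_lit 0x10608068782) (nat_lit 0) (p (nat_lit 0x587860702) (nat_lit 0) (p (nat_lit 0x10507058482) (nat_lit 0) (p (nat_lit 0x486850402) (nat_lit 0) (p (nat_lit 0x16000c) (nat_lit 0) (p (nat_lit 0x50612) (nat_lit 0) (p (nat_lit 0x38592) (nat_lit 0) (p (nat_lit 0x40492) (nat_lit 0) (p (nat_lit 0x28412) (nat_lit 0) (p (nat_lit 0x30292) (nat_lit 0) (p (nat_lit 0x18212) (nat_lit 0) (p (nat_lit 0x20092) (nat_lit 0) (p (nat_lit 0x8012) (nat_lit 0) pn)))))))))))))))))))))))))) :=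
  Cl.node (nat_lit 0x200004) (nat_lit 2) (by decide +kernel) (ClAll.succ (ClAll.succ ClAll.zero s98) s99)

def n40 : Cl (O (nat_lit 5)) (R (nat_lit 104577))
    (p (nat_lit 0x111) (nat_lit 1) (p (nat_lit 0x109) (nat_lit 0) (p (nat_lit 0x101) (nat_lit 0) (p (nat_lit 0x119) (nat_lit 0) (p (nat_lit 0xc1) (nat_lit 0) (p (nat_lit 0x81) (nat_lit 1) (p (nat_lit 0x41) (nat_lit 1) (p (nat_lit 0x10a090b098a9a) (nat_lit 0) (p (nat_lit 0x9888a890a1a) (nat_lit 0) (p (nat_lit 0x109080a08879a) (nat_lit 0) (p (nat_lit 0x8878988071a) (nat_lit 0) (p (nat_lit 0x8000000000800080907888a) (nat_lit 0) (p (nat_lit 0x8000000000800078887060a) (nat_lit 0) (p (nat_lit 0x10608068782) (nat_lit 0) (p (nat_lit 0x587860702) (nat_lit 0) (p (nat_lit 0x10507058482) (nat_lit 0) (p (nat_lit 0x486850402) (nat_lit 0) (p (nat_lit 0x16000c) (nat_lit 0) (p (nat_lit 0x50612) (nat_lit 0) (p (nat_lit 0x38592) (nat_lit 0) (p (nat_lit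 0x40492) (nat_lit 0) (p (nat_lit 0x28412) (nat_lit 0) (p (nat_lit 0x30292) (nat_lit 0) (p (nat_lit 0x18212) (nat_lit 0) (p (nat_lit 0x20092) (nat_lit 0) (p (nat_lit 0x8012) (nat_lit 0) pn)))))))))))))))))))))))))) :=
  Cl.node (nat_lit 0xd1) (nat_lit 2) (by decide +kernel) (ClAll.succ (ClAll.succ ClAll.zero s105) n15)

def n41 : Cl (O (nat_lit 5)) (R (nat_lit 104577))
    (p (nat_lit 0xc9) (nat_lit 0) (p (nat_lit 0x109) (nat_lit 1) (p (nat_lit 0x101) (nat_lit 0) (p (nat_lit 0x119) (nat_lit 0) (p (nat_lit 0xc1) (nat_lit 0) (p (nat_lit 0x81) (nat_lit 1) (p (nat_lit 0x41) (nat_lit 1) (p (nat_lit 0x10a090b098a9a) (nat_lit 0) (p (nat_lit 0x9888a890a1a) (nat_lit 0) (p (nat_lit 0x109080a08879a) (nat_lit 0) (p (nat_lit 0x8878988071a) (nat_lit 0) (p (nat_lit 0x8000000000800080907888a) (nat_lit 0) (p (nat_lit 0x8000000000800078887060a) (nat_lit 0) (p (nat_lit 0x10608068782) (nat_lit 0) (p (nat_lit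 0x587860702) (nat_lit 0) (p (nat_lit 0x10507058482) (nat_lit 0) (p (nat_lit 0x486850402) (nat_lit 0) (p (nat_lit 0x16000c) (nat_lit 0) (p (nat_lit 0x50612) (nat_lit 0) (p (nat_lit 0x38592) (nat_lit 0) (p (nat_lit 0x40492) (nat_lit 0) (p (nat_lit 0x28412) (nat_lit 0) (p (nat_lit 0x30292) (nat_lit 0) (p (nat_lit 0x18212) (nat_lit 0) (p (nat_lit 0x20092) (nat_lit 0) (p (nat_lit 0x8012) (nat_lit 0) pn)))))))))))))))))))))))))) :=
  Cl.node (nat_lit 0xd1) (nat_lit 2) (by decide +kernel) (ClAll.succ (ClAll.succ ClAll.zero s108) n16)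

def n42 : Cl (O (nat_lit 5)) (R (nat_lit 104577))
    (p (nat_lit 0xd1) (nat_lit 0) (p (nat_lit 0xc9) (nat_lit 0) (p (nat_lit 0x101) (nat_lit 1) (p (nat_lit 0x119) (nat_lit 0) (p (nat_lit 0xc1) (nat_lit 0) (p (nat_lit 0x81) (nat_lit 1) (p (nat_lit 0x41) (nat_lit 1) (p (nat_lit 0x10a090b098a9a) (nat_lit 0) (p (nat_lit 0x9888a890a1a) (nat_lit 0) (p (nat_lit 0x109080a08879a) (nat_lit 0) (p (nat_lit 0x8878988071a) (nat_lit 0) (p (nat_lit 0x8000000000800080907888a) (nat_lit 0) (p (nat_lit 0x8000000000800078887060a) (nat_lit 0) (p (nat_lit 0x10608068782) (nat_lit 0) (p (nat_lit 0x587860702) (nat_lit 0) (p (nat_lit 0x10507058482) (nat_lit 0) (p (nat_lit 0x486850402) (nat_lit 0) (p (nat_lit 0x16000c) (nat_lit 0) (p (nat_lit 0x50612) (nat_lit 0) (p (nat_lit 0x38592) (nat_lit 0) (p (nat_lit 0x40492) (nat_lit 0) (p (nat_lit 0x28412) (nat_lit 0) (p (nat_lit 0x30292) (nat_lit 0) (p (nat_lit 0x18212)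 (nat_lit 0) (p (nat_lit 0x20092) (nat_lit 0) (p (nat_lit 0x8012) (nat_lit 0) pn)))))))))))))))))))))))))) :=
  Cl.node (nat_lit 0x200004) (nat_lit 2) (by decide +kernel) (ClAll.succ (ClAll.succ ClAll.zero s112) s113)

def n43 : Cl (O (nat_lit 5)) (R (nat_lit 104577))
    (p (nat_lit 0xd1) (nat_lit 1) (p (nat_lit 0xc9) (nat_lit 0) (p (nat_lit 0x101) (nat_lit 1) (p (nat_lit 0x119) (nat_lit 0) (p (nat_lit 0xc1) (nat_lit 0) (p (nat_lit 0x81) (nat_lit 1) (p (nat_lit 0x41) (nat_lit 1) (p (nat_lit 0x10a090b098a9a) (nat_lit 0) (p (nat_lit 0x9888a890a1a) (nat_lit 0) (p (nat_lit 0x109080a08879a) (nat_lit 0) (p (nat_lit 0x8878988071a) (nat_lit 0) (p (nat_lit 0x8000000000800080907888a) (nat_lit 0) (p (nat_lit 0x8000000000800078887060a) (nat_lit 0) (p (nat_lit 0x10608068782) (nat_lit 0) (p (nat_lit 0x587860702) (nat_lit 0) (p (nat_lit 0x10507058482) (nat_lit 0) (p (nat_lit 0x486850402) (nat_lit 0)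 (p (nat_lit 0x16000c) (nat_lit 0) (p (nat_lit 0x50612) (nat_lit 0) (p (nat_lit 0x38592) (nat_lit 0) (p (nat_lit 0x40492) (nat_lit 0) (p (nat_lit 0x28412) (nat_lit 0) (p (nat_lit 0x30292) (nat_lit 0) (p (nat_lit 0x18212) (nat_lit 0) (p (nat_lit 0x20092) (nat_lit 0) (p (nat_lit 0x8012) (nat_lit 0) pn)))))))))))))))))))))))))) :=
  Cl.node (nat_lit 0x200004) (nat_lit 2) (by decide +kernel) (ClAll.succ (ClAll.succ ClAll.zero n17) s116)

def n44 : Cl (O (nat_lit 5)) (R (nat_lit 104577))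
    (p (nat_lit 0x111) (nat_lit 1) (p (nat_lit 0xd1) (nat_lit 1) (p (nat_lit 0xc9) (nat_lit 0) (p (nat_lit 0x119) (nat_lit 1) (p (nat_lit 0xc1) (nat_lit 0) (p (nat_lit 0x81) (nat_lit 1) (p (nat_lit 0x41) (nat_lit 1) (p (nat_lit 0x10a090b098a9a) (nat_lit 0) (p (nat_lit 0x9888a890a1a) (nat_lit 0) (p (nat_lit 0x109080a08879a) (nat_lit 0) (p (nat_lit 0x8878988071a) (nat_lit 0) (p (nat_lit 0x8000000000800080907888a) (nat_lit 0) (p (nat_lit 0x8000000000800078887060a) (nat_lit 0) (p (nat_lit 0x10608068782) (nat_lit 0) (p (nat_lit 0x587860702) (nat_lit 0) (p (nat_lit 0x10507058482) (nat_lit 0) (p (nat_lit 0x486850402) (nat_lit 0) (p (nat_lit 0x16000c) (nat_lit 0) (p (nat_lit 0x50612) (nat_lit 0) (p (nat_lit 0x38592) (nat_lit 0) (p (nat_lit 0x40492) (nat_lit 0) (p (nat_lit 0x28412) (nat_lit 0) (p (nat_lit 0x30292) (nat_lit 0) (p (nat_lit 0x18212) (nat_lit 0) (p (nat_lit 0x20092) (nat_lit 0) (p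 (nat_lit 0x8012) (nat_lit 0) pn)))))))))))))))))))))))))) :=
  Cl.node (nat_lit 0x200004) (nat_lit 2) (by decide +kernel) (ClAll.succ (ClAll.succ ClAll.zero s121) s122)

def n45 : Cl (O (nat_lit 5)) (R (nat_lit 104577))
    (p (nat_lit 0x111) (nat_lit 0) (p (nat_lit 0x109) (nat_lit 0) (p (nat_lit 0xc9) (nat_lit 1) (p (nat_lit 0x119) (nat_lit 1) (p (nat_lit 0xc1) (nat_lit 0) (p (nat_lit 0x81) (nat_lit 1) (p (nat_lit 0x41) (nat_lit 1) (p (nat_lit 0x10a090b098a9a) (nat_lit 0) (p (nat_lit 0x9888a890a1a) (nat_lit 0) (p (nat_lit 0x109080a08879a) (nat_lit 0) (p (nat_lit 0x8878988071a) (nat_lit 0) (p (nat_lit 0x8000000000800080907888a) (nat_lit 0) (p (nat_lit 0x8000000000800078887060a) (nat_lit 0) (p (nat_lit 0x10608068782) (nat_lit 0) (p (nat_lit 0x587860702) (nat_lit 0) (p (nat_lit 0x10507058482) (nat_lit 0) (p (nat_lit 0x486850402) (nat_lit 0) (p (nat_lit 0x16000c) (nat_lit 0) (p (nat_lit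 0x50612) (nat_lit 0) (p (nat_lit 0x38592) (nat_lit 0) (p (nat_lit 0x40492) (nat_lit 0) (p (nat_lit 0x28412) (nat_lit 0) (p (nat_lit 0x30292) (nat_lit 0) (p (nat_lit 0x18212) (nat_lit 0) (p (nat_lit 0x20092) (nat_lit 0) (p (nat_lit 0x8012) (nat_lit 0) pn)))))))))))))))))))))))))) :=
  Cl.node (nat_lit 0x200004) (nat_lit 2) (by decide +kernel) (ClAll.succ (ClAll.succ ClAll.zero s123) s124)

def n46 : Cl (O (nat_lit 5)) (R (nat_lit 104577))
    (p (nat_lit 0x111) (nat_lit 1) (p (nat_lit 0x109) (nat_lit 0) (p (nat_lit 0xc9) (nat_lit 1) (p (nat_lit 0x119) (nat_lit 1) (p (nat_lit 0xc1) (nat_lit 0) (p (nat_lit 0x81) (nat_lit 1) (p (nat_lit 0x41) (nat_lit 1) (p (nat_lit 0x10a090b098a9a) (nat_lit 0) (p (nat_lit 0x9888a890a1a) (nat_lit 0) (p (nat_lit 0x109080a08879a) (nat_lit 0) (p (nat_lit 0x8878988071a) (nat_lit 0) (p (nat_lit 0x8000000000800080907888a) (nat_lit 0) (p (nat_lit 0x8000000000800078887060a)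 (nat_lit 0) (p (nat_lit 0x10608068782) (nat_lit 0) (p (nat_lit 0x587860702) (nat_lit 0) (p (nat_lit 0x10507058482) (nat_lit 0) (p (nat_lit 0x486850402) (nat_lit 0) (p (nat_lit 0x16000c) (nat_lit 0) (p (nat_lit 0x50612) (nat_lit 0) (p (nat_lit 0x38592) (nat_lit 0) (p (nat_lit 0x40492) (nat_lit 0) (p (nat_lit 0x28412) (nat_lit 0) (p (nat_lit 0x30292) (nat_lit 0) (p (nat_lit 0x18212) (nat_lit 0) (p (nat_lit 0x20092) (nat_lit 0) (p (nat_lit 0x8012) (nat_lit 0) pn)))))))))))))))))))))))))) :=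
  Cl.node (nat_lit 0x200004) (nat_lit 2) (by decide +kernel) (ClAll.succ (ClAll.succ ClAll.zero n18) s127)

def n47 : Cl (O (nat_lit 5)) (R (nat_lit 104577))
    (p (nat_lit 0x119) (nat_lit 1) (p (nat_lit 0x111) (nat_lit 0) (p (nat_lit 0x109) (nat_lit 0) (p (nat_lit 0x101) (nat_lit 0) (p (nat_lit 0xc1) (nat_lit 1) (p (nat_lit 0x81) (nat_lit 1) (p (nat_lit 0x41) (nat_lit 1) (p (nat_lit 0x10a090b098a9a) (nat_lit 0) (p (nat_lit 0x9888a890a1a) (nat_lit 0) (p (nat_lit 0x109080a08879a) (nat_lit 0) (p (nat_lit 0x8878988071a) (nat_lit 0) (p (nat_lit 0x8000000000800080907888a) (nat_lit 0) (p (nat_lit 0x8000000000800078887060a) (nat_lit 0) (p (nat_lit 0x10608068782) (nat_lit 0) (p (nat_lit 0x587860702) (nat_lit 0) (p (nat_lit 0x10507058482) (nat_lit 0) (p (nat_lit 0x486850402) (nat_lit 0) (p (nat_lit 0x16000c) (nat_lit 0) (p (nat_lit 0x50612) (nat_lit 0) (p (nat_lit 0x38592) (nat_lit 0) (p (nat_lit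 0x40492) (nat_lit 0) (p (nat_lit 0x28412) (nat_lit 0) (p (nat_lit 0x30292) (nat_lit 0) (p (nat_lit 0x18212) (nat_lit 0) (p (nat_lit 0x20092) (nat_lit 0) (p (nat_lit 0x8012) (nat_lit 0) pn)))))))))))))))))))))))))) :=
  Cl.node (nat_lit 0x200004) (nat_lit 2) (by decide +kernel) (ClAll.succ (ClAll.succ ClAll.zero s130) s131)

def n48 : Cl (O (nat_lit 5)) (R (nat_lit 104577))
    (p (nat_lit 0x109) (nat_lit 1) (p (nat_lit 0x101) (nat_lit 0) (p (nat_lit 0x119) (nat_lit 0) (p (nat_lit 0xd1) (nat_lit 0) (p (nat_lit 0x89) (nat_lit 0) (p (nat_lit 0x41) (nat_lit 0) (p (nat_lit 0x10a090b098a9a) (nat_lit 0) (p (nat_lit 0x9888a890a1a) (nat_lit 0) (p (nat_lit 0x109080a08879a) (nat_lit 0) (p (nat_lit 0x8878988071a) (nat_lit 0) (p (nat_lit 0x8000000000800080907888a) (nat_lit 0) (p (nat_lit 0x8000000000800078887060a) (nat_lit 0) (p (nat_lit 0x10608068782) (nat_lit 0) (p (nat_lit 0x587860702) (nat_lit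 0) (p (nat_lit 0x10507058482) (nat_lit 0) (p (nat_lit 0x486850402) (nat_lit 0) (p (nat_lit 0x16000c) (nat_lit 0) (p (nat_lit 0x50612) (nat_lit 0) (p (nat_lit 0x38592) (nat_lit 0) (p (nat_lit 0x40492) (nat_lit 0) (p (nat_lit 0x28412) (nat_lit 0) (p (nat_lit 0x30292) (nat_lit 0) (p (nat_lit 0x18212) (nat_lit 0) (p (nat_lit 0x20092) (nat_lit 0) (p (nat_lit 0x8012) (nat_lit 0) pn))))))))))))))))))))))))) :=
  Cl.node (nat_lit 0xc9) (nat_lit 2) (by decide +kernel) (ClAll.succ (ClAll.succ ClAll.zero s1) n19)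

def n49 : Cl (O (nat_lit 5)) (R (nat_lit 104577))
    (p (nat_lit 0x81) (nat_lit 0) (p (nat_lit 0x101) (nat_lit 1) (p (nat_lit 0x119) (nat_lit 0) (p (nat_lit 0xd1) (nat_lit 0) (p (nat_lit 0x89) (nat_lit 0) (p (nat_lit 0x41) (nat_lit 0) (p (nat_lit 0x10a090b098a9a) (nat_lit 0) (p (nat_lit 0x9888a890a1a) (nat_lit 0) (p (nat_lit 0x109080a08879a) (nat_lit 0) (p (nat_lit 0x8878988071a) (nat_lit 0) (p (nat_lit 0x8000000000800080907888a) (nat_lit 0) (p (nat_lit 0x8000000000800078887060a) (nat_lit 0) (p (nat_lit 0x10608068782) (nat_lit 0) (p (nat_lit 0x587860702) (nat_lit 0) (p (nat_lit 0x10507058482) (nat_lit 0) (p (nat_lit 0x486850402) (nat_lit 0) (p (nat_lit 0x16000c) (nat_lit 0) (p (nat_lit 0x50612) (nat_lit 0) (p (nat_lit 0x38592) (nat_lit 0) (p (nat_lit 0x40492) (nat_lit 0) (p (nat_lit 0x28412) (nat_lit 0) (p (nat_lit 0x30292) (nat_lit 0) (p (nat_lit 0x18212) (nat_lit 0) (p (nat_lit 0x20092)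 (nat_lit 0) (p (nat_lit 0x8012) (nat_lit 0) pn))))))))))))))))))))))))) :=
  Cl.node (nat_lit 0xc9) (nat_lit 2) (by decide +kernel) (ClAll.succ (ClAll.succ ClAll.zero s4) n20)

def n50 : Cl (O (nat_lit 5)) (R (nat_lit 104577))
    (p (nat_lit 0x81) (nat_lit 1) (p (nat_lit 0x101) (nat_lit 1) (p (nat_lit 0x119) (nat_lit 0) (p (nat_lit 0xd1) (nat_lit 0) (p (nat_lit 0x89) (nat_lit 0) (p (nat_lit 0x41) (nat_lit 0) (p (nat_lit 0x10a090b098a9a) (nat_lit 0) (p (nat_lit 0x9888a890a1a) (nat_lit 0) (p (nat_lit 0x109080a08879a) (nat_lit 0) (p (nat_lit 0x8878988071a) (nat_lit 0) (p (nat_lit 0x8000000000800080907888a) (nat_lit 0) (p (nat_lit 0x8000000000800078887060a) (nat_lit 0) (p (nat_lit 0x10608068782) (nat_lit 0) (p (nat_lit 0x587860702) (nat_lit 0) (p (nat_lit 0x10507058482) (nat_lit 0) (p (nat_lit 0x486850402) (nat_lit 0) (p (nat_lit 0x16000c) (nat_lit 0) (p (nat_lit 0x50612) (nat_lit 0) (p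 (nat_lit 0x38592) (nat_lit 0) (p (nat_lit 0x40492) (nat_lit 0) (p (nat_lit 0x28412) (nat_lit 0) (p (nat_lit 0x30292) (nat_lit 0) (p (nat_lit 0x18212) (nat_lit 0) (p (nat_lit 0x20092) (nat_lit 0) (p (nat_lit 0x8012) (nat_lit 0) pn))))))))))))))))))))))))) :=
  Cl.node (nat_lit 0xc1) (nat_lit 2) (by decide +kernel) (ClAll.succ (ClAll.succ ClAll.zero n21) s10)

def n51 : Cl (O (nat_lit 5)) (R (nat_lit 104577))
    (p (nat_lit 0x81) (nat_lit 0) (p (nat_lit 0xc1) (nat_lit 1) (p (nat_lit 0x119) (nat_lit 1) (p (nat_lit 0xd1) (nat_lit 0) (p (nat_lit 0x89) (nat_lit 0) (p (nat_lit 0x41) (nat_lit 0) (p (nat_lit 0x10a090b098a9a) (nat_lit 0) (p (nat_lit 0x9888a890a1a) (nat_lit 0) (p (nat_lit 0x109080a08879a) (nat_lit 0) (p (nat_lit 0x8878988071a) (nat_lit 0) (p (nat_lit 0x8000000000800080907888a) (nat_lit 0) (p (nat_lit 0x8000000000800078887060a) (nat_lit 0) (p (nat_lit 0x10608068782) (nat_lit 0)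 (p (nat_lit 0x587860702) (nat_lit 0) (p (nat_lit 0x10507058482) (nat_lit 0) (p (nat_lit 0x486850402) (nat_lit 0) (p (nat_lit 0x16000c) (nat_lit 0) (p (nat_lit 0x50612) (nat_lit 0) (p (nat_lit 0x38592) (nat_lit 0) (p (nat_lit 0x40492) (nat_lit 0) (p (nat_lit 0x28412) (nat_lit 0) (p (nat_lit 0x30292) (nat_lit 0) (p (nat_lit 0x18212) (nat_lit 0) (p (nat_lit 0x20092) (nat_lit 0) (p (nat_lit 0x8012) (nat_lit 0) pn))))))))))))))))))))))))) :=
  Cl.node (nat_lit 0x109) (nat_lit 2) (by decide +kernel) (ClAll.succ (ClAll.succ ClAll.zero s13) s14)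

def n52 : Cl (O (nat_lit 5)) (R (nat_lit 104577))
    (p (nat_lit 0x81) (nat_lit 1) (p (nat_lit 0xc1) (nat_lit 1) (p (nat_lit 0x119) (nat_lit 1) (p (nat_lit 0xd1) (nat_lit 0) (p (nat_lit 0x89) (nat_lit 0) (p (nat_lit 0x41) (nat_lit 0) (p (nat_lit 0x10a090b098a9a) (nat_lit 0) (p (nat_lit 0x9888a890a1a) (nat_lit 0) (p (nat_lit 0x109080a08879a) (nat_lit 0) (p (nat_lit 0x8878988071a) (nat_lit 0) (p (nat_lit 0x8000000000800080907888a) (nat_lit 0) (p (nat_lit 0x8000000000800078887060a) (nat_lit 0) (p (nat_lit 0x10608068782) (nat_lit 0) (p (nat_lit 0x587860702) (nat_lit 0) (p (nat_lit 0x10507058482) (nat_lit 0) (p (nat_lit 0x486850402) (nat_lit 0) (p (nat_lit 0x16000c) (nat_lit 0) (p (nat_lit 0x50612) (nat_lit 0) (p (nat_lit 0x38592) (nat_lit 0) (p (nat_lit 0x40492) (nat_lit 0) (p (nat_lit 0x28412) (nat_lit 0) (p (nat_lit 0x30292) (nat_lit 0) (p (nat_lit 0x18212) (nat_lit 0) (p (nat_lit 0x20092)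 (nat_lit 0) (p (nat_lit 0x8012) (nat_lit 0) pn))))))))))))))))))))))))) :=
  Cl.node (nat_lit 0x101) (nat_lit 2) (by decide +kernel) (ClAll.succ (ClAll.succ ClAll.zero n22) s19)

def n53 : Cl (O (nat_lit 5)) (R (nat_lit 104577))
    (p (nat_lit 0x109) (nat_lit 1) (p (nat_lit 0x101) (nat_lit 0) (p (nat_lit 0x111) (nat_lit 0) (p (nat_lit 0xd1) (nat_lit 1) (p (nat_lit 0x89) (nat_lit 0) (p (nat_lit 0x41) (nat_lit 0) (p (nat_lit 0x10a090b098a9a) (nat_lit 0) (p (nat_lit 0x9888a890a1a) (nat_lit 0) (p (nat_lit 0x109080a08879a) (nat_lit 0) (p (nat_lit 0x8878988071a) (nat_lit 0) (p (nat_lit 0x8000000000800080907888a) (nat_lit 0) (p (nat_lit 0x8000000000800078887060a) (nat_lit 0) (p (nat_lit 0x10608068782) (nat_lit 0) (p (nat_lit 0x587860702) (nat_lit 0) (p (nat_lit 0x10507058482) (nat_lit 0) (p (nat_lit 0x486850402) (nat_lit 0) (p (nat_lit 0x16000c) (nat_lit 0) (p (nat_lit 0x50612) (nat_lit 0)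 (p (nat_lit 0x38592) (nat_lit 0) (p (nat_lit 0x40492) (nat_lit 0) (p (nat_lit 0x28412) (nat_lit 0) (p (nat_lit 0x30292) (nat_lit 0) (p (nat_lit 0x18212) (nat_lit 0) (p (nat_lit 0x20092) (nat_lit 0) (p (nat_lit 0x8012) (nat_lit 0) pn))))))))))))))))))))))))) :=
  Cl.node (nat_lit 0x200004) (nat_lit 2) (by decide +kernel) (ClAll.succ (ClAll.succ ClAll.zero s21) s22)

def n54 : Cl (O (nat_lit 5)) (R (nat_lit 104577))
    (p (nat_lit 0x81) (nat_lit 0) (p (nat_lit 0x101) (nat_lit 1) (p (nat_lit 0x111) (nat_lit 0) (p (nat_lit 0xd1) (nat_lit 1) (p (nat_lit 0x89) (nat_lit 0) (p (nat_lit 0x41) (nat_lit 0) (p (nat_lit 0x10a090b098a9a) (nat_lit 0) (p (nat_lit 0x9888a890a1a) (nat_lit 0) (p (nat_lit 0x109080a08879a) (nat_lit 0) (p (nat_lit 0x8878988071a) (nat_lit 0) (p (nat_lit 0x8000000000800080907888a) (nat_lit 0) (p (nat_lit 0x8000000000800078887060a) (nat_lit 0) (p (nat_lit 0x10608068782) (nat_lit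 0) (p (nat_lit 0x587860702) (nat_lit 0) (p (nat_lit 0x10507058482) (nat_lit 0) (p (nat_lit 0x486850402) (nat_lit 0) (p (nat_lit 0x16000c) (nat_lit 0) (p (nat_lit 0x50612) (nat_lit 0) (p (nat_lit 0x38592) (nat_lit 0) (p (nat_lit 0x40492) (nat_lit 0) (p (nat_lit 0x28412) (nat_lit 0) (p (nat_lit 0x30292) (nat_lit 0) (p (nat_lit 0x18212) (nat_lit 0) (p (nat_lit 0x20092) (nat_lit 0) (p (nat_lit 0x8012) (nat_lit 0) pn))))))))))))))))))))))))) :=
  Cl.node (nat_lit 0x200004) (nat_lit 2) (by decide +kernel) (ClAll.succ (ClAll.succ ClAll.zero s23) s24)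

def n55 : Cl (O (nat_lit 5)) (R (nat_lit 104577))
    (p (nat_lit 0x81) (nat_lit 1) (p (nat_lit 0x101) (nat_lit 1) (p (nat_lit 0x111) (nat_lit 0) (p (nat_lit 0xd1) (nat_lit 1) (p (nat_lit 0x89) (nat_lit 0) (p (nat_lit 0x41) (nat_lit 0) (p (nat_lit 0x10a090b098a9a) (nat_lit 0) (p (nat_lit 0x9888a890a1a) (nat_lit 0) (p (nat_lit 0x109080a08879a) (nat_lit 0) (p (nat_lit 0x8878988071a) (nat_lit 0) (p (nat_lit 0x8000000000800080907888a) (nat_lit 0) (p (nat_lit 0x8000000000800078887060a) (nat_lit 0) (p (nat_lit 0x10608068782) (nat_lit 0) (p (nat_lit 0x587860702) (nat_lit 0) (p (nat_lit 0x10507058482) (nat_lit 0) (p (nat_lit 0x486850402) (nat_lit 0) (p (nat_lit 0x16000c) (nat_lit 0) (p (nat_lit 0x50612) (nat_lit 0) (p (nat_lit 0x38592) (nat_lit 0) (p (nat_lit 0x40492) (nat_lit 0) (p (nat_lit 0x28412) (nat_lit 0) (p (nat_lit 0x30292) (nat_lit 0) (p (nat_lit 0x18212) (nat_lit 0) (p (nat_lit 0x20092)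 (nat_lit 0) (p (nat_lit 0x8012) (nat_lit 0) pn))))))))))))))))))))))))) :=
  Cl.node (nat_lit 0xc1) (nat_lit 2) (by decide +kernel) (ClAll.succ (ClAll.succ ClAll.zero n23) s27)

def n56 : Cl (O (nat_lit 5)) (R (nat_lit 104577))
    (p (nat_lit 0xc1) (nat_lit 1) (p (nat_lit 0x81) (nat_lit 1) (p (nat_lit 0x111) (nat_lit 1) (p (nat_lit 0xd1) (nat_lit 1) (p (nat_lit 0x89) (nat_lit 0) (p (nat_lit 0x41) (nat_lit 0) (p (nat_lit 0x10a090b098a9a) (nat_lit 0) (p (nat_lit 0x9888a890a1a) (nat_lit 0) (p (nat_lit 0x109080a08879a) (nat_lit 0) (p (nat_lit 0x8878988071a) (nat_lit 0) (p (nat_lit 0x8000000000800080907888a) (nat_lit 0) (p (nat_lit 0x8000000000800078887060a) (nat_lit 0) (p (nat_lit 0x10608068782) (nat_lit 0) (p (nat_lit 0x587860702) (nat_lit 0) (p (nat_lit 0x10507058482) (nat_lit 0) (p (nat_lit 0x486850402) (nat_lit 0) (p (nat_lit 0x16000c) (nat_lit 0) (p (nat_lit 0x50612) (nat_lit 0) (p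 (nat_lit 0x38592) (nat_lit 0) (p (nat_lit 0x40492) (nat_lit 0) (p (nat_lit 0x28412) (nat_lit 0) (p (nat_lit 0x30292) (nat_lit 0) (p (nat_lit 0x18212) (nat_lit 0) (p (nat_lit 0x20092) (nat_lit 0) (p (nat_lit 0x8012) (nat_lit 0) pn))))))))))))))))))))))))) :=
  Cl.node (nat_lit 0x101) (nat_lit 2) (by decide +kernel) (ClAll.succ (ClAll.succ ClAll.zero s30) s31)

def n57 : Cl (O (nat_lit 5)) (R (nat_lit 104577))
    (p (nat_lit 0x109) (nat_lit 0) (p (nat_lit 0x101) (nat_lit 0) (p (nat_lit 0x119) (nat_lit 0) (p (nat_lit 0xc9) (nat_lit 0) (p (nat_lit 0x89) (nat_lit 1) (p (nat_lit 0x41) (nat_lit 0) (p (nat_lit 0x10a090b098a9a) (nat_lit 0) (p (nat_lit 0x9888a890a1a) (nat_lit 0) (p (nat_lit 0x109080a08879a) (nat_lit 0) (p (nat_lit 0x8878988071a) (nat_lit 0) (p (nat_lit 0x8000000000800080907888a) (nat_lit 0) (p (nat_lit 0x8000000000800078887060a) (nat_lit 0) (p (nat_lit 0x10608068782) (nat_lit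 0) (p (nat_lit 0x587860702) (nat_lit 0) (p (nat_lit 0x10507058482) (nat_lit 0) (p (nat_lit 0x486850402) (nat_lit 0) (p (nat_lit 0x16000c) (nat_lit 0) (p (nat_lit 0x50612) (nat_lit 0) (p (nat_lit 0x38592) (nat_lit 0) (p (nat_lit 0x40492) (nat_lit 0) (p (nat_lit 0x28412) (nat_lit 0) (p (nat_lit 0x30292) (nat_lit 0) (p (nat_lit 0x18212) (nat_lit 0) (p (nat_lit 0x20092) (nat_lit 0) (p (nat_lit 0x8012) (nat_lit 0) pn))))))))))))))))))))))))) :=
  Cl.node (nat_lit 0x111) (nat_lit 2) (by decide +kernel) (ClAll.succ (ClAll.succ ClAll.zero s32) n24)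

def n58 : Cl (O (nat_lit 5)) (R (nat_lit 104577))
    (p (nat_lit 0x109) (nat_lit 1) (p (nat_lit 0x101) (nat_lit 0) (p (nat_lit 0x119) (nat_lit 0) (p (nat_lit 0xc9) (nat_lit 0) (p (nat_lit 0x89) (nat_lit 1) (p (nat_lit 0x41) (nat_lit 0) (p (nat_lit 0x10a090b098a9a) (nat_lit 0) (p (nat_lit 0x9888a890a1a) (nat_lit 0) (p (nat_lit 0x109080a08879a) (nat_lit 0) (p (nat_lit 0x8878988071a) (nat_lit 0) (p (nat_lit 0x8000000000800080907888a) (nat_lit 0) (p (nat_lit 0x8000000000800078887060a) (nat_lit 0) (p (nat_lit 0x10608068782) (nat_lit 0) (p (nat_lit 0x587860702) (nat_lit 0) (p (nat_lit 0x10507058482) (nat_lit 0) (p (nat_lit 0x486850402) (nat_lit 0) (p (nat_lit 0x16000c) (nat_lit 0) (p (nat_lit 0x50612) (nat_lit 0) (p (nat_lit 0x38592) (nat_lit 0) (p (nat_lit 0x40492) (nat_lit 0) (p (nat_lit 0x28412) (nat_lit 0) (p (nat_lit 0x30292) (nat_lit 0) (p (nat_lit 0x18212) (nat_lit 0) (p (nat_lit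 0x20092) (nat_lit 0) (p (nat_lit 0x8012) (nat_lit 0) pn))))))))))))))))))))))))) :=
  Cl.node (nat_lit 0xd1) (nat_lit 2) (by decide +kernel) (ClAll.succ (ClAll.succ ClAll.zero n25) n26)

def n59 : Cl (O (nat_lit 5)) (R (nat_lit 104577))
    (p (nat_lit 0xc1) (nat_lit 0) (p (nat_lit 0x101) (nat_lit 1) (p (nat_lit 0x119) (nat_lit 0) (p (nat_lit 0xc9) (nat_lit 0) (p (nat_lit 0x89) (nat_lit 1) (p (nat_lit 0x41) (nat_lit 0) (p (nat_lit 0x10a090b098a9a) (nat_lit 0) (p (nat_lit 0x9888a890a1a) (nat_lit 0) (p (nat_lit 0x109080a08879a) (nat_lit 0) (p (nat_lit 0x8878988071a) (nat_lit 0) (p (nat_lit 0x8000000000800080907888a) (nat_lit 0) (p (nat_lit 0x8000000000800078887060a) (nat_lit 0) (p (nat_lit 0x10608068782) (nat_lit 0) (p (nat_lit 0x587860702) (nat_lit 0) (p (nat_lit 0x10507058482) (nat_lit 0) (p (nat_lit 0x486850402) (nat_lit 0) (p (nat_lit 0x16000c) (nat_lit 0) (p (nat_lit 0x50612) (nat_lit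 0) (p (nat_lit 0x38592) (nat_lit 0) (p (nat_lit 0x40492) (nat_lit 0) (p (nat_lit 0x28412) (nat_lit 0) (p (nat_lit 0x30292) (nat_lit 0) (p (nat_lit 0x18212) (nat_lit 0) (p (nat_lit 0x20092) (nat_lit 0) (p (nat_lit 0x8012) (nat_lit 0) pn))))))))))))))))))))))))) :=
  Cl.node (nat_lit 0xd1) (nat_lit 2) (by decide +kernel) (ClAll.succ (ClAll.succ ClAll.zero n27) n28)

def n60 : Cl (O (nat_lit 5)) (R (nat_lit 104577))
    (p (nat_lit 0xd1) (nat_lit 1) (p (nat_lit 0xc1) (nat_lit 0) (p (nat_lit 0x119) (nat_lit 1) (p (nat_lit 0xc9) (nat_lit 0) (p (nat_lit 0x89) (nat_lit 1) (p (nat_lit 0x41) (nat_lit 0) (p (nat_lit 0x10a090b098a9a) (nat_lit 0) (p (nat_lit 0x9888a890a1a) (nat_lit 0) (p (nat_lit 0x109080a08879a) (nat_lit 0) (p (nat_lit 0x8878988071a) (nat_lit 0) (p (nat_lit 0x8000000000800080907888a) (nat_lit 0) (p (nat_lit 0x8000000000800078887060a) (nat_lit 0) (p (nat_lit 0x10608068782) (nat_lit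 0) (p (nat_lit 0x587860702) (nat_lit 0) (p (nat_lit 0x10507058482) (nat_lit 0) (p (nat_lit 0x486850402) (nat_lit 0) (p (nat_lit 0x16000c) (nat_lit 0) (p (nat_lit 0x50612) (nat_lit 0) (p (nat_lit 0x38592) (nat_lit 0) (p (nat_lit 0x40492) (nat_lit 0) (p (nat_lit 0x28412) (nat_lit 0) (p (nat_lit 0x30292) (nat_lit 0) (p (nat_lit 0x18212) (nat_lit 0) (p (nat_lit 0x20092) (nat_lit 0) (p (nat_lit 0x8012) (nat_lit 0) pn))))))))))))))))))))))))) :=
  Cl.node (nat_lit 0x111) (nat_lit 2) (by decide +kernel) (ClAll.succ (ClAll.succ ClAll.zero s50) n29)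

def n61 : Cl (O (nat_lit 5)) (R (nat_lit 104577))
    (p (nat_lit 0x101) (nat_lit 0) (p (nat_lit 0xc1) (nat_lit 1) (p (nat_lit 0x119) (nat_lit 1) (p (nat_lit 0xc9) (nat_lit 0) (p (nat_lit 0x89) (nat_lit 1) (p (nat_lit 0x41) (nat_lit 0) (p (nat_lit 0x10a090b098a9a) (nat_lit 0) (p (nat_lit 0x9888a890a1a) (nat_lit 0) (p (nat_lit 0x109080a08879a) (nat_lit 0) (p (nat_lit 0x8878988071a) (nat_lit 0) (p (nat_lit 0x8000000000800080907888a) (nat_lit 0) (p (nat_lit 0x8000000000800078887060a) (nat_lit 0) (p (nat_lit 0x10608068782) (nat_lit 0) (p (nat_lit 0x587860702) (nat_lit 0) (p (nat_lit 0x10507058482) (nat_lit 0) (p (nat_lit 0x486850402) (nat_lit 0) (p (nat_lit 0x16000c) (nat_lit 0) (p (nat_lit 0x50612) (nat_lit 0) (p (nat_lit 0x38592) (nat_lit 0) (p (nat_lit 0x40492) (nat_lit 0) (p (nat_lit 0x28412) (nat_lit 0) (p (nat_lit 0x30292) (nat_lit 0) (p (nat_lit 0x18212) (nat_lit 0) (p (nat_lit 0x20092)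 (nat_lit 0) (p (nat_lit 0x8012) (nat_lit 0) pn))))))))))))))))))))))))) :=
  Cl.node (nat_lit 0x111) (nat_lit 2) (by decide +kernel) (ClAll.succ (ClAll.succ ClAll.zero s53) n30)

def n62 : Cl (O (nat_lit 5)) (R (nat_lit 104577))
    (p (nat_lit 0x111) (nat_lit 0) (p (nat_lit 0x101) (nat_lit 0) (p (nat_lit 0x109) (nat_lit 0) (p (nat_lit 0xc9) (nat_lit 1) (p (nat_lit 0x89) (nat_lit 1) (p (nat_lit 0x41) (nat_lit 0) (p (nat_lit 0x10a090b098a9a) (nat_lit 0) (p (nat_lit 0x9888a890a1a) (nat_lit 0) (p (nat_lit 0x109080a08879a) (nat_lit 0) (p (nat_lit 0x8878988071a) (nat_lit 0) (p (nat_lit 0x8000000000800080907888a) (nat_lit 0) (p (nat_lit 0x8000000000800078887060a) (nat_lit 0) (p (nat_lit 0x10608068782) (nat_lit 0) (p (nat_lit 0x587860702) (nat_lit 0) (p (nat_lit 0x10507058482) (nat_lit 0) (p (nat_lit 0x486850402) (nat_lit 0) (p (nat_lit 0x16000c) (nat_lit 0) (p (nat_lit 0x50612) (nat_lit 0)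 (p (nat_lit 0x38592) (nat_lit 0) (p (nat_lit 0x40492) (nat_lit 0) (p (nat_lit 0x28412) (nat_lit 0) (p (nat_lit 0x30292) (nat_lit 0) (p (nat_lit 0x18212) (nat_lit 0) (p (nat_lit 0x20092) (nat_lit 0) (p (nat_lit 0x8012) (nat_lit 0) pn))))))))))))))))))))))))) :=
  Cl.node (nat_lit 0x119) (nat_lit 2) (by decide +kernel) (ClAll.succ (ClAll.succ ClAll.zero s58) n31)

def n63 : Cl (O (nat_lit 5)) (R (nat_lit 104577))
    (p (nat_lit 0x111) (nat_lit 1) (p (nat_lit 0x101) (nat_lit 0) (p (nat_lit 0x109) (nat_lit 0) (p (nat_lit 0xc9) (nat_lit 1) (p (nat_lit 0x89) (nat_lit 1) (p (nat_lit 0x41) (nat_lit 0) (p (nat_lit 0x10a090b098a9a) (nat_lit 0) (p (nat_lit 0x9888a890a1a) (nat_lit 0) (p (nat_lit 0x109080a08879a) (nat_lit 0) (p (nat_lit 0x8878988071a) (nat_lit 0) (p (nat_lit 0x8000000000800080907888a) (nat_lit 0) (p (nat_lit 0x8000000000800078887060a) (nat_lit 0) (p (nat_lit 0x10608068782) (nat_lit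 0) (p (nat_lit 0x587860702) (nat_lit 0) (p (nat_lit 0x10507058482) (nat_lit 0) (p (nat_lit 0x486850402) (nat_lit 0) (p (nat_lit 0x16000c) (nat_lit 0) (p (nat_lit 0x50612) (nat_lit 0) (p (nat_lit 0x38592) (nat_lit 0) (p (nat_lit 0x40492) (nat_lit 0) (p (nat_lit 0x28412) (nat_lit 0) (p (nat_lit 0x30292) (nat_lit 0) (p (nat_lit 0x18212) (nat_lit 0) (p (nat_lit 0x20092) (nat_lit 0) (p (nat_lit 0x8012) (nat_lit 0) pn))))))))))))))))))))))))) :=
  Cl.node (nat_lit 0x200004) (nat_lit 2) (by decide +kernel) (ClAll.succ (ClAll.succ ClAll.zero s61) s62)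

def n64 : Cl (O (nat_lit 5)) (R (nat_lit 104577))
    (p (nat_lit 0x109) (nat_lit 1) (p (nat_lit 0x101) (nat_lit 0) (p (nat_lit 0x119) (nat_lit 0) (p (nat_lit 0xd1) (nat_lit 0) (p (nat_lit 0x81) (nat_lit 0) (p (nat_lit 0x41) (nat_lit 1) (p (nat_lit 0x10a090b098a9a) (nat_lit 0) (p (nat_lit 0x9888a890a1a) (nat_lit 0) (p (nat_lit 0x109080a08879a) (nat_lit 0) (p (nat_lit 0x8878988071a) (nat_lit 0) (p (nat_lit 0x8000000000800080907888a) (nat_lit 0) (p (nat_lit 0x8000000000800078887060a) (nat_lit 0) (p (nat_lit 0x10608068782) (nat_lit 0) (p (nat_lit 0x587860702) (nat_lit 0) (p (nat_lit 0x10507058482) (nat_lit 0) (p (nat_lit 0x486850402) (nat_lit 0) (p (nat_lit 0x16000c) (nat_lit 0) (p (nat_lit 0x50612) (nat_lit 0) (p (nat_lit 0x38592) (nat_lit 0) (p (nat_lit 0x40492) (nat_lit 0) (p (nat_lit 0x28412) (nat_lit 0) (p (nat_lit 0x30292) (nat_lit 0) (p (nat_lit 0x18212) (nat_lit 0) (p (nat_lit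 0x20092) (nat_lit 0) (p (nat_lit 0x8012) (nat_lit 0) pn))))))))))))))))))))))))) :=
  Cl.node (nat_lit 0x89) (nat_lit 2) (by decide +kernel) (ClAll.succ (ClAll.succ ClAll.zero s66) s67)

def n65 : Cl (O (nat_lit 5)) (R (nat_lit 104577))
    (p (nat_lit 0xc1) (nat_lit 0) (p (nat_lit 0x101) (nat_lit 1) (p (nat_lit 0x119) (nat_lit 0) (p (nat_lit 0xd1) (nat_lit 0) (p (nat_lit 0x81) (nat_lit 0) (p (nat_lit 0x41) (nat_lit 1) (p (nat_lit 0x10a090b098a9a) (nat_lit 0) (p (nat_lit 0x9888a890a1a) (nat_lit 0) (p (nat_lit 0x109080a08879a) (nat_lit 0) (p (nat_lit 0x8878988071a) (nat_lit 0) (p (nat_lit 0x8000000000800080907888a) (nat_lit 0) (p (nat_lit 0x8000000000800078887060a) (nat_lit 0) (p (nat_lit 0x10608068782) (nat_lit 0) (p (nat_lit 0x587860702) (nat_lit 0) (p (nat_lit 0x10507058482) (nat_lit 0) (p (nat_lit 0x486850402) (nat_lit 0) (p (nat_lit 0x16000c) (nat_lit 0) (p (nat_lit 0x50612) (nat_lit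 0) (p (nat_lit 0x38592) (nat_lit 0) (p (nat_lit 0x40492) (nat_lit 0) (p (nat_lit 0x28412) (nat_lit 0) (p (nat_lit 0x30292) (nat_lit 0) (p (nat_lit 0x18212) (nat_lit 0) (p (nat_lit 0x20092) (nat_lit 0) (p (nat_lit 0x8012) (nat_lit 0) pn))))))))))))))))))))))))) :=
  Cl.node (nat_lit 0x89) (nat_lit 2) (by decide +kernel) (ClAll.succ (ClAll.succ ClAll.zero s68) n32)

def n66 : Cl (O (nat_lit 5)) (R (nat_lit 104577))
    (p (nat_lit 0xc1) (nat_lit 1) (p (nat_lit 0x101) (nat_lit 1) (p (nat_lit 0x119) (nat_lit 0) (p (nat_lit 0xd1) (nat_lit 0) (p (nat_lit 0x81) (nat_lit 0) (p (nat_lit 0x41) (nat_lit 1) (p (nat_lit 0x10a090b098a9a) (nat_lit 0) (p (nat_lit 0x9888a890a1a) (nat_lit 0) (p (nat_lit 0x109080a08879a) (nat_lit 0) (p (nat_lit 0x8878988071a) (nat_lit 0) (p (nat_lit 0x8000000000800080907888a) (nat_lit 0) (p (nat_lit 0x8000000000800078887060a) (nat_lit 0) (p (nat_lit 0x10608068782) (nat_lit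 0) (p (nat_lit 0x587860702) (nat_lit 0) (p (nat_lit 0x10507058482) (nat_lit 0) (p (nat_lit 0x486850402) (nat_lit 0) (p (nat_lit 0x16000c) (nat_lit 0) (p (nat_lit 0x50612) (nat_lit 0) (p (nat_lit 0x38592) (nat_lit 0) (p (nat_lit 0x40492) (nat_lit 0) (p (nat_lit 0x28412) (nat_lit 0) (p (nat_lit 0x30292) (nat_lit 0) (p (nat_lit 0x18212) (nat_lit 0) (p (nat_lit 0x20092) (nat_lit 0) (p (nat_lit 0x8012) (nat_lit 0) pn))))))))))))))))))))))))) :=
  Cl.node (nat_lit 0x89) (nat_lit 2) (by decide +kernel) (ClAll.succ (ClAll.succ ClAll.zero s71) n33)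

def n67 : Cl (O (nat_lit 5)) (R (nat_lit 104577))
    (p (nat_lit 0xc9) (nat_lit 1) (p (nat_lit 0xc1) (nat_lit 0) (p (nat_lit 0x119) (nat_lit 1) (p (nat_lit 0xd1) (nat_lit 0) (p (nat_lit 0x81) (nat_lit 0) (p (nat_lit 0x41) (nat_lit 1) (p (nat_lit 0x10a090b098a9a) (nat_lit 0) (p (nat_lit 0x9888a890a1a) (nat_lit 0) (p (nat_lit 0x109080a08879a) (nat_lit 0) (p (nat_lit 0x8878988071a) (nat_lit 0) (p (nat_lit 0x8000000000800080907888a) (nat_lit 0) (p (nat_lit 0x8000000000800078887060a) (nat_lit 0) (p (nat_lit 0x10608068782) (nat_lit 0) (p (nat_lit 0x587860702) (nat_lit 0) (p (nat_lit 0x10507058482) (nat_lit 0) (p (nat_lit 0x486850402) (nat_lit 0) (p (nat_lit 0x16000c) (nat_lit 0) (p (nat_lit 0x50612) (nat_lit 0) (p (nat_lit 0x38592) (nat_lit 0) (p (nat_lit 0x40492) (nat_lit 0) (p (nat_lit 0x28412) (nat_lit 0) (p (nat_lit 0x30292) (nat_lit 0) (p (nat_lit 0x18212) (nat_lit 0) (p (nat_lit 0x20092)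 (nat_lit 0) (p (nat_lit 0x8012) (nat_lit 0) pn))))))))))))))))))))))))) :=
  Cl.node (nat_lit 0x89) (nat_lit 2) (by decide +kernel) (ClAll.succ (ClAll.succ ClAll.zero s78) n34)

def n68 : Cl (O (nat_lit 5)) (R (nat_lit 104577))
    (p (nat_lit 0x101) (nat_lit 0) (p (nat_lit 0xc1) (nat_lit 1) (p (nat_lit 0x119) (nat_lit 1) (p (nat_lit 0xd1) (nat_lit 0) (p (nat_lit 0x81) (nat_lit 0) (p (nat_lit 0x41) (nat_lit 1) (p (nat_lit 0x10a090b098a9a) (nat_lit 0) (p (nat_lit 0x9888a890a1a) (nat_lit 0) (p (nat_lit 0x109080a08879a) (nat_lit 0) (p (nat_lit 0x8878988071a) (nat_lit 0) (p (nat_lit 0x8000000000800080907888a) (nat_lit 0) (p (nat_lit 0x8000000000800078887060a) (nat_lit 0) (p (nat_lit 0x10608068782) (nat_lit 0) (p (nat_lit 0x587860702) (nat_lit 0) (p (nat_lit 0x10507058482) (nat_lit 0) (p (nat_lit 0x486850402) (nat_lit 0) (p (nat_lit 0x16000c) (nat_lit 0) (p (nat_lit 0x50612) (nat_lit 0) (p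 (nat_lit 0x38592) (nat_lit 0) (p (nat_lit 0x40492) (nat_lit 0) (p (nat_lit 0x28412) (nat_lit 0) (p (nat_lit 0x30292) (nat_lit 0) (p (nat_lit 0x18212) (nat_lit 0) (p (nat_lit 0x20092) (nat_lit 0) (p (nat_lit 0x8012) (nat_lit 0) pn))))))))))))))))))))))))) :=
  Cl.node (nat_lit 0x89) (nat_lit 2) (by decide +kernel) (ClAll.succ (ClAll.succ ClAll.zero s82) n35)

def n69 : Cl (O (nat_lit 5)) (R (nat_lit 104577))
    (p (nat_lit 0x101) (nat_lit 1) (p (nat_lit 0xc1) (nat_lit 1) (p (nat_lit 0x119) (nat_lit 1) (p (nat_lit 0xd1) (nat_lit 0) (p (nat_lit 0x81) (nat_lit 0) (p (nat_lit 0x41) (nat_lit 1) (p (nat_lit 0x10a090b098a9a) (nat_lit 0) (p (nat_lit 0x9888a890a1a) (nat_lit 0) (p (nat_lit 0x109080a08879a) (nat_lit 0) (p (nat_lit 0x8878988071a) (nat_lit 0) (p (nat_lit 0x8000000000800080907888a) (nat_lit 0) (p (nat_lit 0x8000000000800078887060a) (nat_lit 0) (p (nat_lit 0x10608068782) (nat_lit 0)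 (p (nat_lit 0x587860702) (nat_lit 0) (p (nat_lit 0x10507058482) (nat_lit 0) (p (nat_lit 0x486850402) (nat_lit 0) (p (nat_lit 0x16000c) (nat_lit 0) (p (nat_lit 0x50612) (nat_lit 0) (p (nat_lit 0x38592) (nat_lit 0) (p (nat_lit 0x40492) (nat_lit 0) (p (nat_lit 0x28412) (nat_lit 0) (p (nat_lit 0x30292) (nat_lit 0) (p (nat_lit 0x18212) (nat_lit 0) (p (nat_lit 0x20092) (nat_lit 0) (p (nat_lit 0x8012) (nat_lit 0) pn))))))))))))))))))))))))) :=
  Cl.node (nat_lit 0x89) (nat_lit 2) (by decide +kernel) (ClAll.succ (ClAll.succ ClAll.zero s85) n36)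

def n70 : Cl (O (nat_lit 5)) (R (nat_lit 104577))
    (p (nat_lit 0x109) (nat_lit 1) (p (nat_lit 0x101) (nat_lit 0) (p (nat_lit 0x111) (nat_lit 0) (p (nat_lit 0xd1) (nat_lit 1) (p (nat_lit 0x81) (nat_lit 0) (p (nat_lit 0x41) (nat_lit 1) (p (nat_lit 0x10a090b098a9a) (nat_lit 0) (p (nat_lit 0x9888a890a1a) (nat_lit 0) (p (nat_lit 0x109080a08879a) (nat_lit 0) (p (nat_lit 0x8878988071a) (nat_lit 0) (p (nat_lit 0x8000000000800080907888a) (nat_lit 0) (p (nat_lit 0x8000000000800078887060a) (nat_lit 0) (p (nat_lit 0x10608068782) (nat_lit 0) (p (nat_lit 0x587860702) (nat_lit 0) (p (nat_lit 0x10507058482) (nat_lit 0) (p (nat_lit 0x486850402) (nat_lit 0) (p (nat_lit 0x16000c) (nat_lit 0) (p (nat_lit 0x50612) (nat_lit 0) (p (nat_lit 0x38592) (nat_lit 0) (p (nat_lit 0x40492) (nat_lit 0) (p (nat_lit 0x28412) (nat_lit 0) (p (nat_lit 0x30292) (nat_lit 0) (p (nat_lit 0x18212) (nat_lit 0) (p (nat_lit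 0x20092) (nat_lit 0) (p (nat_lit 0x8012) (nat_lit 0) pn))))))))))))))))))))))))) :=
  Cl.node (nat_lit 0x89) (nat_lit 2) (by decide +kernel) (ClAll.succ (ClAll.succ ClAll.zero s89) n37)

def n71 : Cl (O (nat_lit 5)) (R (nat_lit 104577))
    (p (nat_lit 0x89) (nat_lit 0) (p (nat_lit 0x101) (nat_lit 1) (p (nat_lit 0x111) (nat_lit 0) (p (nat_lit 0xd1) (nat_lit 1) (p (nat_lit 0x81) (nat_lit 0) (p (nat_lit 0x41) (nat_lit 1) (p (nat_lit 0x10a090b098a9a) (nat_lit 0) (p (nat_lit 0x9888a890a1a) (nat_lit 0) (p (nat_lit 0x109080a08879a) (nat_lit 0) (p (nat_lit 0x8878988071a) (nat_lit 0) (p (nat_lit 0x8000000000800080907888a) (nat_lit 0) (p (nat_lit 0x8000000000800078887060a) (nat_lit 0) (p (nat_lit 0x10608068782) (nat_lit 0) (p (nat_lit 0x587860702) (nat_lit 0) (p (nat_lit 0x10507058482) (nat_lit 0) (p (nat_lit 0x486850402) (nat_lit 0) (p (nat_lit 0x16000c) (nat_lit 0) (p (nat_lit 0x50612) (nat_lit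 0) (p (nat_lit 0x38592) (nat_lit 0) (p (nat_lit 0x40492) (nat_lit 0) (p (nat_lit 0x28412) (nat_lit 0) (p (nat_lit 0x30292) (nat_lit 0) (p (nat_lit 0x18212) (nat_lit 0) (p (nat_lit 0x20092) (nat_lit 0) (p (nat_lit 0x8012) (nat_lit 0) pn))))))))))))))))))))))))) :=
  Cl.node (nat_lit 0x200004) (nat_lit 2) (by decide +kernel) (ClAll.succ (ClAll.succ ClAll.zero s92) s93)

def n72 : Cl (O (nat_lit 5)) (R (nat_lit 104577))
    (p (nat_lit 0x89) (nat_lit 1) (p (nat_lit 0x101) (nat_lit 1) (p (nat_lit 0x111) (nat_lit 0) (p (nat_lit 0xd1) (nat_lit 1) (p (nat_lit 0x81) (nat_lit 0) (p (nat_lit 0x41) (nat_lit 1) (p (nat_lit 0x10a090b098a9a) (nat_lit 0) (p (nat_lit 0x9888a890a1a) (nat_lit 0) (p (nat_lit 0x109080a08879a) (nat_lit 0) (p (nat_lit 0x8878988071a) (nat_lit 0) (p (nat_lit 0x8000000000800080907888a) (nat_lit 0) (p (nat_lit 0x8000000000800078887060a) (nat_lit 0) (p (nat_lit 0x10608068782)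 (nat_lit 0) (p (nat_lit 0x587860702) (nat_lit 0) (p (nat_lit 0x10507058482) (nat_lit 0) (p (nat_lit 0x486850402) (nat_lit 0) (p (nat_lit 0x16000c) (nat_lit 0) (p (nat_lit 0x50612) (nat_lit 0) (p (nat_lit 0x38592) (nat_lit 0) (p (nat_lit 0x40492) (nat_lit 0) (p (nat_lit 0x28412) (nat_lit 0) (p (nat_lit 0x30292) (nat_lit 0) (p (nat_lit 0x18212) (nat_lit 0) (p (nat_lit 0x20092) (nat_lit 0) (p (nat_lit 0x8012) (nat_lit 0) pn))))))))))))))))))))))))) :=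
  Cl.node (nat_lit 0xc9) (nat_lit 2) (by decide +kernel) (ClAll.succ (ClAll.succ ClAll.zero n38) n39)

def n73 : Cl (O (nat_lit 5)) (R (nat_lit 104577))
    (p (nat_lit 0xc9) (nat_lit 1) (p (nat_lit 0x89) (nat_lit 1) (p (nat_lit 0x111) (nat_lit 1) (p (nat_lit 0xd1) (nat_lit 1) (p (nat_lit 0x81) (nat_lit 0) (p (nat_lit 0x41) (nat_lit 1) (p (nat_lit 0x10a090b098a9a) (nat_lit 0) (p (nat_lit 0x9888a890a1a) (nat_lit 0) (p (nat_lit 0x109080a08879a) (nat_lit 0) (p (nat_lit 0x8878988071a) (nat_lit 0) (p (nat_lit 0x8000000000800080907888a) (nat_lit 0) (p (nat_lit 0x8000000000800078887060a) (nat_lit 0) (p (nat_lit 0x10608068782) (nat_lit 0) (p (nat_lit 0x587860702) (nat_lit 0) (p (nat_lit 0x10507058482) (nat_lit 0) (p (nat_lit 0x486850402) (nat_lit 0) (p (nat_lit 0x16000c) (nat_lit 0) (p (nat_lit 0x50612) (nat_lit 0) (p (nat_lit 0x38592) (nat_lit 0) (p (nat_lit 0x40492) (nat_lit 0) (p (nat_lit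 0x28412) (nat_lit 0) (p (nat_lit 0x30292) (nat_lit 0) (p (nat_lit 0x18212) (nat_lit 0) (p (nat_lit 0x20092) (nat_lit 0) (p (nat_lit 0x8012) (nat_lit 0) pn))))))))))))))))))))))))) :=
  Cl.node (nat_lit 0x109) (nat_lit 2) (by decide +kernel) (ClAll.succ (ClAll.succ ClAll.zero s102) s103)

def n74 : Cl (O (nat_lit 5)) (R (nat_lit 104577))
    (p (nat_lit 0x109) (nat_lit 0) (p (nat_lit 0x101) (nat_lit 0) (p (nat_lit 0x119) (nat_lit 0) (p (nat_lit 0xc1) (nat_lit 0) (p (nat_lit 0x81) (nat_lit 1) (p (nat_lit 0x41) (nat_lit 1) (p (nat_lit 0x10a090b098a9a) (nat_lit 0) (p (nat_lit 0x9888a890a1a) (nat_lit 0) (p (nat_lit 0x109080a08879a) (nat_lit 0) (p (nat_lit 0x8878988071a) (nat_lit 0) (p (nat_lit 0x8000000000800080907888a) (nat_lit 0) (p (nat_lit 0x8000000000800078887060a) (nat_lit 0) (p (nat_lit 0x10608068782) (nat_lit 0) (p (nat_lit 0x587860702) (nat_lit 0) (p (nat_lit 0x10507058482) (nat_lit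 0) (p (nat_lit 0x486850402) (nat_lit 0) (p (nat_lit 0x16000c) (nat_lit 0) (p (nat_lit 0x50612) (nat_lit 0) (p (nat_lit 0x38592) (nat_lit 0) (p (nat_lit 0x40492) (nat_lit 0) (p (nat_lit 0x28412) (nat_lit 0) (p (nat_lit 0x30292) (nat_lit 0) (p (nat_lit 0x18212) (nat_lit 0) (p (nat_lit 0x20092) (nat_lit 0) (p (nat_lit 0x8012) (nat_lit 0) pn))))))))))))))))))))))))) :=
  Cl.node (nat_lit 0x111) (nat_lit 2) (by decide +kernel) (ClAll.succ (ClAll.succ ClAll.zero s104) n40)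

def n75 : Cl (O (nat_lit 5)) (R (nat_lit 104577))
    (p (nat_lit 0x109) (nat_lit 1) (p (nat_lit 0x101) (nat_lit 0) (p (nat_lit 0x119) (nat_lit 0) (p (nat_lit 0xc1) (nat_lit 0) (p (nat_lit 0x81) (nat_lit 1) (p (nat_lit 0x41) (nat_lit 1) (p (nat_lit 0x10a090b098a9a) (nat_lit 0) (p (nat_lit 0x9888a890a1a) (nat_lit 0) (p (nat_lit 0x109080a08879a) (nat_lit 0) (p (nat_lit 0x8878988071a) (nat_lit 0) (p (nat_lit 0x8000000000800080907888a) (nat_lit 0) (p (nat_lit 0x8000000000800078887060a) (nat_lit 0) (p (nat_lit 0x10608068782) (nat_lit 0) (p (nat_lit 0x587860702) (nat_lit 0) (p (nat_lit 0x10507058482) (nat_lit 0) (p (nat_lit 0x486850402) (nat_lit 0) (p (nat_lit 0x16000c) (nat_lit 0) (p (nat_lit 0x50612) (nat_lit 0) (p (nat_lit 0x38592) (nat_lit 0) (p (nat_lit 0x40492) (nat_lit 0) (p (nat_lit 0x28412) (nat_lit 0) (p (nat_lit 0x30292) (nat_lit 0) (p (nat_lit 0x18212) (nat_lit 0) (p (nat_lit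 0x20092) (nat_lit 0) (p (nat_lit 0x8012) (nat_lit 0) pn))))))))))))))))))))))))) :=
  Cl.node (nat_lit 0xc9) (nat_lit 2) (by decide +kernel) (ClAll.succ (ClAll.succ ClAll.zero n41) s111)

def n76 : Cl (O (nat_lit 5)) (R (nat_lit 104577))
    (p (nat_lit 0xc9) (nat_lit 0) (p (nat_lit 0x101) (nat_lit 1) (p (nat_lit 0x119) (nat_lit 0) (p (nat_lit 0xc1) (nat_lit 0) (p (nat_lit 0x81) (nat_lit 1) (p (nat_lit 0x41) (nat_lit 1) (p (nat_lit 0x10a090b098a9a) (nat_lit 0) (p (nat_lit 0x9888a890a1a) (nat_lit 0) (p (nat_lit 0x109080a08879a) (nat_lit 0) (p (nat_lit 0x8878988071a) (nat_lit 0) (p (nat_lit 0x8000000000800080907888a) (nat_lit 0) (p (nat_lit 0x8000000000800078887060a) (nat_lit 0) (p (nat_lit 0x10608068782) (nat_lit 0) (p (nat_lit 0x587860702) (nat_lit 0) (p (nat_lit 0x10507058482) (nat_lit 0) (p (nat_lit 0x486850402) (nat_lit 0) (p (nat_lit 0x16000c) (nat_lit 0) (p (nat_lit 0x50612) (nat_lit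 0) (p (nat_lit 0x38592) (nat_lit 0) (p (nat_lit 0x40492) (nat_lit 0) (p (nat_lit 0x28412) (nat_lit 0) (p (nat_lit 0x30292) (nat_lit 0) (p (nat_lit 0x18212) (nat_lit 0) (p (nat_lit 0x20092) (nat_lit 0) (p (nat_lit 0x8012) (nat_lit 0) pn))))))))))))))))))))))))) :=
  Cl.node (nat_lit 0xd1) (nat_lit 2) (by decide +kernel) (ClAll.succ (ClAll.succ ClAll.zero n42) n43)

def n77 : Cl (O (nat_lit 5)) (R (nat_lit 104577))
    (p (nat_lit 0xc9) (nat_lit 1) (p (nat_lit 0x101) (nat_lit 1) (p (nat_lit 0x119) (nat_lit 0) (p (nat_lit 0xc1) (nat_lit 0) (p (nat_lit 0x81) (nat_lit 1) (p (nat_lit 0x41) (nat_lit 1) (p (nat_lit 0x10a090b098a9a) (nat_lit 0) (p (nat_lit 0x9888a890a1a) (nat_lit 0) (p (nat_lit 0x109080a08879a) (nat_lit 0) (p (nat_lit 0x8878988071a) (nat_lit 0) (p (nat_lit 0x8000000000800080907888a) (nat_lit 0) (p (nat_lit 0x8000000000800078887060a) (nat_lit 0) (p (nat_lit 0x10608068782) (nat_lit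 0) (p (nat_lit 0x587860702) (nat_lit 0) (p (nat_lit 0x10507058482) (nat_lit 0) (p (nat_lit 0x486850402) (nat_lit 0) (p (nat_lit 0x16000c) (nat_lit 0) (p (nat_lit 0x50612) (nat_lit 0) (p (nat_lit 0x38592) (nat_lit 0) (p (nat_lit 0x40492) (nat_lit 0) (p (nat_lit 0x28412) (nat_lit 0) (p (nat_lit 0x30292) (nat_lit 0) (p (nat_lit 0x18212) (nat_lit 0) (p (nat_lit 0x20092) (nat_lit 0) (p (nat_lit 0x8012) (nat_lit 0) pn))))))))))))))))))))))))) :=
  Cl.node (nat_lit 0x200004) (nat_lit 2) (by decide +kernel) (ClAll.succ (ClAll.succ ClAll.zero s117) s118)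

def n78 : Cl (O (nat_lit 5)) (R (nat_lit 104577))
    (p (nat_lit 0xd1) (nat_lit 1) (p (nat_lit 0xc9) (nat_lit 0) (p (nat_lit 0x119) (nat_lit 1) (p (nat_lit 0xc1) (nat_lit 0) (p (nat_lit 0x81) (nat_lit 1) (p (nat_lit 0x41) (nat_lit 1) (p (nat_lit 0x10a090b098a9a) (nat_lit 0) (p (nat_lit 0x9888a890a1a) (nat_lit 0) (p (nat_lit 0x109080a08879a) (nat_lit 0) (p (nat_lit 0x8878988071a) (nat_lit 0) (p (nat_lit 0x8000000000800080907888a) (nat_lit 0) (p (nat_lit 0x8000000000800078887060a) (nat_lit 0) (p (nat_lit 0x10608068782) (nat_lit 0) (p (nat_lit 0x587860702) (nat_lit 0) (p (nat_lit 0x10507058482) (nat_lit 0) (p (nat_lit 0x486850402) (nat_lit 0) (p (nat_lit 0x16000c) (nat_lit 0) (p (nat_lit 0x50612) (nat_lit 0) (p (nat_lit 0x38592) (nat_lit 0) (p (nat_lit 0x40492) (nat_lit 0) (p (nat_lit 0x28412) (nat_lit 0) (p (nat_lit 0x30292) (nat_lit 0) (p (nat_lit 0x18212) (nat_lit 0) (p (nat_lit 0x20092)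 (nat_lit 0) (p (nat_lit 0x8012) (nat_lit 0) pn))))))))))))))))))))))))) :=
  Cl.node (nat_lit 0x111) (nat_lit 2) (by decide +kernel) (ClAll.succ (ClAll.succ ClAll.zero s120) n44)

def n79 : Cl (O (nat_lit 5)) (R (nat_lit 104577))
    (p (nat_lit 0x109) (nat_lit 0) (p (nat_lit 0xc9) (nat_lit 1) (p (nat_lit 0x119) (nat_lit 1) (p (nat_lit 0xc1) (nat_lit 0) (p (nat_lit 0x81) (nat_lit 1) (p (nat_lit 0x41) (nat_lit 1) (p (nat_lit 0x10a090b098a9a) (nat_lit 0) (p (nat_lit 0x9888a890a1a) (nat_lit 0) (p (nat_lit 0x109080a08879a) (nat_lit 0) (p (nat_lit 0x8878988071a) (nat_lit 0) (p (nat_lit 0x8000000000800080907888a) (nat_lit 0) (p (nat_lit 0x8000000000800078887060a) (nat_lit 0) (p (nat_lit 0x10608068782) (nat_lit 0) (p (nat_lit 0x587860702) (nat_lit 0) (p (nat_lit 0x10507058482) (nat_lit 0) (p (nat_lit 0x486850402) (nat_lit 0) (p (nat_lit 0x16000c) (nat_lit 0) (p (nat_lit 0x50612) (nat_lit 0)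 (p (nat_lit 0x38592) (nat_lit 0) (p (nat_lit 0x40492) (nat_lit 0) (p (nat_lit 0x28412) (nat_lit 0) (p (nat_lit 0x30292) (nat_lit 0) (p (nat_lit 0x18212) (nat_lit 0) (p (nat_lit 0x20092) (nat_lit 0) (p (nat_lit 0x8012) (nat_lit 0) pn))))))))))))))))))))))))) :=
  Cl.node (nat_lit 0x111) (nat_lit 2) (by decide +kernel) (ClAll.succ (ClAll.succ ClAll.zero n45) n46)

def n80 : Cl (O (nat_lit 5)) (R (nat_lit 104577))
    (p (nat_lit 0x111) (nat_lit 0) (p (nat_lit 0x109) (nat_lit 0) (p (nat_lit 0x101) (nat_lit 0) (p (nat_lit 0xc1) (nat_lit 1) (p (nat_lit 0x81) (nat_lit 1) (p (nat_lit 0x41) (nat_lit 1) (p (nat_lit 0x10a090b098a9a) (nat_lit 0) (p (nat_lit 0x9888a890a1a) (nat_lit 0) (p (nat_lit 0x109080a08879a) (nat_lit 0) (p (nat_lit 0x8878988071a) (nat_lit 0) (p (nat_lit 0x8000000000800080907888a) (nat_lit 0) (p (nat_lit 0x8000000000800078887060a) (nat_lit 0) (p (nat_lit 0x10608068782) (nat_lit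 0) (p (nat_lit 0x587860702) (nat_lit 0) (p (nat_lit 0x10507058482) (nat_lit 0) (p (nat_lit 0x486850402) (nat_lit 0) (p (nat_lit 0x16000c) (nat_lit 0) (p (nat_lit 0x50612) (nat_lit 0) (p (nat_lit 0x38592) (nat_lit 0) (p (nat_lit 0x40492) (nat_lit 0) (p (nat_lit 0x28412) (nat_lit 0) (p (nat_lit 0x30292) (nat_lit 0) (p (nat_lit 0x18212) (nat_lit 0) (p (nat_lit 0x20092) (nat_lit 0) (p (nat_lit 0x8012) (nat_lit 0) pn))))))))))))))))))))))))) :=
  Cl.node (nat_lit 0x119) (nat_lit 2) (by decide +kernel) (ClAll.succ (ClAll.succ ClAll.zero s129) n47)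

def n81 : Cl (O (nat_lit 5)) (R (nat_lit 104577))
    (p (nat_lit 0x101) (nat_lit 0) (p (nat_lit 0x119) (nat_lit 0) (p (nat_lit 0xd1) (nat_lit 0) (p (nat_lit 0x89) (nat_lit 0) (p (nat_lit 0x41) (nat_lit 0) (p (nat_lit 0x10a090b098a9a) (nat_lit 0) (p (nat_lit 0x9888a890a1a) (nat_lit 0) (p (nat_lit 0x109080a08879a) (nat_lit 0) (p (nat_lit 0x8878988071a) (nat_lit 0) (p (nat_lit 0x8000000000800080907888a) (nat_lit 0) (p (nat_lit 0x8000000000800078887060a) (nat_lit 0) (p (nat_lit 0x10608068782) (nat_lit 0) (p (nat_lit 0x587860702) (nat_lit 0) (p (nat_lit 0x10507058482) (nat_lit 0) (p (nat_lit 0x486850402) (nat_lit 0) (p (nat_lit 0x16000c) (nat_lit 0) (p (nat_lit 0x50612) (nat_lit 0) (p (nat_lit 0x38592) (nat_lit 0) (p (nat_lit 0x40492) (nat_lit 0) (p (nat_lit 0x28412) (nat_lit 0) (p (nat_lit 0x30292) (nat_lit 0) (p (nat_lit 0x18212) (nat_lit 0) (p (nat_lit 0x20092) (nat_lit 0) (p (nat_lit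 0x8012) (nat_lit 0) pn)))))))))))))))))))))))) :=
  Cl.node (nat_lit 0x109) (nat_lit 2) (by decide +kernel) (ClAll.succ (ClAll.succ ClAll.zero s0) n48)

def n82 : Cl (O (nat_lit 5)) (R (nat_lit 104577))
    (p (nat_lit 0x101) (nat_lit 1) (p (nat_lit 0x119) (nat_lit 0) (p (nat_lit 0xd1) (nat_lit 0) (p (nat_lit 0x89) (nat_lit 0) (p (nat_lit 0x41) (nat_lit 0) (p (nat_lit 0x10a090b098a9a) (nat_lit 0) (p (nat_lit 0x9888a890a1a) (nat_lit 0) (p (nat_lit 0x109080a08879a) (nat_lit 0) (p (nat_lit 0x8878988071a) (nat_lit 0) (p (nat_lit 0x8000000000800080907888a) (nat_lit 0) (p (nat_lit 0x8000000000800078887060a) (nat_lit 0) (p (nat_lit 0x10608068782) (nat_lit 0) (p (nat_lit 0x587860702) (nat_lit 0) (p (nat_lit 0x10507058482) (nat_lit 0) (p (nat_lit 0x486850402) (nat_lit 0) (p (nat_lit 0x16000c) (nat_lit 0) (p (nat_lit 0x50612) (nat_lit 0) (p (nat_lit 0x38592) (nat_lit 0) (p (nat_lit 0x40492) (nat_lit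 0) (p (nat_lit 0x28412) (nat_lit 0) (p (nat_lit 0x30292) (nat_lit 0) (p (nat_lit 0x18212) (nat_lit 0) (p (nat_lit 0x20092) (nat_lit 0) (p (nat_lit 0x8012) (nat_lit 0) pn)))))))))))))))))))))))) :=
  Cl.node (nat_lit 0x81) (nat_lit 2) (by decide +kernel) (ClAll.succ (ClAll.succ ClAll.zero n49) n50)

def n83 : Cl (O (nat_lit 5)) (R (nat_lit 104577))
    (p (nat_lit 0xc1) (nat_lit 0) (p (nat_lit 0x119) (nat_lit 1) (p (nat_lit 0xd1) (nat_lit 0) (p (nat_lit 0x89) (nat_lit 0) (p (nat_lit 0x41) (nat_lit 0) (p (nat_lit 0x10a090b098a9a) (nat_lit 0) (p (nat_lit 0x9888a890a1a) (nat_lit 0) (p (nat_lit 0x109080a08879a) (nat_lit 0) (p (nat_lit 0x8878988071a) (nat_lit 0) (p (nat_lit 0x8000000000800080907888a) (nat_lit 0) (p (nat_lit 0x8000000000800078887060a) (nat_lit 0) (p (nat_lit 0x10608068782) (nat_lit 0) (p (nat_lit 0x587860702) (nat_lit 0) (p (nat_lit 0x10507058482) (nat_lit 0) (p (nat_lit 0x486850402)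 (nat_lit 0) (p (nat_lit 0x16000c) (nat_lit 0) (p (nat_lit 0x50612) (nat_lit 0) (p (nat_lit 0x38592) (nat_lit 0) (p (nat_lit 0x40492) (nat_lit 0) (p (nat_lit 0x28412) (nat_lit 0) (p (nat_lit 0x30292) (nat_lit 0) (p (nat_lit 0x18212) (nat_lit 0) (p (nat_lit 0x20092) (nat_lit 0) (p (nat_lit 0x8012) (nat_lit 0) pn)))))))))))))))))))))))) :=
  Cl.node (nat_lit 0xc9) (nat_lit 2) (by decide +kernel) (ClAll.succ (ClAll.succ ClAll.zero s11) s12)

def n84 : Cl (O (nat_lit 5)) (R (nat_lit 104577))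
    (p (nat_lit 0xc1) (nat_lit 1) (p (nat_lit 0x119) (nat_lit 1) (p (nat_lit 0xd1) (nat_lit 0) (p (nat_lit 0x89) (nat_lit 0) (p (nat_lit 0x41) (nat_lit 0) (p (nat_lit 0x10a090b098a9a) (nat_lit 0) (p (nat_lit 0x9888a890a1a) (nat_lit 0) (p (nat_lit 0x109080a08879a) (nat_lit 0) (p (nat_lit 0x8878988071a) (nat_lit 0) (p (nat_lit 0x8000000000800080907888a) (nat_lit 0) (p (nat_lit 0x8000000000800078887060a) (nat_lit 0) (p (nat_lit 0x10608068782) (nat_lit 0) (p (nat_lit 0x587860702) (nat_lit 0) (p (nat_lit 0x10507058482) (nat_lit 0) (p (nat_lit 0x486850402) (nat_lit 0) (p (nat_lit 0x16000c) (nat_lit 0) (p (nat_lit 0x50612) (nat_lit 0) (p (nat_lit 0x38592) (nat_lit 0) (p (nat_lit 0x40492) (nat_lit 0) (p (nat_lit 0x28412) (nat_lit 0) (p (nat_lit 0x30292) (nat_lit 0) (p (nat_lit 0x18212) (nat_lit 0) (p (nat_lit 0x20092) (nat_lit 0) (p (nat_lit 0x8012) (nat_lit 0) pn)))))))))))))))))))))))) :=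
  Cl.node (nat_lit 0x81) (nat_lit 2) (by decide +kernel) (ClAll.succ (ClAll.succ ClAll.zero n51) n52)

def n85 : Cl (O (nat_lit 5)) (R (nat_lit 104577))
    (p (nat_lit 0x101) (nat_lit 0) (p (nat_lit 0x111) (nat_lit 0) (p (nat_lit 0xd1) (nat_lit 1) (p (nat_lit 0x89) (nat_lit 0) (p (nat_lit 0x41) (nat_lit 0) (p (nat_lit 0x10a090b098a9a) (nat_lit 0) (p (nat_lit 0x9888a890a1a) (nat_lit 0) (p (nat_lit 0x109080a08879a) (nat_lit 0) (p (nat_lit 0x8878988071a) (nat_lit 0) (p (nat_lit 0x8000000000800080907888a) (nat_lit 0) (p (nat_lit 0x8000000000800078887060a) (nat_lit 0) (p (nat_lit 0x10608068782) (nat_lit 0) (p (nat_lit 0x587860702) (nat_lit 0) (p (nat_lit 0x10507058482) (nat_lit 0) (p (nat_lit 0x486850402) (nat_lit 0) (p (nat_lit 0x16000c) (nat_lit 0) (p (nat_lit 0x50612) (nat_lit 0) (p (nat_lit 0x38592) (nat_lit 0) (p (nat_lit 0x40492) (nat_lit 0) (p (nat_lit 0x28412) (nat_lit 0) (p (nat_lit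 0x30292) (nat_lit 0) (p (nat_lit 0x18212) (nat_lit 0) (p (nat_lit 0x20092) (nat_lit 0) (p (nat_lit 0x8012) (nat_lit 0) pn)))))))))))))))))))))))) :=
  Cl.node (nat_lit 0x109) (nat_lit 2) (by decide +kernel) (ClAll.succ (ClAll.succ ClAll.zero s20) n53)

def n86 : Cl (O (nat_lit 5)) (R (nat_lit 104577))
    (p (nat_lit 0x101) (nat_lit 1) (p (nat_lit 0x111) (nat_lit 0) (p (nat_lit 0xd1) (nat_lit 1) (p (nat_lit 0x89) (nat_lit 0) (p (nat_lit 0x41) (nat_lit 0) (p (nat_lit 0x10a090b098a9a) (nat_lit 0) (p (nat_lit 0x9888a890a1a) (nat_lit 0) (p (nat_lit 0x109080a08879a) (nat_lit 0) (p (nat_lit 0x8878988071a) (nat_lit 0) (p (nat_lit 0x8000000000800080907888a) (nat_lit 0) (p (nat_lit 0x8000000000800078887060a) (nat_lit 0) (p (nat_lit 0x10608068782) (nat_lit 0) (p (nat_lit 0x587860702) (nat_lit 0) (p (nat_lit 0x10507058482) (nat_lit 0) (p (nat_lit 0x486850402) (nat_lit 0) (p (nat_lit 0x16000c) (nat_lit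 0) (p (nat_lit 0x50612) (nat_lit 0) (p (nat_lit 0x38592) (nat_lit 0) (p (nat_lit 0x40492) (nat_lit 0) (p (nat_lit 0x28412) (nat_lit 0) (p (nat_lit 0x30292) (nat_lit 0) (p (nat_lit 0x18212) (nat_lit 0) (p (nat_lit 0x20092) (nat_lit 0) (p (nat_lit 0x8012) (nat_lit 0) pn)))))))))))))))))))))))) :=
  Cl.node (nat_lit 0x81) (nat_lit 2) (by decide +kernel) (ClAll.succ (ClAll.succ ClAll.zero n54) n55)

def n87 : Cl (O (nat_lit 5)) (R (nat_lit 104577))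
    (p (nat_lit 0x81) (nat_lit 1) (p (nat_lit 0x111) (nat_lit 1) (p (nat_lit 0xd1) (nat_lit 1) (p (nat_lit 0x89) (nat_lit 0) (p (nat_lit 0x41) (nat_lit 0) (p (nat_lit 0x10a090b098a9a) (nat_lit 0) (p (nat_lit 0x9888a890a1a) (nat_lit 0) (p (nat_lit 0x109080a08879a) (nat_lit 0) (p (nat_lit 0x8878988071a) (nat_lit 0) (p (nat_lit 0x8000000000800080907888a) (nat_lit 0) (p (nat_lit 0x8000000000800078887060a) (nat_lit 0) (p (nat_lit 0x10608068782) (nat_lit 0) (p (nat_lit 0x587860702) (nat_lit 0) (p (nat_lit 0x10507058482) (nat_lit 0) (p (nat_lit 0x486850402) (nat_lit 0) (p (nat_lit 0x16000c) (nat_lit 0) (p (nat_lit 0x50612) (nat_lit 0) (p (nat_lit 0x38592) (nat_lit 0) (p (nat_lit 0x40492) (nat_lit 0) (p (nat_lit 0x28412) (nat_lit 0) (p (nat_lit 0x30292) (nat_lit 0) (p (nat_lit 0x18212) (nat_lit 0) (p (nat_lit 0x20092) (nat_lit 0) (p (nat_lit 0x8012) (nat_lit 0) pn)))))))))))))))))))))))) :=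
  Cl.node (nat_lit 0xc1) (nat_lit 2) (by decide +kernel) (ClAll.succ (ClAll.succ ClAll.zero s29) n56)

def n88 : Cl (O (nat_lit 5)) (R (nat_lit 104577))
    (p (nat_lit 0x101) (nat_lit 0) (p (nat_lit 0x119) (nat_lit 0) (p (nat_lit 0xc9) (nat_lit 0) (p (nat_lit 0x89) (nat_lit 1) (p (nat_lit 0x41) (nat_lit 0) (p (nat_lit 0x10a090b098a9a) (nat_lit 0) (p (nat_lit 0x9888a890a1a) (nat_lit 0) (p (nat_lit 0x109080a08879a) (nat_lit 0) (p (nat_lit 0x8878988071a) (nat_lit 0) (p (nat_lit 0x8000000000800080907888a) (nat_lit 0) (p (nat_lit 0x8000000000800078887060a) (nat_lit 0) (p (nat_lit 0x10608068782) (nat_lit 0) (p (nat_lit 0x587860702) (nat_lit 0) (p (nat_lit 0x10507058482) (nat_lit 0) (p (nat_lit 0x486850402) (nat_lit 0) (p (nat_lit 0x16000c) (nat_lit 0) (p (nat_lit 0x50612) (nat_lit 0) (p (nat_lit 0x38592) (nat_lit 0) (p (nat_lit 0x40492) (nat_lit 0) (p (nat_lit 0x28412) (nat_lit 0) (p (nat_lit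 0x30292) (nat_lit 0) (p (nat_lit 0x18212) (nat_lit 0) (p (nat_lit 0x20092) (nat_lit 0) (p (nat_lit 0x8012) (nat_lit 0) pn)))))))))))))))))))))))) :=
  Cl.node (nat_lit 0x109) (nat_lit 2) (by decide +kernel) (ClAll.succ (ClAll.succ ClAll.zero n57) n58)

def n89 : Cl (O (nat_lit 5)) (R (nat_lit 104577))
    (p (nat_lit 0x101) (nat_lit 1) (p (nat_lit 0x119) (nat_lit 0) (p (nat_lit 0xc9) (nat_lit 0) (p (nat_lit 0x89) (nat_lit 1) (p (nat_lit 0x41) (nat_lit 0) (p (nat_lit 0x10a090b098a9a) (nat_lit 0) (p (nat_lit 0x9888a890a1a) (nat_lit 0) (p (nat_lit 0x109080a08879a) (nat_lit 0) (p (nat_lit 0x8878988071a) (nat_lit 0) (p (nat_lit 0x8000000000800080907888a) (nat_lit 0) (p (nat_lit 0x8000000000800078887060a) (nat_lit 0) (p (nat_lit 0x10608068782) (nat_lit 0) (p (nat_lit 0x587860702) (nat_lit 0) (p (nat_lit 0x10507058482) (nat_lit 0) (p (nat_lit 0x486850402) (nat_lit 0) (p (nat_lit 0x16000c) (nat_lit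 0) (p (nat_lit 0x50612) (nat_lit 0) (p (nat_lit 0x38592) (nat_lit 0) (p (nat_lit 0x40492) (nat_lit 0) (p (nat_lit 0x28412) (nat_lit 0) (p (nat_lit 0x30292) (nat_lit 0) (p (nat_lit 0x18212) (nat_lit 0) (p (nat_lit 0x20092) (nat_lit 0) (p (nat_lit 0x8012) (nat_lit 0) pn)))))))))))))))))))))))) :=
  Cl.node (nat_lit 0xc1) (nat_lit 2) (by decide +kernel) (ClAll.succ (ClAll.succ ClAll.zero n59) s48)

def n90 : Cl (O (nat_lit 5)) (R (nat_lit 104577))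
    (p (nat_lit 0xc1) (nat_lit 0) (p (nat_lit 0x119) (nat_lit 1) (p (nat_lit 0xc9) (nat_lit 0) (p (nat_lit 0x89) (nat_lit 1) (p (nat_lit 0x41) (nat_lit 0) (p (nat_lit 0x10a090b098a9a) (nat_lit 0) (p (nat_lit 0x9888a890a1a) (nat_lit 0) (p (nat_lit 0x109080a08879a) (nat_lit 0) (p (nat_lit 0x8878988071a) (nat_lit 0) (p (nat_lit 0x8000000000800080907888a) (nat_lit 0) (p (nat_lit 0x8000000000800078887060a) (nat_lit 0) (p (nat_lit 0x10608068782) (nat_lit 0) (p (nat_lit 0x587860702) (nat_lit 0) (p (nat_lit 0x10507058482) (nat_lit 0) (p (nat_lit 0x486850402) (nat_lit 0) (p (nat_lit 0x16000c) (nat_lit 0) (p (nat_lit 0x50612) (nat_lit 0) (p (nat_lit 0x38592) (nat_lit 0) (p (nat_lit 0x40492) (nat_lit 0) (p (nat_lit 0x28412) (nat_lit 0) (p (nat_lit 0x30292) (nat_lit 0) (p (nat_lit 0x18212) (nat_lit 0) (p (nat_lit 0x20092) (nat_lit 0) (p (nat_lit 0x8012) (nat_lit 0) pn)))))))))))))))))))))))) :=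
  Cl.node (nat_lit 0xd1) (nat_lit 2) (by decide +kernel) (ClAll.succ (ClAll.succ ClAll.zero s49) n60)

def n91 : Cl (O (nat_lit 5)) (R (nat_lit 104577))
    (p (nat_lit 0xc1) (nat_lit 1) (p (nat_lit 0x119) (nat_lit 1) (p (nat_lit 0xc9) (nat_lit 0) (p (nat_lit 0x89) (nat_lit 1) (p (nat_lit 0x41) (nat_lit 0) (p (nat_lit 0x10a090b098a9a) (nat_lit 0) (p (nat_lit 0x9888a890a1a) (nat_lit 0) (p (nat_lit 0x109080a08879a) (nat_lit 0) (p (nat_lit 0x8878988071a) (nat_lit 0) (p (nat_lit 0x8000000000800080907888a) (nat_lit 0) (p (nat_lit 0x8000000000800078887060a) (nat_lit 0) (p (nat_lit 0x10608068782) (nat_lit 0) (p (nat_lit 0x587860702) (nat_lit 0) (p (nat_lit 0x10507058482) (nat_lit 0) (p (nat_lit 0x486850402) (nat_lit 0) (p (nat_lit 0x16000c) (nat_lit 0) (p (nat_lit 0x50612) (nat_lit 0) (p (nat_lit 0x38592) (nat_lit 0) (p (nat_lit 0x40492) (nat_lit 0) (p (nat_lit 0x28412) (nat_lit 0) (p (nat_lit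 0x30292) (nat_lit 0) (p (nat_lit 0x18212) (nat_lit 0) (p (nat_lit 0x20092) (nat_lit 0) (p (nat_lit 0x8012) (nat_lit 0) pn)))))))))))))))))))))))) :=
  Cl.node (nat_lit 0x101) (nat_lit 2) (by decide +kernel) (ClAll.succ (ClAll.succ ClAll.zero n61) s57)

def n92 : Cl (O (nat_lit 5)) (R (nat_lit 104577))
    (p (nat_lit 0x101) (nat_lit 0) (p (nat_lit 0x109) (nat_lit 0) (p (nat_lit 0xc9) (nat_lit 1) (p (nat_lit 0x89) (nat_lit 1) (p (nat_lit 0x41) (nat_lit 0) (p (nat_lit 0x10a090b098a9a) (nat_lit 0) (p (nat_lit 0x9888a890a1a) (nat_lit 0) (p (nat_lit 0x109080a08879a) (nat_lit 0) (p (nat_lit 0x8878988071a) (nat_lit 0) (p (nat_lit 0x8000000000800080907888a) (nat_lit 0) (p (nat_lit 0x8000000000800078887060a) (nat_lit 0) (p (nat_lit 0x10608068782) (nat_lit 0) (p (nat_lit 0x587860702) (nat_lit 0) (p (nat_lit 0x10507058482) (nat_lit 0) (p (nat_lit 0x486850402) (nat_lit 0) (p (nat_lit 0x16000c) (nat_lit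 0) (p (nat_lit 0x50612) (nat_lit 0) (p (nat_lit 0x38592) (nat_lit 0) (p (nat_lit 0x40492) (nat_lit 0) (p (nat_lit 0x28412) (nat_lit 0) (p (nat_lit 0x30292) (nat_lit 0) (p (nat_lit 0x18212) (nat_lit 0) (p (nat_lit 0x20092) (nat_lit 0) (p (nat_lit 0x8012) (nat_lit 0) pn)))))))))))))))))))))))) :=
  Cl.node (nat_lit 0x111) (nat_lit 2) (by decide +kernel) (ClAll.succ (ClAll.succ ClAll.zero n62) n63)

def n93 : Cl (O (nat_lit 5)) (R (nat_lit 104577))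
    (p (nat_lit 0x101) (nat_lit 0) (p (nat_lit 0x119) (nat_lit 0) (p (nat_lit 0xd1) (nat_lit 0) (p (nat_lit 0x81) (nat_lit 0) (p (nat_lit 0x41) (nat_lit 1) (p (nat_lit 0x10a090b098a9a) (nat_lit 0) (p (nat_lit 0x9888a890a1a) (nat_lit 0) (p (nat_lit 0x109080a08879a) (nat_lit 0) (p (nat_lit 0x8878988071a) (nat_lit 0) (p (nat_lit 0x8000000000800080907888a) (nat_lit 0) (p (nat_lit 0x8000000000800078887060a) (nat_lit 0) (p (nat_lit 0x10608068782) (nat_lit 0) (p (nat_lit 0x587860702) (nat_lit 0) (p (nat_lit 0x10507058482) (nat_lit 0) (p (nat_lit 0x486850402) (nat_lit 0) (p (nat_lit 0x16000c) (nat_lit 0) (p (nat_lit 0x50612) (nat_lit 0) (p (nat_lit 0x38592) (nat_lit 0) (p (nat_lit 0x40492) (nat_lit 0) (p (nat_lit 0x28412) (nat_lit 0) (p (nat_lit 0x30292) (nat_lit 0) (p (nat_lit 0x18212) (nat_lit 0) (p (nat_lit 0x20092) (nat_lit 0) (p (nat_lit 0x8012) (nat_lit 0) pn)))))))))))))))))))))))) :=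
  Cl.node (nat_lit 0x109) (nat_lit 2) (by decide +kernel) (ClAll.succ (ClAll.succ ClAll.zero s65) n64)

def n94 : Cl (O (nat_lit 5)) (R (nat_lit 104577))
    (p (nat_lit 0x101) (nat_lit 1) (p (nat_lit 0x119) (nat_lit 0) (p (nat_lit 0xd1) (nat_lit 0) (p (nat_lit 0x81) (nat_lit 0) (p (nat_lit 0x41) (nat_lit 1) (p (nat_lit 0x10a090b098a9a) (nat_lit 0) (p (nat_lit 0x9888a890a1a) (nat_lit 0) (p (nat_lit 0x109080a08879a) (nat_lit 0) (p (nat_lit 0x8878988071a) (nat_lit 0) (p (nat_lit 0x8000000000800080907888a) (nat_lit 0) (p (nat_lit 0x8000000000800078887060a) (nat_lit 0) (p (nat_lit 0x10608068782) (nat_lit 0) (p (nat_lit 0x587860702) (nat_lit 0) (p (nat_lit 0x10507058482) (nat_lit 0) (p (nat_lit 0x486850402) (nat_lit 0) (p (nat_lit 0x16000c) (nat_lit 0) (p (nat_lit 0x50612) (nat_lit 0) (p (nat_lit 0x38592) (nat_lit 0) (p (nat_lit 0x40492) (nat_lit 0) (p (nat_lit 0x28412) (nat_lit 0) (p (nat_lit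 0x30292) (nat_lit 0) (p (nat_lit 0x18212) (nat_lit 0) (p (nat_lit 0x20092) (nat_lit 0) (p (nat_lit 0x8012) (nat_lit 0) pn)))))))))))))))))))))))) :=
  Cl.node (nat_lit 0xc1) (nat_lit 2) (by decide +kernel) (ClAll.succ (ClAll.succ ClAll.zero n65) n66)

def n95 : Cl (O (nat_lit 5)) (R (nat_lit 104577))
    (p (nat_lit 0xc1) (nat_lit 0) (p (nat_lit 0x119) (nat_lit 1) (p (nat_lit 0xd1) (nat_lit 0) (p (nat_lit 0x81) (nat_lit 0) (p (nat_lit 0x41) (nat_lit 1) (p (nat_lit 0x10a090b098a9a) (nat_lit 0) (p (nat_lit 0x9888a890a1a) (nat_lit 0) (p (nat_lit 0x109080a08879a) (nat_lit 0) (p (nat_lit 0x8878988071a) (nat_lit 0) (p (nat_lit 0x8000000000800080907888a) (nat_lit 0) (p (nat_lit 0x8000000000800078887060a) (nat_lit 0) (p (nat_lit 0x10608068782) (nat_lit 0) (p (nat_lit 0x587860702) (nat_lit 0) (p (nat_lit 0x10507058482) (nat_lit 0) (p (nat_lit 0x486850402) (nat_lit 0) (p (nat_lit 0x16000c) (nat_lit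 0) (p (nat_lit 0x50612) (nat_lit 0) (p (nat_lit 0x38592) (nat_lit 0) (p (nat_lit 0x40492) (nat_lit 0) (p (nat_lit 0x28412) (nat_lit 0) (p (nat_lit 0x30292) (nat_lit 0) (p (nat_lit 0x18212) (nat_lit 0) (p (nat_lit 0x20092) (nat_lit 0) (p (nat_lit 0x8012) (nat_lit 0) pn)))))))))))))))))))))))) :=
  Cl.node (nat_lit 0xc9) (nat_lit 2) (by decide +kernel) (ClAll.succ (ClAll.succ ClAll.zero s77) n67)

def n96 : Cl (O (nat_lit 5)) (R (nat_lit 104577))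
    (p (nat_lit 0xc1) (nat_lit 1) (p (nat_lit 0x119) (nat_lit 1) (p (nat_lit 0xd1) (nat_lit 0) (p (nat_lit 0x81) (nat_lit 0) (p (nat_lit 0x41) (nat_lit 1) (p (nat_lit 0x10a090b098a9a) (nat_lit 0) (p (nat_lit 0x9888a890a1a) (nat_lit 0) (p (nat_lit 0x109080a08879a) (nat_lit 0) (p (nat_lit 0x8878988071a) (nat_lit 0) (p (nat_lit 0x8000000000800080907888a) (nat_lit 0) (p (nat_lit 0x8000000000800078887060a) (nat_lit 0) (p (nat_lit 0x10608068782) (nat_lit 0) (p (nat_lit 0x587860702) (nat_lit 0) (p (nat_lit 0x10507058482) (nat_lit 0) (p (nat_lit 0x486850402) (nat_lit 0) (p (nat_lit 0x16000c) (nat_lit 0) (p (nat_lit 0x50612) (nat_lit 0) (p (nat_lit 0x38592) (nat_lit 0) (p (nat_lit 0x40492) (nat_lit 0) (p (nat_lit 0x28412) (nat_lit 0) (p (nat_lit 0x30292) (nat_lit 0) (p (nat_lit 0x18212) (nat_lit 0) (p (nat_lit 0x20092) (nat_lit 0) (p (nat_lit 0x8012) (nat_lit 0) pn)))))))))))))))))))))))) :=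
  Cl.node (nat_lit 0x101) (nat_lit 2) (by decide +kernel) (ClAll.succ (ClAll.succ ClAll.zero n68) n69)

def n97 : Cl (O (nat_lit 5)) (R (nat_lit 104577))
    (p (nat_lit 0x101) (nat_lit 0) (p (nat_lit 0x111) (nat_lit 0) (p (nat_lit 0xd1) (nat_lit 1) (p (nat_lit 0x81) (nat_lit 0) (p (nat_lit 0x41) (nat_lit 1) (p (nat_lit 0x10a090b098a9a) (nat_lit 0) (p (nat_lit 0x9888a890a1a) (nat_lit 0) (p (nat_lit 0x109080a08879a) (nat_lit 0) (p (nat_lit 0x8878988071a) (nat_lit 0) (p (nat_lit 0x8000000000800080907888a) (nat_lit 0) (p (nat_lit 0x8000000000800078887060a) (nat_lit 0) (p (nat_lit 0x10608068782) (nat_lit 0) (p (nat_lit 0x587860702) (nat_lit 0) (p (nat_lit 0x10507058482) (nat_lit 0) (p (nat_lit 0x486850402) (nat_lit 0) (p (nat_lit 0x16000c) (nat_lit 0) (p (nat_lit 0x50612) (nat_lit 0) (p (nat_lit 0x38592) (nat_lit 0) (p (nat_lit 0x40492) (nat_lit 0) (p (nat_lit 0x28412) (nat_lit 0) (p (nat_lit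 0x30292) (nat_lit 0) (p (nat_lit 0x18212) (nat_lit 0) (p (nat_lit 0x20092) (nat_lit 0) (p (nat_lit 0x8012) (nat_lit 0) pn)))))))))))))))))))))))) :=
  Cl.node (nat_lit 0x109) (nat_lit 2) (by decide +kernel) (ClAll.succ (ClAll.succ ClAll.zero s88) n70)

def n98 : Cl (O (nat_lit 5)) (R (nat_lit 104577))
    (p (nat_lit 0x101) (nat_lit 1) (p (nat_lit 0x111) (nat_lit 0) (p (nat_lit 0xd1) (nat_lit 1) (p (nat_lit 0x81) (nat_lit 0) (p (nat_lit 0x41) (nat_lit 1) (p (nat_lit 0x10a090b098a9a) (nat_lit 0) (p (nat_lit 0x9888a890a1a) (nat_lit 0) (p (nat_lit 0x109080a08879a) (nat_lit 0) (p (nat_lit 0x8878988071a) (nat_lit 0) (p (nat_lit 0x8000000000800080907888a) (nat_lit 0) (p (nat_lit 0x8000000000800078887060a) (nat_lit 0) (p (nat_lit 0x10608068782) (nat_lit 0) (p (nat_lit 0x587860702) (nat_lit 0) (p (nat_lit 0x10507058482) (nat_lit 0) (p (nat_lit 0x486850402) (nat_lit 0) (p (nat_lit 0x16000c) (nat_lit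 0) (p (nat_lit 0x50612) (nat_lit 0) (p (nat_lit 0x38592) (nat_lit 0) (p (nat_lit 0x40492) (nat_lit 0) (p (nat_lit 0x28412) (nat_lit 0) (p (nat_lit 0x30292) (nat_lit 0) (p (nat_lit 0x18212) (nat_lit 0) (p (nat_lit 0x20092) (nat_lit 0) (p (nat_lit 0x8012) (nat_lit 0) pn)))))))))))))))))))))))) :=
  Cl.node (nat_lit 0x89) (nat_lit 2) (by decide +kernel) (ClAll.succ (ClAll.succ ClAll.zero n71) n72)

def n99 : Cl (O (nat_lit 5)) (R (nat_lit 104577))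
    (p (nat_lit 0x89) (nat_lit 1) (p (nat_lit 0x111) (nat_lit 1) (p (nat_lit 0xd1) (nat_lit 1) (p (nat_lit 0x81) (nat_lit 0) (p (nat_lit 0x41) (nat_lit 1) (p (nat_lit 0x10a090b098a9a) (nat_lit 0) (p (nat_lit 0x9888a890a1a) (nat_lit 0) (p (nat_lit 0x109080a08879a) (nat_lit 0) (p (nat_lit 0x8878988071a) (nat_lit 0) (p (nat_lit 0x8000000000800080907888a) (nat_lit 0) (p (nat_lit 0x8000000000800078887060a) (nat_lit 0) (p (nat_lit 0x10608068782) (nat_lit 0) (p (nat_lit 0x587860702) (nat_lit 0) (p (nat_lit 0x10507058482) (nat_lit 0) (p (nat_lit 0x486850402) (nat_lit 0) (p (nat_lit 0x16000c) (nat_lit 0) (p (nat_lit 0x50612) (nat_lit 0) (p (nat_lit 0x38592) (nat_lit 0) (p (nat_lit 0x40492) (nat_lit 0) (p (nat_lit 0x28412) (nat_lit 0) (p (nat_lit 0x30292) (nat_lit 0) (p (nat_lit 0x18212) (nat_lit 0) (p (nat_lit 0x20092) (nat_lit 0) (p (nat_lit 0x8012) (nat_lit 0) pn)))))))))))))))))))))))) :=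
  Cl.node (nat_lit 0xc9) (nat_lit 2) (by decide +kernel) (ClAll.succ (ClAll.succ ClAll.zero s101) n73)

def n100 : Cl (O (nat_lit 5)) (R (nat_lit 104577))
    (p (nat_lit 0x101) (nat_lit 0) (p (nat_lit 0x119) (nat_lit 0) (p (nat_lit 0xc1) (nat_lit 0) (p (nat_lit 0x81) (nat_lit 1) (p (nat_lit 0x41) (nat_lit 1) (p (nat_lit 0x10a090b098a9a) (nat_lit 0) (p (nat_lit 0x9888a890a1a) (nat_lit 0) (p (nat_lit 0x109080a08879a) (nat_lit 0) (p (nat_lit 0x8878988071a) (nat_lit 0) (p (nat_lit 0x8000000000800080907888a) (nat_lit 0) (p (nat_lit 0x8000000000800078887060a) (nat_lit 0) (p (nat_lit 0x10608068782) (nat_lit 0) (p (nat_lit 0x587860702) (nat_lit 0) (p (nat_lit 0x10507058482) (nat_lit 0) (p (nat_lit 0x486850402) (nat_lit 0) (p (nat_lit 0x16000c) (nat_lit 0) (p (nat_lit 0x50612) (nat_lit 0) (p (nat_lit 0x38592) (nat_lit 0) (p (nat_lit 0x40492) (nat_lit 0) (p (nat_lit 0x28412) (nat_lit 0) (p (nat_lit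 0x30292) (nat_lit 0) (p (nat_lit 0x18212) (nat_lit 0) (p (nat_lit 0x20092) (nat_lit 0) (p (nat_lit 0x8012) (nat_lit 0) pn)))))))))))))))))))))))) :=
  Cl.node (nat_lit 0x109) (nat_lit 2) (by decide +kernel) (ClAll.succ (ClAll.succ ClAll.zero n74) n75)

def n101 : Cl (O (nat_lit 5)) (R (nat_lit 104577))
    (p (nat_lit 0x101) (nat_lit 1) (p (nat_lit 0x119) (nat_lit 0) (p (nat_lit 0xc1) (nat_lit 0) (p (nat_lit 0x81) (nat_lit 1) (p (nat_lit 0x41) (nat_lit 1) (p (nat_lit 0x10a090b098a9a) (nat_lit 0) (p (nat_lit 0x9888a890a1a) (nat_lit 0) (p (nat_lit 0x109080a08879a) (nat_lit 0) (p (nat_lit 0x8878988071a) (nat_lit 0) (p (nat_lit 0x8000000000800080907888a) (nat_lit 0) (p (nat_lit 0x8000000000800078887060a) (nat_lit 0) (p (nat_lit 0x10608068782) (nat_lit 0) (p (nat_lit 0x587860702) (nat_lit 0) (p (nat_lit 0x10507058482) (nat_lit 0) (p (nat_lit 0x486850402) (nat_lit 0) (p (nat_lit 0x16000c)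 (nat_lit 0) (p (nat_lit 0x50612) (nat_lit 0) (p (nat_lit 0x38592) (nat_lit 0) (p (nat_lit 0x40492) (nat_lit 0) (p (nat_lit 0x28412) (nat_lit 0) (p (nat_lit 0x30292) (nat_lit 0) (p (nat_lit 0x18212) (nat_lit 0) (p (nat_lit 0x20092) (nat_lit 0) (p (nat_lit 0x8012) (nat_lit 0) pn)))))))))))))))))))))))) :=
  Cl.node (nat_lit 0xc9) (nat_lit 2) (by decide +kernel) (ClAll.succ (ClAll.succ ClAll.zero n76) n77)

def n102 : Cl (O (nat_lit 5)) (R (nat_lit 104577))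
    (p (nat_lit 0xc9) (nat_lit 0) (p (nat_lit 0x119) (nat_lit 1) (p (nat_lit 0xc1) (nat_lit 0) (p (nat_lit 0x81) (nat_lit 1) (p (nat_lit 0x41) (nat_lit 1) (p (nat_lit 0x10a090b098a9a) (nat_lit 0) (p (nat_lit 0x9888a890a1a) (nat_lit 0) (p (nat_lit 0x109080a08879a) (nat_lit 0) (p (nat_lit 0x8878988071a) (nat_lit 0) (p (nat_lit 0x8000000000800080907888a) (nat_lit 0) (p (nat_lit 0x8000000000800078887060a) (nat_lit 0) (p (nat_lit 0x10608068782) (nat_lit 0) (p (nat_lit 0x587860702) (nat_lit 0) (p (nat_lit 0x10507058482) (nat_lit 0) (p (nat_lit 0x486850402) (nat_lit 0) (p (nat_lit 0x16000c) (nat_lit 0) (p (nat_lit 0x50612) (nat_lit 0) (p (nat_lit 0x38592) (nat_lit 0) (p (nat_lit 0x40492) (nat_lit 0) (p (nat_lit 0x28412) (nat_lit 0) (p (nat_lit 0x30292) (nat_lit 0) (p (nat_lit 0x18212) (nat_lit 0) (p (nat_lit 0x20092) (nat_lit 0) (p (nat_lit 0x8012) (nat_lit 0) pn)))))))))))))))))))))))) :=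
  Cl.node (nat_lit 0xd1) (nat_lit 2) (by decide +kernel) (ClAll.succ (ClAll.succ ClAll.zero s119) n78)

def n103 : Cl (O (nat_lit 5)) (R (nat_lit 104577))
    (p (nat_lit 0xc9) (nat_lit 1) (p (nat_lit 0x119) (nat_lit 1) (p (nat_lit 0xc1) (nat_lit 0) (p (nat_lit 0x81) (nat_lit 1) (p (nat_lit 0x41) (nat_lit 1) (p (nat_lit 0x10a090b098a9a) (nat_lit 0) (p (nat_lit 0x9888a890a1a) (nat_lit 0) (p (nat_lit 0x109080a08879a) (nat_lit 0) (p (nat_lit 0x8878988071a) (nat_lit 0) (p (nat_lit 0x8000000000800080907888a) (nat_lit 0) (p (nat_lit 0x8000000000800078887060a) (nat_lit 0) (p (nat_lit 0x10608068782) (nat_lit 0) (p (nat_lit 0x587860702) (nat_lit 0) (p (nat_lit 0x10507058482) (nat_lit 0) (p (nat_lit 0x486850402) (nat_lit 0) (p (nat_lit 0x16000c) (nat_lit 0) (p (nat_lit 0x50612) (nat_lit 0) (p (nat_lit 0x38592) (nat_lit 0) (p (nat_lit 0x40492) (nat_lit 0) (p (nat_lit 0x28412) (nat_lit 0) (p (nat_lit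 0x30292) (nat_lit 0) (p (nat_lit 0x18212) (nat_lit 0) (p (nat_lit 0x20092) (nat_lit 0) (p (nat_lit 0x8012) (nat_lit 0) pn)))))))))))))))))))))))) :=
  Cl.node (nat_lit 0x109) (nat_lit 2) (by decide +kernel) (ClAll.succ (ClAll.succ ClAll.zero n79) s128)

def n104 : Cl (O (nat_lit 5)) (R (nat_lit 104577))
    (p (nat_lit 0x109) (nat_lit 0) (p (nat_lit 0x101) (nat_lit 0) (p (nat_lit 0xc1) (nat_lit 1) (p (nat_lit 0x81) (nat_lit 1) (p (nat_lit 0x41) (nat_lit 1) (p (nat_lit 0x10a090b098a9a) (nat_lit 0) (p (nat_lit 0x9888a890a1a) (nat_lit 0) (p (nat_lit 0x109080a08879a) (nat_lit 0) (p (nat_lit 0x8878988071a) (nat_lit 0) (p (nat_lit 0x8000000000800080907888a) (nat_lit 0) (p (nat_lit 0x8000000000800078887060a) (nat_lit 0) (p (nat_lit 0x10608068782) (nat_lit 0) (p (nat_lit 0x587860702) (nat_lit 0) (p (nat_lit 0x10507058482) (nat_lit 0) (p (nat_lit 0x486850402) (nat_lit 0) (p (nat_lit 0x16000c)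 (nat_lit 0) (p (nat_lit 0x50612) (nat_lit 0) (p (nat_lit 0x38592) (nat_lit 0) (p (nat_lit 0x40492) (nat_lit 0) (p (nat_lit 0x28412) (nat_lit 0) (p (nat_lit 0x30292) (nat_lit 0) (p (nat_lit 0x18212) (nat_lit 0) (p (nat_lit 0x20092) (nat_lit 0) (p (nat_lit 0x8012) (nat_lit 0) pn)))))))))))))))))))))))) :=
  Cl.node (nat_lit 0x111) (nat_lit 2) (by decide +kernel) (ClAll.succ (ClAll.succ ClAll.zero n80) s132)

def n105 : Cl (O (nat_lit 5)) (R (nat_lit 104577))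
    (p (nat_lit 0x119) (nat_lit 0) (p (nat_lit 0xd1) (nat_lit 0) (p (nat_lit 0x89) (nat_lit 0) (p (nat_lit 0x41) (nat_lit 0) (p (nat_lit 0x10a090b098a9a) (nat_lit 0) (p (nat_lit 0x9888a890a1a) (nat_lit 0) (p (nat_lit 0x109080a08879a) (nat_lit 0) (p (nat_lit 0x8878988071a) (nat_lit 0) (p (nat_lit 0x8000000000800080907888a) (nat_lit 0) (p (nat_lit 0x8000000000800078887060a) (nat_lit 0) (p (nat_lit 0x10608068782) (nat_lit 0) (p (nat_lit 0x587860702) (nat_lit 0) (p (nat_lit 0x10507058482) (nat_lit 0) (p (nat_lit 0x486850402) (nat_lit 0) (p (nat_lit 0x16000c) (nat_lit 0) (p (nat_lit 0x50612) (nat_lit 0) (p (nat_lit 0x38592) (nat_lit 0) (p (nat_lit 0x40492) (nat_lit 0) (p (nat_lit 0x28412) (nat_lit 0) (p (nat_lit 0x30292) (nat_lit 0) (p (nat_lit 0x18212) (nat_lit 0) (p (nat_lit 0x20092) (nat_lit 0) (p (nat_lit 0x8012) (nat_lit 0) pn))))))))))))))))))))))) :=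
  Cl.node (nat_lit 0x101) (nat_lit 2) (by decide +kernel) (ClAll.succ (ClAll.succ ClAll.zero n81) n82)

def n106 : Cl (O (nat_lit 5)) (R (nat_lit 104577))
    (p (nat_lit 0x119) (nat_lit 1) (p (nat_lit 0xd1) (nat_lit 0) (p (nat_lit 0x89) (nat_lit 0) (p (nat_lit 0x41) (nat_lit 0) (p (nat_lit 0x10a090b098a9a) (nat_lit 0) (p (nat_lit 0x9888a890a1a) (nat_lit 0) (p (nat_lit 0x109080a08879a) (nat_lit 0) (p (nat_lit 0x8878988071a) (nat_lit 0) (p (nat_lit 0x8000000000800080907888a) (nat_lit 0) (p (nat_lit 0x8000000000800078887060a) (nat_lit 0) (p (nat_lit 0x10608068782) (nat_lit 0) (p (nat_lit 0x587860702) (nat_lit 0) (p (nat_lit 0x10507058482) (nat_lit 0) (p (nat_lit 0x486850402) (nat_lit 0) (p (nat_lit 0x16000c) (nat_lit 0) (p (nat_lit 0x50612) (nat_lit 0) (p (nat_lit 0x38592) (nat_lit 0) (p (nat_lit 0x40492) (nat_lit 0) (p (nat_lit 0x28412) (nat_lit 0) (p (nat_lit 0x30292) (nat_lit 0) (p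 (nat_lit 0x18212) (nat_lit 0) (p (nat_lit 0x20092) (nat_lit 0) (p (nat_lit 0x8012) (nat_lit 0) pn))))))))))))))))))))))) :=
  Cl.node (nat_lit 0xc1) (nat_lit 2) (by decide +kernel) (ClAll.succ (ClAll.succ ClAll.zero n83) n84)

def n107 : Cl (O (nat_lit 5)) (R (nat_lit 104577))
    (p (nat_lit 0x111) (nat_lit 0) (p (nat_lit 0xd1) (nat_lit 1) (p (nat_lit 0x89) (nat_lit 0) (p (nat_lit 0x41) (nat_lit 0) (p (nat_lit 0x10a090b098a9a) (nat_lit 0) (p (nat_lit 0x9888a890a1a) (nat_lit 0) (p (nat_lit 0x109080a08879a) (nat_lit 0) (p (nat_lit 0x8878988071a) (nat_lit 0) (p (nat_lit 0x8000000000800080907888a) (nat_lit 0) (p (nat_lit 0x8000000000800078887060a) (nat_lit 0) (p (nat_lit 0x10608068782) (nat_lit 0) (p (nat_lit 0x587860702) (nat_lit 0) (p (nat_lit 0x10507058482) (nat_lit 0) (p (nat_lit 0x486850402) (nat_lit 0) (p (nat_lit 0x16000c) (nat_lit 0) (p (nat_lit 0x50612) (nat_lit 0) (p (nat_lit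 0x38592) (nat_lit 0) (p (nat_lit 0x40492) (nat_lit 0) (p (nat_lit 0x28412) (nat_lit 0) (p (nat_lit 0x30292) (nat_lit 0) (p (nat_lit 0x18212) (nat_lit 0) (p (nat_lit 0x20092) (nat_lit 0) (p (nat_lit 0x8012) (nat_lit 0) pn))))))))))))))))))))))) :=
  Cl.node (nat_lit 0x101) (nat_lit 2) (by decide +kernel) (ClAll.succ (ClAll.succ ClAll.zero n85) n86)

def n108 : Cl (O (nat_lit 5)) (R (nat_lit 104577))
    (p (nat_lit 0x111) (nat_lit 1) (p (nat_lit 0xd1) (nat_lit 1) (p (nat_lit 0x89) (nat_lit 0) (p (nat_lit 0x41) (nat_lit 0) (p (nat_lit 0x10a090b098a9a) (nat_lit 0) (p (nat_lit 0x9888a890a1a) (nat_lit 0) (p (nat_lit 0x109080a08879a) (nat_lit 0) (p (nat_lit 0x8878988071a) (nat_lit 0) (p (nat_lit 0x8000000000800080907888a) (nat_lit 0) (p (nat_lit 0x8000000000800078887060a) (nat_lit 0) (p (nat_lit 0x10608068782) (nat_lit 0) (p (nat_lit 0x587860702) (nat_lit 0) (p (nat_lit 0x10507058482) (nat_lit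 0) (p (nat_lit 0x486850402) (nat_lit 0) (p (nat_lit 0x16000c) (nat_lit 0) (p (nat_lit 0x50612) (nat_lit 0) (p (nat_lit 0x38592) (nat_lit 0) (p (nat_lit 0x40492) (nat_lit 0) (p (nat_lit 0x28412) (nat_lit 0) (p (nat_lit 0x30292) (nat_lit 0) (p (nat_lit 0x18212) (nat_lit 0) (p (nat_lit 0x20092) (nat_lit 0) (p (nat_lit 0x8012) (nat_lit 0) pn))))))))))))))))))))))) :=
  Cl.node (nat_lit 0x81) (nat_lit 2) (by decide +kernel) (ClAll.succ (ClAll.succ ClAll.zero s28) n87)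

def n109 : Cl (O (nat_lit 5)) (R (nat_lit 104577))
    (p (nat_lit 0x119) (nat_lit 0) (p (nat_lit 0xc9) (nat_lit 0) (p (nat_lit 0x89) (nat_lit 1) (p (nat_lit 0x41) (nat_lit 0) (p (nat_lit 0x10a090b098a9a) (nat_lit 0) (p (nat_lit 0x9888a890a1a) (nat_lit 0) (p (nat_lit 0x109080a08879a) (nat_lit 0) (p (nat_lit 0x8878988071a) (nat_lit 0) (p (nat_lit 0x8000000000800080907888a) (nat_lit 0) (p (nat_lit 0x8000000000800078887060a) (nat_lit 0) (p (nat_lit 0x10608068782) (nat_lit 0) (p (nat_lit 0x587860702) (nat_lit 0) (p (nat_lit 0x10507058482) (nat_lit 0) (p (nat_lit 0x486850402) (nat_lit 0) (p (nat_lit 0x16000c) (nat_lit 0) (p (nat_lit 0x50612) (nat_lit 0) (p (nat_lit 0x38592) (nat_lit 0) (p (nat_lit 0x40492) (nat_lit 0) (p (nat_lit 0x28412) (nat_lit 0) (p (nat_lit 0x30292) (nat_lit 0) (p (nat_lit 0x18212) (nat_lit 0) (p (nat_lit 0x20092) (nat_lit 0) (p (nat_lit 0x8012) (nat_lit 0) pn)))))))))))))))))))))))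 :=
  Cl.node (nat_lit 0x101) (nat_lit 2) (by decide +kernel) (ClAll.succ (ClAll.succ ClAll.zero n88) n89)

def n110 : Cl (O (nat_lit 5)) (R (nat_lit 104577))
    (p (nat_lit 0x119) (nat_lit 1) (p (nat_lit 0xc9) (nat_lit 0) (p (nat_lit 0x89) (nat_lit 1) (p (nat_lit 0x41) (nat_lit 0) (p (nat_lit 0x10a090b098a9a) (nat_lit 0) (p (nat_lit 0x9888a890a1a) (nat_lit 0) (p (nat_lit 0x109080a08879a) (nat_lit 0) (p (nat_lit 0x8878988071a) (nat_lit 0) (p (nat_lit 0x8000000000800080907888a) (nat_lit 0) (p (nat_lit 0x8000000000800078887060a) (nat_lit 0) (p (nat_lit 0x10608068782) (nat_lit 0) (p (nat_lit 0x587860702) (nat_lit 0) (p (nat_lit 0x10507058482) (nat_lit 0) (p (nat_lit 0x486850402) (nat_lit 0) (p (nat_lit 0x16000c) (nat_lit 0) (p (nat_lit 0x50612) (nat_lit 0) (p (nat_lit 0x38592) (nat_lit 0) (p (nat_lit 0x40492) (nat_lit 0) (p (nat_lit 0x28412) (nat_lit 0) (p (nat_lit 0x30292) (nat_lit 0)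 (p (nat_lit 0x18212) (nat_lit 0) (p (nat_lit 0x20092) (nat_lit 0) (p (nat_lit 0x8012) (nat_lit 0) pn))))))))))))))))))))))) :=
  Cl.node (nat_lit 0xc1) (nat_lit 2) (by decide +kernel) (ClAll.succ (ClAll.succ ClAll.zero n90) n91)

def n111 : Cl (O (nat_lit 5)) (R (nat_lit 104577))
    (p (nat_lit 0x109) (nat_lit 0) (p (nat_lit 0xc9) (nat_lit 1) (p (nat_lit 0x89) (nat_lit 1) (p (nat_lit 0x41) (nat_lit 0) (p (nat_lit 0x10a090b098a9a) (nat_lit 0) (p (nat_lit 0x9888a890a1a) (nat_lit 0) (p (nat_lit 0x109080a08879a) (nat_lit 0) (p (nat_lit 0x8878988071a) (nat_lit 0) (p (nat_lit 0x8000000000800080907888a) (nat_lit 0) (p (nat_lit 0x8000000000800078887060a) (nat_lit 0) (p (nat_lit 0x10608068782) (nat_lit 0) (p (nat_lit 0x587860702) (nat_lit 0) (p (nat_lit 0x10507058482) (nat_lit 0) (p (nat_lit 0x486850402) (nat_lit 0) (p (nat_lit 0x16000c) (nat_lit 0) (p (nat_lit 0x50612) (nat_lit 0) (p (nat_lit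 0x38592) (nat_lit 0) (p (nat_lit 0x40492) (nat_lit 0) (p (nat_lit 0x28412) (nat_lit 0) (p (nat_lit 0x30292) (nat_lit 0) (p (nat_lit 0x18212) (nat_lit 0) (p (nat_lit 0x20092) (nat_lit 0) (p (nat_lit 0x8012) (nat_lit 0) pn))))))))))))))))))))))) :=
  Cl.node (nat_lit 0x101) (nat_lit 2) (by decide +kernel) (ClAll.succ (ClAll.succ ClAll.zero n92) s63)

def n112 : Cl (O (nat_lit 5)) (R (nat_lit 104577))
    (p (nat_lit 0x119) (nat_lit 0) (p (nat_lit 0xd1) (nat_lit 0) (p (nat_lit 0x81) (nat_lit 0) (p (nat_lit 0x41) (nat_lit 1) (p (nat_lit 0x10a090b098a9a) (nat_lit 0) (p (nat_lit 0x9888a890a1a) (nat_lit 0) (p (nat_lit 0x109080a08879a) (nat_lit 0) (p (nat_lit 0x8878988071a) (nat_lit 0) (p (nat_lit 0x8000000000800080907888a) (nat_lit 0) (p (nat_lit 0x8000000000800078887060a) (nat_lit 0) (p (nat_lit 0x10608068782) (nat_lit 0) (p (nat_lit 0x587860702) (nat_lit 0) (p (nat_lit 0x10507058482) (nat_lit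 0) (p (nat_lit 0x486850402) (nat_lit 0) (p (nat_lit 0x16000c) (nat_lit 0) (p (nat_lit 0x50612) (nat_lit 0) (p (nat_lit 0x38592) (nat_lit 0) (p (nat_lit 0x40492) (nat_lit 0) (p (nat_lit 0x28412) (nat_lit 0) (p (nat_lit 0x30292) (nat_lit 0) (p (nat_lit 0x18212) (nat_lit 0) (p (nat_lit 0x20092) (nat_lit 0) (p (nat_lit 0x8012) (nat_lit 0) pn))))))))))))))))))))))) :=
  Cl.node (nat_lit 0x101) (nat_lit 2) (by decide +kernel) (ClAll.succ (ClAll.succ ClAll.zero n93) n94)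

def n113 : Cl (O (nat_lit 5)) (R (nat_lit 104577))
    (p (nat_lit 0x119) (nat_lit 1) (p (nat_lit 0xd1) (nat_lit 0) (p (nat_lit 0x81) (nat_lit 0) (p (nat_lit 0x41) (nat_lit 1) (p (nat_lit 0x10a090b098a9a) (nat_lit 0) (p (nat_lit 0x9888a890a1a) (nat_lit 0) (p (nat_lit 0x109080a08879a) (nat_lit 0) (p (nat_lit 0x8878988071a) (nat_lit 0) (p (nat_lit 0x8000000000800080907888a) (nat_lit 0) (p (nat_lit 0x8000000000800078887060a) (nat_lit 0) (p (nat_lit 0x10608068782) (nat_lit 0) (p (nat_lit 0x587860702) (nat_lit 0) (p (nat_lit 0x10507058482) (nat_lit 0) (p (nat_lit 0x486850402) (nat_lit 0) (p (nat_lit 0x16000c) (nat_lit 0) (p (nat_lit 0x50612) (nat_lit 0) (p (nat_lit 0x38592) (nat_lit 0) (p (nat_lit 0x40492) (nat_lit 0) (p (nat_lit 0x28412) (nat_lit 0) (p (nat_lit 0x30292) (nat_lit 0) (p (nat_lit 0x18212) (nat_lit 0) (p (nat_lit 0x20092) (nat_lit 0) (p (nat_lit 0x8012) (nat_lit 0) pn)))))))))))))))))))))))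 :=
  Cl.node (nat_lit 0xc1) (nat_lit 2) (by decide +kernel) (ClAll.succ (ClAll.succ ClAll.zero n95) n96)

def n114 : Cl (O (nat_lit 5)) (R (nat_lit 104577))
    (p (nat_lit 0x111) (nat_lit 0) (p (nat_lit 0xd1) (nat_lit 1) (p (nat_lit 0x81) (nat_lit 0) (p (nat_lit 0x41) (nat_lit 1) (p (nat_lit 0x10a090b098a9a) (nat_lit 0) (p (nat_lit 0x9888a890a1a) (nat_lit 0) (p (nat_lit 0x109080a08879a) (nat_lit 0) (p (nat_lit 0x8878988071a) (nat_lit 0) (p (nat_lit 0x8000000000800080907888a) (nat_lit 0) (p (nat_lit 0x8000000000800078887060a) (nat_lit 0) (p (nat_lit 0x10608068782) (nat_lit 0) (p (nat_lit 0x587860702) (nat_lit 0) (p (nat_lit 0x10507058482) (nat_lit 0) (p (nat_lit 0x486850402) (nat_lit 0) (p (nat_lit 0x16000c) (nat_lit 0) (p (nat_lit 0x50612) (nat_lit 0) (p (nat_lit 0x38592) (nat_lit 0) (p (nat_lit 0x40492) (nat_lit 0) (p (nat_lit 0x28412) (nat_lit 0) (p (nat_lit 0x30292) (nat_lit 0) (p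 (nat_lit 0x18212) (nat_lit 0) (p (nat_lit 0x20092) (nat_lit 0) (p (nat_lit 0x8012) (nat_lit 0) pn))))))))))))))))))))))) :=
  Cl.node (nat_lit 0x101) (nat_lit 2) (by decide +kernel) (ClAll.succ (ClAll.succ ClAll.zero n97) n98)

def n115 : Cl (O (nat_lit 5)) (R (nat_lit 104577))
    (p (nat_lit 0x111) (nat_lit 1) (p (nat_lit 0xd1) (nat_lit 1) (p (nat_lit 0x81) (nat_lit 0) (p (nat_lit 0x41) (nat_lit 1) (p (nat_lit 0x10a090b098a9a) (nat_lit 0) (p (nat_lit 0x9888a890a1a) (nat_lit 0) (p (nat_lit 0x109080a08879a) (nat_lit 0) (p (nat_lit 0x8878988071a) (nat_lit 0) (p (nat_lit 0x8000000000800080907888a) (nat_lit 0) (p (nat_lit 0x8000000000800078887060a) (nat_lit 0) (p (nat_lit 0x10608068782) (nat_lit 0) (p (nat_lit 0x587860702) (nat_lit 0) (p (nat_lit 0x10507058482) (nat_lit 0) (p (nat_lit 0x486850402) (nat_lit 0) (p (nat_lit 0x16000c) (nat_lit 0) (p (nat_lit 0x50612) (nat_lit 0) (p (nat_lit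 0x38592) (nat_lit 0) (p (nat_lit 0x40492) (nat_lit 0) (p (nat_lit 0x28412) (nat_lit 0) (p (nat_lit 0x30292) (nat_lit 0) (p (nat_lit 0x18212) (nat_lit 0) (p (nat_lit 0x20092) (nat_lit 0) (p (nat_lit 0x8012) (nat_lit 0) pn))))))))))))))))))))))) :=
  Cl.node (nat_lit 0x89) (nat_lit 2) (by decide +kernel) (ClAll.succ (ClAll.succ ClAll.zero s100) n99)

def n116 : Cl (O (nat_lit 5)) (R (nat_lit 104577))
    (p (nat_lit 0x119) (nat_lit 0) (p (nat_lit 0xc1) (nat_lit 0) (p (nat_lit 0x81) (nat_lit 1) (p (nat_lit 0x41) (nat_lit 1) (p (nat_lit 0x10a090b098a9a) (nat_lit 0) (p (nat_lit 0x9888a890a1a) (nat_lit 0) (p (nat_lit 0x109080a08879a) (nat_lit 0) (p (nat_lit 0x8878988071a) (nat_lit 0) (p (nat_lit 0x8000000000800080907888a) (nat_lit 0) (p (nat_lit 0x8000000000800078887060a) (nat_lit 0) (p (nat_lit 0x10608068782) (nat_lit 0) (p (nat_lit 0x587860702) (nat_lit 0) (p (nat_lit 0x10507058482) (nat_lit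 0) (p (nat_lit 0x486850402) (nat_lit 0) (p (nat_lit 0x16000c) (nat_lit 0) (p (nat_lit 0x50612) (nat_lit 0) (p (nat_lit 0x38592) (nat_lit 0) (p (nat_lit 0x40492) (nat_lit 0) (p (nat_lit 0x28412) (nat_lit 0) (p (nat_lit 0x30292) (nat_lit 0) (p (nat_lit 0x18212) (nat_lit 0) (p (nat_lit 0x20092) (nat_lit 0) (p (nat_lit 0x8012) (nat_lit 0) pn))))))))))))))))))))))) :=
  Cl.node (nat_lit 0x101) (nat_lit 2) (by decide +kernel) (ClAll.succ (ClAll.succ ClAll.zero n100) n101)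

def n117 : Cl (O (nat_lit 5)) (R (nat_lit 104577))
    (p (nat_lit 0x119) (nat_lit 1) (p (nat_lit 0xc1) (nat_lit 0) (p (nat_lit 0x81) (nat_lit 1) (p (nat_lit 0x41) (nat_lit 1) (p (nat_lit 0x10a090b098a9a) (nat_lit 0) (p (nat_lit 0x9888a890a1a) (nat_lit 0) (p (nat_lit 0x109080a08879a) (nat_lit 0) (p (nat_lit 0x8878988071a) (nat_lit 0) (p (nat_lit 0x8000000000800080907888a) (nat_lit 0) (p (nat_lit 0x8000000000800078887060a) (nat_lit 0) (p (nat_lit 0x10608068782) (nat_lit 0) (p (nat_lit 0x587860702) (nat_lit 0) (p (nat_lit 0x10507058482) (nat_lit 0) (p (nat_lit 0x486850402) (nat_lit 0) (p (nat_lit 0x16000c) (nat_lit 0) (p (nat_lit 0x50612) (nat_lit 0) (p (nat_lit 0x38592) (nat_lit 0) (p (nat_lit 0x40492) (nat_lit 0) (p (nat_lit 0x28412) (nat_lit 0) (p (nat_lit 0x30292) (nat_lit 0) (p (nat_lit 0x18212) (nat_lit 0) (p (nat_lit 0x20092) (nat_lit 0) (p (nat_lit 0x8012) (nat_lit 0) pn)))))))))))))))))))))))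 :=
  Cl.node (nat_lit 0xc9) (nat_lit 2) (by decide +kernel) (ClAll.succ (ClAll.succ ClAll.zero n102) n103)

def n118 : Cl (O (nat_lit 5)) (R (nat_lit 104577))
    (p (nat_lit 0x101) (nat_lit 0) (p (nat_lit 0xc1) (nat_lit 1) (p (nat_lit 0x81) (nat_lit 1) (p (nat_lit 0x41) (nat_lit 1) (p (nat_lit 0x10a090b098a9a) (nat_lit 0) (p (nat_lit 0x9888a890a1a) (nat_lit 0) (p (nat_lit 0x109080a08879a) (nat_lit 0) (p (nat_lit 0x8878988071a) (nat_lit 0) (p (nat_lit 0x8000000000800080907888a) (nat_lit 0) (p (nat_lit 0x8000000000800078887060a) (nat_lit 0) (p (nat_lit 0x10608068782) (nat_lit 0) (p (nat_lit 0x587860702) (nat_lit 0) (p (nat_lit 0x10507058482) (nat_lit 0) (p (nat_lit 0x486850402) (nat_lit 0) (p (nat_lit 0x16000c) (nat_lit 0) (p (nat_lit 0x50612) (nat_lit 0) (p (nat_lit 0x38592) (nat_lit 0) (p (nat_lit 0x40492) (nat_lit 0) (p (nat_lit 0x28412) (nat_lit 0) (p (nat_lit 0x30292) (nat_lit 0)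 (p (nat_lit 0x18212) (nat_lit 0) (p (nat_lit 0x20092) (nat_lit 0) (p (nat_lit 0x8012) (nat_lit 0) pn))))))))))))))))))))))) :=
  Cl.node (nat_lit 0x109) (nat_lit 2) (by decide +kernel) (ClAll.succ (ClAll.succ ClAll.zero n104) s133)

def n119 : Cl (O (nat_lit 5)) (R (nat_lit 104577))
    (p (nat_lit 0xd1) (nat_lit 0) (p (nat_lit 0x89) (nat_lit 0) (p (nat_lit 0x41) (nat_lit 0) (p (nat_lit 0x10a090b098a9a) (nat_lit 0) (p (nat_lit 0x9888a890a1a) (nat_lit 0) (p (nat_lit 0x109080a08879a) (nat_lit 0) (p (nat_lit 0x8878988071a) (nat_lit 0) (p (nat_lit 0x8000000000800080907888a) (nat_lit 0) (p (nat_lit 0x8000000000800078887060a) (nat_lit 0) (p (nat_lit 0x10608068782) (nat_lit 0) (p (nat_lit 0x587860702) (nat_lit 0) (p (nat_lit 0x10507058482) (nat_lit 0) (p (nat_lit 0x486850402) (nat_lit 0) (p (nat_lit 0x16000c) (nat_lit 0) (p (nat_lit 0x50612) (nat_lit 0) (p (nat_lit 0x38592) (nat_lit 0) (p (nat_lit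 0x40492) (nat_lit 0) (p (nat_lit 0x28412) (nat_lit 0) (p (nat_lit 0x30292) (nat_lit 0) (p (nat_lit 0x18212) (nat_lit 0) (p (nat_lit 0x20092) (nat_lit 0) (p (nat_lit 0x8012) (nat_lit 0) pn)))))))))))))))))))))) :=
  Cl.node (nat_lit 0x119) (nat_lit 2) (by decide +kernel) (ClAll.succ (ClAll.succ ClAll.zero n105) n106)

def n120 : Cl (O (nat_lit 5)) (R (nat_lit 104577))
    (p (nat_lit 0xd1) (nat_lit 1) (p (nat_lit 0x89) (nat_lit 0) (p (nat_lit 0x41) (nat_lit 0) (p (nat_lit 0x10a090b098a9a) (nat_lit 0) (p (nat_lit 0x9888a890a1a) (nat_lit 0) (p (nat_lit 0x109080a08879a) (nat_lit 0) (p (nat_lit 0x8878988071a) (nat_lit 0) (p (nat_lit 0x8000000000800080907888a) (nat_lit 0) (p (nat_lit 0x8000000000800078887060a) (nat_lit 0) (p (nat_lit 0x10608068782) (nat_lit 0) (p (nat_lit 0x587860702) (nat_lit 0) (p (nat_lit 0x10507058482) (nat_lit 0) (p (nat_lit 0x486850402) (nat_lit 0) (p (nat_lit 0x16000c)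 (nat_lit 0) (p (nat_lit 0x50612) (nat_lit 0) (p (nat_lit 0x38592) (nat_lit 0) (p (nat_lit 0x40492) (nat_lit 0) (p (nat_lit 0x28412) (nat_lit 0) (p (nat_lit 0x30292) (nat_lit 0) (p (nat_lit 0x18212) (nat_lit 0) (p (nat_lit 0x20092) (nat_lit 0) (p (nat_lit 0x8012) (nat_lit 0) pn)))))))))))))))))))))) :=
  Cl.node (nat_lit 0x111) (nat_lit 2) (by decide +kernel) (ClAll.succ (ClAll.succ ClAll.zero n107) n108)

def n121 : Cl (O (nat_lit 5)) (R (nat_lit 104577))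
    (p (nat_lit 0xc9) (nat_lit 0) (p (nat_lit 0x89) (nat_lit 1) (p (nat_lit 0x41) (nat_lit 0) (p (nat_lit 0x10a090b098a9a) (nat_lit 0) (p (nat_lit 0x9888a890a1a) (nat_lit 0) (p (nat_lit 0x109080a08879a) (nat_lit 0) (p (nat_lit 0x8878988071a) (nat_lit 0) (p (nat_lit 0x8000000000800080907888a) (nat_lit 0) (p (nat_lit 0x8000000000800078887060a) (nat_lit 0) (p (nat_lit 0x10608068782) (nat_lit 0) (p (nat_lit 0x587860702) (nat_lit 0) (p (nat_lit 0x10507058482) (nat_lit 0) (p (nat_lit 0x486850402) (nat_lit 0) (p (nat_lit 0x16000c) (nat_lit 0) (p (nat_lit 0x50612) (nat_lit 0) (p (nat_lit 0x38592) (nat_lit 0) (p (nat_lit 0x40492) (nat_lit 0) (p (nat_lit 0x28412) (nat_lit 0) (p (nat_lit 0x30292) (nat_lit 0) (p (nat_lit 0x18212) (nat_lit 0) (p (nat_lit 0x20092) (nat_lit 0) (p (nat_lit 0x8012) (nat_lit 0) pn)))))))))))))))))))))) :=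
  Cl.node (nat_lit 0x119) (nat_lit 2) (by decide +kernel) (ClAll.succ (ClAll.succ ClAll.zero n109) n110)

def n122 : Cl (O (nat_lit 5)) (R (nat_lit 104577))
    (p (nat_lit 0xc9) (nat_lit 1) (p (nat_lit 0x89) (nat_lit 1) (p (nat_lit 0x41) (nat_lit 0) (p (nat_lit 0x10a090b098a9a) (nat_lit 0) (p (nat_lit 0x9888a890a1a) (nat_lit 0) (p (nat_lit 0x109080a08879a) (nat_lit 0) (p (nat_lit 0x8878988071a) (nat_lit 0) (p (nat_lit 0x8000000000800080907888a) (nat_lit 0) (p (nat_lit 0x8000000000800078887060a) (nat_lit 0) (p (nat_lit 0x10608068782) (nat_lit 0) (p (nat_lit 0x587860702) (nat_lit 0) (p (nat_lit 0x10507058482) (nat_lit 0) (p (nat_lit 0x486850402) (nat_lit 0) (p (nat_lit 0x16000c) (nat_lit 0) (p (nat_lit 0x50612) (nat_lit 0) (p (nat_lit 0x38592) (nat_lit 0) (p (nat_lit 0x40492) (nat_lit 0) (p (nat_lit 0x28412) (nat_lit 0) (p (nat_lit 0x30292) (nat_lit 0) (p (nat_lit 0x18212) (nat_lit 0)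 (p (nat_lit 0x20092) (nat_lit 0) (p (nat_lit 0x8012) (nat_lit 0) pn)))))))))))))))))))))) :=
  Cl.node (nat_lit 0x109) (nat_lit 2) (by decide +kernel) (ClAll.succ (ClAll.succ ClAll.zero n111) s64)

def n123 : Cl (O (nat_lit 5)) (R (nat_lit 104577))
    (p (nat_lit 0xd1) (nat_lit 0) (p (nat_lit 0x81) (nat_lit 0) (p (nat_lit 0x41) (nat_lit 1) (p (nat_lit 0x10a090b098a9a) (nat_lit 0) (p (nat_lit 0x9888a890a1a) (nat_lit 0) (p (nat_lit 0x109080a08879a) (nat_lit 0) (p (nat_lit 0x8878988071a) (nat_lit 0) (p (nat_lit 0x8000000000800080907888a) (nat_lit 0) (p (nat_lit 0x8000000000800078887060a) (nat_lit 0) (p (nat_lit 0x10608068782) (nat_lit 0) (p (nat_lit 0x587860702) (nat_lit 0) (p (nat_lit 0x10507058482) (nat_lit 0) (p (nat_lit 0x486850402) (nat_lit 0) (p (nat_lit 0x16000c) (nat_lit 0) (p (nat_lit 0x50612) (nat_lit 0) (p (nat_lit 0x38592) (nat_lit 0) (p (nat_lit 0x40492) (nat_lit 0) (p (nat_lit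 0x28412) (nat_lit 0) (p (nat_lit 0x30292) (nat_lit 0) (p (nat_lit 0x18212) (nat_lit 0) (p (nat_lit 0x20092) (nat_lit 0) (p (nat_lit 0x8012) (nat_lit 0) pn)))))))))))))))))))))) :=
  Cl.node (nat_lit 0x119) (nat_lit 2) (by decide +kernel) (ClAll.succ (ClAll.succ ClAll.zero n112) n113)

def n124 : Cl (O (nat_lit 5)) (R (nat_lit 104577))
    (p (nat_lit 0xd1) (nat_lit 1) (p (nat_lit 0x81) (nat_lit 0) (p (nat_lit 0x41) (nat_lit 1) (p (nat_lit 0x10a090b098a9a) (nat_lit 0) (p (nat_lit 0x9888a890a1a) (nat_lit 0) (p (nat_lit 0x109080a08879a) (nat_lit 0) (p (nat_lit 0x8878988071a) (nat_lit 0) (p (nat_lit 0x8000000000800080907888a) (nat_lit 0) (p (nat_lit 0x8000000000800078887060a) (nat_lit 0) (p (nat_lit 0x10608068782) (nat_lit 0) (p (nat_lit 0x587860702) (nat_lit 0) (p (nat_lit 0x10507058482) (nat_lit 0) (p (nat_lit 0x486850402) (nat_lit 0) (p (nat_lit 0x16000c) (nat_lit 0) (p (nat_lit 0x50612)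 (nat_lit 0) (p (nat_lit 0x38592) (nat_lit 0) (p (nat_lit 0x40492) (nat_lit 0) (p (nat_lit 0x28412) (nat_lit 0) (p (nat_lit 0x30292) (nat_lit 0) (p (nat_lit 0x18212) (nat_lit 0) (p (nat_lit 0x20092) (nat_lit 0) (p (nat_lit 0x8012) (nat_lit 0) pn)))))))))))))))))))))) :=
  Cl.node (nat_lit 0x111) (nat_lit 2) (by decide +kernel) (ClAll.succ (ClAll.succ ClAll.zero n114) n115)

def n125 : Cl (O (nat_lit 5)) (R (nat_lit 104577))
    (p (nat_lit 0xc1) (nat_lit 0) (p (nat_lit 0x81) (nat_lit 1) (p (nat_lit 0x41) (nat_lit 1) (p (nat_lit 0x10a090b098a9a) (nat_lit 0) (p (nat_lit 0x9888a890a1a) (nat_lit 0) (p (nat_lit 0x109080a08879a) (nat_lit 0) (p (nat_lit 0x8878988071a) (nat_lit 0) (p (nat_lit 0x8000000000800080907888a) (nat_lit 0) (p (nat_lit 0x8000000000800078887060a) (nat_lit 0) (p (nat_lit 0x10608068782) (nat_lit 0) (p (nat_lit 0x587860702) (nat_lit 0) (p (nat_lit 0x10507058482) (nat_lit 0)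 (p (nat_lit 0x486850402) (nat_lit 0) (p (nat_lit 0x16000c) (nat_lit 0) (p (nat_lit 0x50612) (nat_lit 0) (p (nat_lit 0x38592) (nat_lit 0) (p (nat_lit 0x40492) (nat_lit 0) (p (nat_lit 0x28412) (nat_lit 0) (p (nat_lit 0x30292) (nat_lit 0) (p (nat_lit 0x18212) (nat_lit 0) (p (nat_lit 0x20092) (nat_lit 0) (p (nat_lit 0x8012) (nat_lit 0) pn)))))))))))))))))))))) :=
  Cl.node (nat_lit 0x119) (nat_lit 2) (by decide +kernel) (ClAll.succ (ClAll.succ ClAll.zero n116) n117)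

def n126 : Cl (O (nat_lit 5)) (R (nat_lit 104577))
    (p (nat_lit 0xc1) (nat_lit 1) (p (nat_lit 0x81) (nat_lit 1) (p (nat_lit 0x41) (nat_lit 1) (p (nat_lit 0x10a090b098a9a) (nat_lit 0) (p (nat_lit 0x9888a890a1a) (nat_lit 0) (p (nat_lit 0x109080a08879a) (nat_lit 0) (p (nat_lit 0x8878988071a) (nat_lit 0) (p (nat_lit 0x8000000000800080907888a) (nat_lit 0) (p (nat_lit 0x8000000000800078887060a) (nat_lit 0) (p (nat_lit 0x10608068782) (nat_lit 0) (p (nat_lit 0x587860702) (nat_lit 0) (p (nat_lit 0x10507058482) (nat_lit 0) (p (nat_lit 0x486850402) (nat_lit 0) (p (nat_lit 0x16000c) (nat_lit 0) (p (nat_lit 0x50612) (nat_lit 0) (p (nat_lit 0x38592) (nat_lit 0) (p (nat_lit 0x40492) (nat_lit 0) (p (nat_lit 0x28412) (nat_lit 0) (p (nat_lit 0x30292) (nat_lit 0) (p (nat_lit 0x18212) (nat_lit 0) (p (nat_lit 0x20092) (nat_lit 0) (p (nat_lit 0x8012) (nat_lit 0) pn)))))))))))))))))))))) :=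
  Cl.node (nat_lit 0x101) (nat_lit 2) (by decide +kernel) (ClAll.succ (ClAll.succ ClAll.zero n118) s134)

def n127 : Cl (O (nat_lit 5)) (R (nat_lit 104577))
    (p (nat_lit 0x89) (nat_lit 0) (p (nat_lit 0x41) (nat_lit 0) (p (nat_lit 0x10a090b098a9a) (nat_lit 0) (p (nat_lit 0x9888a890a1a) (nat_lit 0) (p (nat_lit 0x109080a08879a) (nat_lit 0) (p (nat_lit 0x8878988071a) (nat_lit 0) (p (nat_lit 0x8000000000800080907888a) (nat_lit 0) (p (nat_lit 0x8000000000800078887060a) (nat_lit 0) (p (nat_lit 0x10608068782) (nat_lit 0) (p (nat_lit 0x587860702) (nat_lit 0) (p (nat_lit 0x10507058482) (nat_lit 0) (p (nat_lit 0x486850402) (nat_lit 0) (p (nat_lit 0x16000c) (nat_lit 0) (p (nat_lit 0x50612) (nat_lit 0) (p (nat_lit 0x38592) (nat_lit 0) (p (nat_lit 0x40492) (nat_lit 0) (p (nat_lit 0x28412) (nat_lit 0) (p (nat_lit 0x30292) (nat_lit 0) (p (nat_lit 0x18212) (nat_lit 0) (p (nat_lit 0x20092) (nat_lit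 0) (p (nat_lit 0x8012) (nat_lit 0) pn))))))))))))))))))))) :=
  Cl.node (nat_lit 0xd1) (nat_lit 2) (by decide +kernel) (ClAll.succ (ClAll.succ ClAll.zero n119) n120)

def n128 : Cl (O (nat_lit 5)) (R (nat_lit 104577))
    (p (nat_lit 0x89) (nat_lit 1) (p (nat_lit 0x41) (nat_lit 0) (p (nat_lit 0x10a090b098a9a) (nat_lit 0) (p (nat_lit 0x9888a890a1a) (nat_lit 0) (p (nat_lit 0x109080a08879a) (nat_lit 0) (p (nat_lit 0x8878988071a) (nat_lit 0) (p (nat_lit 0x8000000000800080907888a) (nat_lit 0) (p (nat_lit 0x8000000000800078887060a) (nat_lit 0) (p (nat_lit 0x10608068782) (nat_lit 0) (p (nat_lit 0x587860702) (nat_lit 0) (p (nat_lit 0x10507058482) (nat_lit 0) (p (nat_lit 0x486850402) (nat_lit 0) (p (nat_lit 0x16000c) (nat_lit 0) (p (nat_lit 0x50612) (nat_lit 0) (p (nat_lit 0x38592) (nat_lit 0) (p (nat_lit 0x40492) (nat_lit 0) (p (nat_lit 0x28412) (nat_lit 0) (p (nat_lit 0x30292) (nat_lit 0) (p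 (nat_lit 0x18212) (nat_lit 0) (p (nat_lit 0x20092) (nat_lit 0) (p (nat_lit 0x8012) (nat_lit 0) pn))))))))))))))))))))) :=
  Cl.node (nat_lit 0xc9) (nat_lit 2) (by decide +kernel) (ClAll.succ (ClAll.succ ClAll.zero n121) n122)

def n129 : Cl (O (nat_lit 5)) (R (nat_lit 104577))
    (p (nat_lit 0x81) (nat_lit 0) (p (nat_lit 0x41) (nat_lit 1) (p (nat_lit 0x10a090b098a9a) (nat_lit 0) (p (nat_lit 0x9888a890a1a) (nat_lit 0) (p (nat_lit 0x109080a08879a) (nat_lit 0) (p (nat_lit 0x8878988071a) (nat_lit 0) (p (nat_lit 0x8000000000800080907888a) (nat_lit 0) (p (nat_lit 0x8000000000800078887060a) (nat_lit 0) (p (nat_lit 0x10608068782) (nat_lit 0) (p (nat_lit 0x587860702) (nat_lit 0) (p (nat_lit 0x10507058482) (nat_lit 0) (p (nat_lit 0x486850402) (nat_lit 0) (p (nat_lit 0x16000c) (nat_lit 0) (p (nat_lit 0x50612) (nat_lit 0) (p (nat_lit 0x38592) (nat_lit 0) (p (nat_lit 0x40492) (nat_lit 0) (p (nat_lit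 0x28412) (nat_lit 0) (p (nat_lit 0x30292) (nat_lit 0) (p (nat_lit 0x18212) (nat_lit 0) (p (nat_lit 0x20092) (nat_lit 0) (p (nat_lit 0x8012) (nat_lit 0) pn))))))))))))))))))))) :=
  Cl.node (nat_lit 0xd1) (nat_lit 2) (by decide +kernel) (ClAll.succ (ClAll.succ ClAll.zero n123) n124)

def n130 : Cl (O (nat_lit 5)) (R (nat_lit 104577))
    (p (nat_lit 0x81) (nat_lit 1) (p (nat_lit 0x41) (nat_lit 1) (p (nat_lit 0x10a090b098a9a) (nat_lit 0) (p (nat_lit 0x9888a890a1a) (nat_lit 0) (p (nat_lit 0x109080a08879a) (nat_lit 0) (p (nat_lit 0x8878988071a) (nat_lit 0) (p (nat_lit 0x8000000000800080907888a) (nat_lit 0) (p (nat_lit 0x8000000000800078887060a) (nat_lit 0) (p (nat_lit 0x10608068782) (nat_lit 0) (p (nat_lit 0x587860702) (nat_lit 0) (p (nat_lit 0x10507058482) (nat_lit 0) (p (nat_lit 0x486850402) (nat_lit 0) (p (nat_lit 0x16000c) (nat_lit 0) (p (nat_lit 0x50612) (nat_lit 0) (p (nat_lit 0x38592)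 (nat_lit 0) (p (nat_lit 0x40492) (nat_lit 0) (p (nat_lit 0x28412) (nat_lit 0) (p (nat_lit 0x30292) (nat_lit 0) (p (nat_lit 0x18212) (nat_lit 0) (p (nat_lit 0x20092) (nat_lit 0) (p (nat_lit 0x8012) (nat_lit 0) pn))))))))))))))))))))) :=
  Cl.node (nat_lit 0xc1) (nat_lit 2) (by decide +kernel) (ClAll.succ (ClAll.succ ClAll.zero n125) n126)

def n131 : Cl (O (nat_lit 5)) (R (nat_lit 104577))
    (p (nat_lit 0x41) (nat_lit 0) (p (nat_lit 0x10a090b098a9a) (nat_lit 0) (p (nat_lit 0x9888a890a1a) (nat_lit 0) (p (nat_lit 0x109080a08879a) (nat_lit 0) (p (nat_lit 0x8878988071a) (nat_lit 0) (p (nat_lit 0x8000000000800080907888a) (nat_lit 0) (p (nat_lit 0x8000000000800078887060a) (nat_lit 0) (p (nat_lit 0x10608068782) (nat_lit 0) (p (nat_lit 0x587860702) (nat_lit 0) (p (nat_lit 0x10507058482) (nat_lit 0) (p (nat_lit 0x486850402) (nat_lit 0) (p (nat_lit 0x16000c) (nat_lit 0) (p (nat_lit 0x50612) (nat_lit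 0) (p (nat_lit 0x38592) (nat_lit 0) (p (nat_lit 0x40492) (nat_lit 0) (p (nat_lit 0x28412) (nat_lit 0) (p (nat_lit 0x30292) (nat_lit 0) (p (nat_lit 0x18212) (nat_lit 0) (p (nat_lit 0x20092) (nat_lit 0) (p (nat_lit 0x8012) (nat_lit 0) pn)))))))))))))))))))) :=
  Cl.node (nat_lit 0x89) (nat_lit 2) (by decide +kernel) (ClAll.succ (ClAll.succ ClAll.zero n127) n128)

def n132 : Cl (O (nat_lit 5)) (R (nat_lit 104577))
    (p (nat_lit 0x41) (nat_lit 1) (p (nat_lit 0x10a090b098a9a) (nat_lit 0) (p (nat_lit 0x9888a890a1a) (nat_lit 0) (p (nat_lit 0x109080a08879a) (nat_lit 0) (p (nat_lit 0x8878988071a) (nat_lit 0) (p (nat_lit 0x8000000000800080907888a) (nat_lit 0) (p (nat_lit 0x8000000000800078887060a) (nat_lit 0) (p (nat_lit 0x10608068782) (nat_lit 0) (p (nat_lit 0x587860702) (nat_lit 0) (p (nat_lit 0x10507058482) (nat_lit 0) (p (nat_lit 0x486850402) (nat_lit 0) (p (nat_lit 0x16000c) (nat_lit 0)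 (p (nat_lit 0x50612) (nat_lit 0) (p (nat_lit 0x38592) (nat_lit 0) (p (nat_lit 0x40492) (nat_lit 0) (p (nat_lit 0x28412) (nat_lit 0) (p (nat_lit 0x30292) (nat_lit 0) (p (nat_lit 0x18212) (nat_lit 0) (p (nat_lit 0x20092) (nat_lit 0) (p (nat_lit 0x8012) (nat_lit 0) pn)))))))))))))))))))) :=
  Cl.node (nat_lit 0x81) (nat_lit 2) (by decide +kernel) (ClAll.succ (ClAll.succ ClAll.zero n129) n130)

def n133 : Cl (O (nat_lit 5)) (R (nat_lit 104577))
    (p (nat_lit 0x10a090b098a9a) (nat_lit 0) (p (nat_lit 0x9888a890a1a) (nat_lit 0) (p (nat_lit 0x109080a08879a) (nat_lit 0) (p (nat_lit 0x8878988071a) (nat_lit 0) (p (nat_lit 0x8000000000800080907888a) (nat_lit 0) (p (nat_lit 0x8000000000800078887060a) (nat_lit 0) (p (nat_lit 0x10608068782) (nat_lit 0) (p (nat_lit 0x587860702) (nat_lit 0) (p (nat_lit 0x10507058482) (nat_lit 0) (p (nat_lit 0x486850402) (nat_lit 0) (p (nat_lit 0x16000c) (nat_lit 0)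 (p (nat_lit 0x50612) (nat_lit 0) (p (nat_lit 0x38592) (nat_lit 0) (p (nat_lit 0x40492) (nat_lit 0) (p (nat_lit 0x28412) (nat_lit 0) (p (nat_lit 0x30292) (nat_lit 0) (p (nat_lit 0x18212) (nat_lit 0) (p (nat_lit 0x20092) (nat_lit 0) (p (nat_lit 0x8012) (nat_lit 0) pn))))))))))))))))))) :=
  Cl.node (nat_lit 0x41) (nat_lit 2) (by decide +kernel) (ClAll.succ (ClAll.succ ClAll.zero n131) n132)

def n134 : Cl (O (nat_lit 5)) (R (nat_lit 104577))
    (p (nat_lit 0x9888a890a1a) (nat_lit 0) (p (nat_lit 0x109080a08879a) (nat_lit 0) (p (nat_lit 0x8878988071a) (nat_lit 0) (p (nat_lit 0x8000000000800080907888a) (nat_lit 0) (p (nat_lit 0x8000000000800078887060a) (nat_lit 0) (p (nat_lit 0x10608068782) (nat_lit 0) (p (nat_lit 0x587860702) (nat_lit 0) (p (nat_lit 0x10507058482) (nat_lit 0) (p (nat_lit 0x486850402) (nat_lit 0) (p (nat_lit 0x16000c) (nat_lit 0) (p (nat_lit 0x50612) (nat_lit 0) (p (nat_lit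 0x38592) (nat_lit 0) (p (nat_lit 0x40492) (nat_lit 0) (p (nat_lit 0x28412) (nat_lit 0) (p (nat_lit 0x30292) (nat_lit 0) (p (nat_lit 0x18212) (nat_lit 0) (p (nat_lit 0x20092) (nat_lit 0) (p (nat_lit 0x8012) (nat_lit 0) pn)))))))))))))))))) :=
  Cl.node (nat_lit 0x10a090b098a9a) (nat_lit 1) (by decide +kernel) (ClAll.succ ClAll.zero n133)

def n135 : Cl (O (nat_lit 5)) (R (nat_lit 104577))
    (p (nat_lit 0x109080a08879a) (nat_lit 0) (p (nat_lit 0x8878988071a) (nat_lit 0) (p (nat_lit 0x8000000000800080907888a) (nat_lit 0) (p (nat_lit 0x8000000000800078887060a) (nat_lit 0) (p (nat_lit 0x10608068782) (nat_lit 0) (p (nat_lit 0x587860702) (nat_lit 0) (p (nat_lit 0x10507058482) (nat_lit 0) (p (nat_lit 0x486850402) (nat_lit 0) (p (nat_lit 0x16000c) (nat_lit 0) (p (nat_lit 0x50612) (nat_lit 0) (p (nat_lit 0x38592) (nat_lit 0) (p (nat_lit 0x40492) (nat_lit 0) (p (nat_lit 0x28412) (nat_lit 0) (p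 (nat_lit 0x30292) (nat_lit 0) (p (nat_lit 0x18212) (nat_lit 0) (p (nat_lit 0x20092) (nat_lit 0) (p (nat_lit 0x8012) (nat_lit 0) pn))))))))))))))))) :=
  Cl.node (nat_lit 0x9888a890a1a) (nat_lit 1) (by decide +kernel) (ClAll.succ ClAll.zero n134)

def n136 : Cl (O (nat_lit 5)) (R (nat_lit 104577))
    (p (nat_lit 0x8878988071a) (nat_lit 0) (p (nat_lit 0x8000000000800080907888a) (nat_lit 0) (p (nat_lit 0x8000000000800078887060a) (nat_lit 0) (p (nat_lit 0x10608068782) (nat_lit 0) (p (nat_lit 0x587860702) (nat_lit 0) (p (nat_lit 0x10507058482) (nat_lit 0) (p (nat_lit 0x486850402) (nat_lit 0) (p (nat_lit 0x16000c) (nat_lit 0) (p (nat_lit 0x50612) (nat_lit 0) (p (nat_lit 0x38592) (nat_lit 0) (p (nat_lit 0x40492) (nat_lit 0) (p (nat_lit 0x28412) (nat_lit 0) (p (nat_lit 0x30292) (nat_lit 0) (p (nat_lit 0x18212) (nat_lit 0) (p (nat_lit 0x20092) (nat_lit 0) (p (nat_lit 0x8012) (nat_lit 0) pn))))))))))))))))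 :=
  Cl.node (nat_lit 0x109080a08879a) (nat_lit 1) (by decide +kernel) (ClAll.succ ClAll.zero n135)

def n137 : Cl (O (nat_lit 5)) (R (nat_lit 104577))
    (p (nat_lit 0x8000000000800080907888a) (nat_lit 0) (p (nat_lit 0x8000000000800078887060a) (nat_lit 0) (p (nat_lit 0x10608068782) (nat_lit 0) (p (nat_lit 0x587860702) (nat_lit 0) (p (nat_lit 0x10507058482) (nat_lit 0) (p (nat_lit 0x486850402) (nat_lit 0) (p (nat_lit 0x16000c) (nat_lit 0) (p (nat_lit 0x50612) (nat_lit 0) (p (nat_lit 0x38592) (nat_lit 0) (p (nat_lit 0x40492) (nat_lit 0) (p (nat_lit 0x28412) (nat_lit 0) (p (nat_lit 0x30292) (nat_lit 0) (p (nat_lit 0x18212) (nat_lit 0) (p (nat_lit 0x20092) (nat_lit 0) (p (nat_lit 0x8012) (nat_lit 0) pn))))))))))))))) :=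
  Cl.node (nat_lit 0x8878988071a) (nat_lit 1) (by decide +kernel) (ClAll.succ ClAll.zero n136)

def n138 : Cl (O (nat_lit 5)) (R (nat_lit 104577))
    (p (nat_lit 0x8000000000800078887060a) (nat_lit 0) (p (nat_lit 0x10608068782) (nat_lit 0) (p (nat_lit 0x587860702) (nat_lit 0) (p (nat_lit 0x10507058482) (nat_lit 0) (p (nat_lit 0x486850402) (nat_lit 0) (p (nat_lit 0x16000c) (nat_lit 0) (p (nat_lit 0x50612) (nat_lit 0) (p (nat_lit 0x38592) (nat_lit 0) (p (nat_lit 0x40492) (nat_lit 0) (p (nat_lit 0x28412) (nat_lit 0) (p (nat_lit 0x30292) (nat_lit 0) (p (nat_lit 0x18212) (nat_lit 0) (p (nat_lit 0x20092) (nat_lit 0) (p (nat_lit 0x8012) (nat_lit 0) pn)))))))))))))) :=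
  Cl.node (nat_lit 0x8000000000800080907888a) (nat_lit 1) (by decide +kernel) (ClAll.succ ClAll.zero n137)

def n139 : Cl (O (nat_lit 5)) (R (nat_lit 104577))
    (p (nat_lit 0x10608068782) (nat_lit 0) (p (nat_lit 0x587860702) (nat_lit 0) (p (nat_lit 0x10507058482) (nat_lit 0) (p (nat_lit 0x486850402) (nat_lit 0) (p (nat_lit 0x16000c) (nat_lit 0) (p (nat_lit 0x50612) (nat_lit 0) (p (nat_lit 0x38592) (nat_lit 0) (p (nat_lit 0x40492) (nat_lit 0) (p (nat_lit 0x28412) (nat_lit 0) (p (nat_lit 0x30292) (nat_lit 0) (p (nat_lit 0x18212) (nat_lit 0) (p (nat_lit 0x20092) (nat_lit 0) (p (nat_lit 0x8012) (nat_lit 0) pn))))))))))))) :=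
  Cl.node (nat_lit 0x8000000000800078887060a) (nat_lit 1) (by decide +kernel) (ClAll.succ ClAll.zero n138)

def n140 : Cl (O (nat_lit 5)) (R (nat_lit 104577))
    (p (nat_lit 0x587860702) (nat_lit 0) (p (nat_lit 0x10507058482) (nat_lit 0) (p (nat_lit 0x486850402) (nat_lit 0) (p (nat_lit 0x16000c) (nat_lit 0) (p (nat_lit 0x50612) (nat_lit 0) (p (nat_lit 0x38592) (nat_lit 0) (p (nat_lit 0x40492) (nat_lit 0) (p (nat_lit 0x28412) (nat_lit 0) (p (nat_lit 0x30292) (nat_lit 0) (p (nat_lit 0x18212) (nat_lit 0) (p (nat_lit 0x20092) (nat_lit 0) (p (nat_lit 0x8012) (nat_lit 0) pn)))))))))))) :=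
  Cl.node (nat_lit 0x10608068782) (nat_lit 1) (by decide +kernel) (ClAll.succ ClAll.zero n139)

def n141 : Cl (O (nat_lit 5)) (R (nat_lit 104577))
    (p (nat_lit 0x10507058482) (nat_lit 0) (p (nat_lit 0x486850402) (nat_lit 0) (p (nat_lit 0x16000c) (nat_lit 0) (p (nat_lit 0x50612) (nat_lit 0) (p (nat_lit 0x38592) (nat_lit 0) (p (nat_lit 0x40492) (nat_lit 0) (p (nat_lit 0x28412) (nat_lit 0) (p (nat_lit 0x30292) (nat_lit 0) (p (nat_lit 0x18212) (nat_lit 0) (p (nat_lit 0x20092) (nat_lit 0) (p (nat_lit 0x8012) (nat_lit 0) pn))))))))))) :=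
  Cl.node (nat_lit 0x587860702) (nat_lit 1) (by decide +kernel) (ClAll.succ ClAll.zero n140)

def n142 : Cl (O (nat_lit 5)) (R (nat_lit 104577))
    (p (nat_lit 0x486850402) (nat_lit 0) (p (nat_lit 0x16000c) (nat_lit 0) (p (nat_lit 0x50612) (nat_lit 0) (p (nat_lit 0x38592) (nat_lit 0) (p (nat_lit 0x40492) (nat_lit 0) (p (nat_lit 0x28412) (nat_lit 0) (p (nat_lit 0x30292) (nat_lit 0) (p (nat_lit 0x18212) (nat_lit 0) (p (nat_lit 0x20092) (nat_lit 0) (p (nat_lit 0x8012) (nat_lit 0) pn)))))))))) :=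
  Cl.node (nat_lit 0x10507058482) (nat_lit 1) (by decide +kernel) (ClAll.succ ClAll.zero n141)

def n143 : Cl (O (nat_lit 5)) (R (nat_lit 104577))
    (p (nat_lit 0x16000c) (nat_lit 0) (p (nat_lit 0x50612) (nat_lit 0) (p (nat_lit 0x38592) (nat_lit 0) (p (nat_lit 0x40492) (nat_lit 0) (p (nat_lit 0x28412) (nat_lit 0) (p (nat_lit 0x30292) (nat_lit 0) (p (nat_lit 0x18212) (nat_lit 0) (p (nat_lit 0x20092) (nat_lit 0) (p (nat_lit 0x8012) (nat_lit 0) pn))))))))) :=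
  Cl.node (nat_lit 0x486850402) (nat_lit 1) (by decide +kernel) (ClAll.succ ClAll.zero n142)

def n144 : Cl (O (nat_lit 5)) (R (nat_lit 104577))
    (p (nat_lit 0x50612) (nat_lit 0) (p (nat_lit 0x38592) (nat_lit 0) (p (nat_lit 0x40492) (nat_lit 0) (p (nat_lit 0x28412) (nat_lit 0) (p (nat_lit 0x30292) (nat_lit 0) (p (nat_lit 0x18212) (nat_lit 0) (p (nat_lit 0x20092) (nat_lit 0) (p (nat_lit 0x8012) (nat_lit 0) pn)))))))) :=
  Cl.node (nat_lit 0x16000c) (nat_lit 2) (by decide +kernel) (ClAll.succ (ClAll.succ ClAll.zero n143) s135)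

def n145 : Cl (O (nat_lit 5)) (R (nat_lit 104577))
    (p (nat_lit 0x38592) (nat_lit 0) (p (nat_lit 0x40492) (nat_lit 0) (p (nat_lit 0x28412) (nat_lit 0) (p (nat_lit 0x30292) (nat_lit 0) (p (nat_lit 0x18212) (nat_lit 0) (p (nat_lit 0x20092) (nat_lit 0) (p (nat_lit 0x8012) (nat_lit 0) pn))))))) :=
  Cl.node (nat_lit 0x50612) (nat_lit 1) (by decide +kernel) (ClAll.succ ClAll.zero n144)

def n146 : Cl (O (nat_lit 5)) (R (nat_lit 104577))
    (p (nat_lit 0x40492) (nat_lit 0) (p (nat_lit 0x28412) (nat_lit 0) (p (nat_lit 0x30292) (nat_lit 0) (p (nat_lit 0x18212) (nat_lit 0) (p (nat_lit 0x20092) (nat_lit 0) (p (nat_lit 0x8012) (nat_lit 0) pn)))))) :=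
  Cl.node (nat_lit 0x38592) (nat_lit 1) (by decide +kernel) (ClAll.succ ClAll.zero n145)

def n147 : Cl (O (nat_lit 5)) (R (nat_lit 104577))
    (p (nat_lit 0x28412) (nat_lit 0) (p (nat_lit 0x30292) (nat_lit 0) (p (nat_lit 0x18212) (nat_lit 0) (p (nat_lit 0x20092) (nat_lit 0) (p (nat_lit 0x8012) (nat_lit 0) pn))))) :=
  Cl.node (nat_lit 0x40492) (nat_lit 1) (by decide +kernel) (ClAll.succ ClAll.zero n146)

def n148 : Cl (O (nat_lit 5)) (R (nat_lit 104577))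
    (p (nat_lit 0x30292) (nat_lit 0) (p (nat_lit 0x18212) (nat_lit 0) (p (nat_lit 0x20092) (nat_lit 0) (p (nat_lit 0x8012) (nat_lit 0) pn)))) :=
  Cl.node (nat_lit 0x28412) (nat_lit 1) (by decide +kernel) (ClAll.succ ClAll.zero n147)

def n149 : Cl (O (nat_lit 5)) (R (nat_lit 104577))
    (p (nat_lit 0x18212) (nat_lit 0) (p (nat_lit 0x20092) (nat_lit 0) (p (nat_lit 0x8012) (nat_lit 0) pn))) :=
  Cl.node (nat_lit 0x30292) (nat_lit 1) (by decide +kernel) (ClAll.succ ClAll.zero n148)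

def n150 : Cl (O (nat_lit 5)) (R (nat_lit 104577))
    (p (nat_lit 0x20092) (nat_lit 0) (p (nat_lit 0x8012) (nat_lit 0) pn)) :=
  Cl.node (nat_lit 0x18212) (nat_lit 1) (by decide +kernel) (ClAll.succ ClAll.zero n149)

def n151 : Cl (O (nat_lit 5)) (R (nat_lit 104577))
    (p (nat_lit 0x8012) (nat_lit 0) pn) :=
  Cl.node (nat_lit 0x20092) (nat_lit 1) (by decide +kernel) (ClAll.succ ClAll.zero n150)

def n152 : Cl (O (nat_lit 5)) (R (nat_lit 104577))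
    pn :=
  Cl.node (nat_lit 0x8012) (nat_lit 1) (by decide +kernel) (ClAll.succ ClAll.zero n151)

theorem top : Cl (O (nat_lit 5)) (R (nat_lit 104577)) pn := n152

end Pool.Agent.Gen.F5.X1C2D13m5
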